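import Pool.Agent.LibCJ7.Defs

/-!
ROW [CJ AP]. Adding independent points.

`q n = (p n - τ) / (1 - τ)`, `v Y = ∏ n ∈ Y, q n * ∏ n ∈ S \ Y, (1 - q n)` (`Finset.prod_add`: these
sum to 1 over `S.powerset`), `w T = ∑ X ∈ S.powerset, ∑ Y ∈ S.powerset, if X ∪ Y = T then w₀ X * v Y
else 0`. Then `∑ T, F T * w T = ∑ X, ∑ Y, w₀ X * v Y * F (X ∪ Y)` for every `F`.
* `incl`: `F T = if J ⊆ T then 1 else 0`: `∑ Y, v Y * F (X ∪ Y) = ∏ n ∈ J \ X, q n`
  `= ∏ n ∈ J, ((1 - q n) x n + q n)`, `x n = if n ∈ X then 1 else 0`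
  `= ∑ A ∈ J.powerset, (∏ n ∈ A, (1 - q n)) * (∏ n ∈ J \ A, q n) * (if A ⊆ X then 1 else 0)`, whose mean
  for `w₀` is `∑ A, (∏ n ∈ A, (1 - q n)) * (∏ n ∈ J \ A, q n) * τ ^ A.card`
  `= ∏ n ∈ J, ((1 - q n) τ + q n) = ∏ n ∈ J, p n`.
* `∅`: the term `X = Y = ∅`.
* decreasing `A`: `F T = if A T then 1 else 0`, `F (X ∪ Y) ≤ F X`.
-/

namespace Pool.Agent.LibCJ

open Finset

/-- the weight of `Y` when every `n ∈ S` is chosen independently with probability `q n` -/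
noncomputable def AP_v (S : Finset ℕ) (q : ℕ → ℝ) (Y : Finset ℕ) : ℝ :=
  (∏ n ∈ Y, q n) * ∏ n ∈ S \ Y, (1 - q n)

open Classical in
lemma AP_v_incl {S J : Finset ℕ} (q : ℕ → ℝ) (hJ : J ⊆ S) :
    ∑ Y ∈ S.powerset, AP_v S q Y * (if J ⊆ Y then 1 else 0) = ∏ n ∈ J, q n := by
  have h1 : ∀ Y ∈ S.powerset, AP_v S q Y * (if J ⊆ Y then 1 else 0) =
      (∏ n ∈ Y, q n) * ∏ n ∈ S \ Y, (if n ∈ J then 0 else 1 - q n) := by
    intro Y _
    unfold AP_v
    split_ifs with h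
    · rw [mul_one]
      congr 1
      refine Finset.prod_congr rfl fun n hn => ?_
      rw [if_neg]
      intro hnJ
      exact (Finset.mem_sdiff.1 hn).2 (h hnJ)
    · obtain ⟨n, hnJ, hnY⟩ := Finset.not_subset.1 h
      have hn : n ∈ S \ Y := Finset.mem_sdiff.2 ⟨hJ hnJ, hnY⟩
      have h0 : ∏ n ∈ S \ Y, (if n ∈ J then 0 else 1 - q n) = 0 :=
        Finset.prod_eq_zero hn (if_pos hnJ)
      rw [h0]
      ring
  rw [Finset.sum_congr rfl h1, ← Finset.prod_add]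
  have h2 : ∀ n ∈ S, (q n + if n ∈ J then 0 else 1 - q n) = if n ∈ J then q n else 1 := by
    intro n _
    split_ifs <;> ring
  rw [Finset.prod_congr rfl h2, Finset.prod_ite_mem, Finset.inter_eq_right.2 hJ]

lemma AP_v_sum (S : Finset ℕ) (q : ℕ → ℝ) : ∑ Y ∈ S.powerset, AP_v S q Y = 1 := by
  have h := AP_v_incl q (Finset.empty_subset S)
  simpa using h

lemma AP_v_nonneg {S : Finset ℕ} {q : ℕ → ℝ} (h0 : ∀ n ∈ S, 0 ≤ q n) (h1 : ∀ n ∈ S, q n ≤ 1)
    {Y : Finset ℕ} (hY : Y ⊆ S) : 0 ≤ AP_v S q Y :=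
  mul_nonneg (Finset.prod_nonneg fun n hn => h0 n (hY hn))
    (Finset.prod_nonneg fun n hn => sub_nonneg.2 (h1 n (Finset.mem_sdiff.1 hn).1))

open Classical in
/-- the new law -/
noncomputable def AP_w (S : Finset ℕ) (q : ℕ → ℝ) (w₀ : Finset ℕ → ℝ) (T : Finset ℕ) : ℝ :=
  ∑ X ∈ S.powerset, ∑ Y ∈ S.powerset, if X ∪ Y = T then w₀ X * AP_v S q Y else 0

lemma AP_mean (S : Finset ℕ) (q : ℕ → ℝ) (w₀ F : Finset ℕ → ℝ) :
    ∑ T ∈ S.powerset, F T * AP_w S q w₀ T =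
      ∑ X ∈ S.powerset, ∑ Y ∈ S.powerset, w₀ X * (AP_v S q Y * F (X ∪ Y)) := by
  unfold AP_w
  simp only [Finset.mul_sum]
  rw [Finset.sum_comm]
  refine Finset.sum_congr rfl fun X hX => ?_
  rw [Finset.sum_comm]
  refine Finset.sum_congr rfl fun Y hY => ?_
  have hXY : X ∪ Y ∈ S.powerset := Finset.mem_powerset.2
    (Finset.union_subset (Finset.mem_powerset.1 hX) (Finset.mem_powerset.1 hY))
  rw [Finset.sum_eq_single (X ∪ Y)]
  · rw [if_pos rfl]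
    ring
  · intro T _ hT
    rw [if_neg (Ne.symm hT), mul_zero]
  · intro h
    exact absurd hXY h

open Classical in
lemma AP_incl {S : Finset ℕ} {K : ℕ} {τ : ℝ} {w₀ : Finset ℕ → ℝ} (hτ1 : τ < 1)
    (h : LibCramer.BLaw S (fun _ => τ) K w₀) (p : ℕ → ℝ) {J : Finset ℕ} (hJ : J ⊆ S)
    (hJK : J.card ≤ K) :
    ∑ T ∈ S.powerset with J ⊆ T, AP_w S (fun n => (p n - τ) / (1 - τ)) w₀ T = ∏ n ∈ J, p n := by
  set q : ℕ → ℝ := fun n => (p n - τ) / (1 - τ) with hq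
  have e1 : ∑ T ∈ S.powerset with J ⊆ T, AP_w S q w₀ T =
      ∑ T ∈ S.powerset, (if J ⊆ T then (1 : ℝ) else 0) * AP_w S q w₀ T := by
    rw [Finset.sum_filter]
    refine Finset.sum_congr rfl fun T _ => ?_
    split_ifs <;> ring
  rw [e1, AP_mean S q w₀ (fun T => if J ⊆ T then (1 : ℝ) else 0)]
  have e2 : ∀ X ∈ S.powerset, ∑ Y ∈ S.powerset,
      w₀ X * (AP_v S q Y * (if J ⊆ X ∪ Y then (1 : ℝ) else 0)) =
        w₀ X * ∑ A ∈ J.powerset, ((∏ n ∈ A, (1 - q n)) * ∏ n ∈ J \ A, q n) *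
          (if A ⊆ X then (1 : ℝ) else 0) := by
    intro X _
    rw [← Finset.mul_sum]
    congr 1
    have f1 : ∀ Y ∈ S.powerset, AP_v S q Y * (if J ⊆ X ∪ Y then (1 : ℝ) else 0) =
        AP_v S q Y * (if J \ X ⊆ Y then (1 : ℝ) else 0) := by
      intro Y _
      have : (J ⊆ X ∪ Y) ↔ (J \ X ⊆ Y) := (sdiff_le_iff (a := J) (b := X) (c := Y)).symm
      simp only [this]
    rw [Finset.sum_congr rfl f1, AP_v_incl q (Finset.sdiff_subset.trans hJ)]
    have f2 : ∏ n ∈ J \ X, q n = ∏ n ∈ J, ((1 - q n) * (if n ∈ X then (1 : ℝ) else 0) + q n) := by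
      have f3 : ∀ n ∈ J, ((1 - q n) * (if n ∈ X then (1 : ℝ) else 0) + q n) =
          if n ∈ J \ X then q n else 1 := by
        intro n hn
        by_cases hX : n ∈ X
        · rw [if_pos hX, if_neg (fun h => (Finset.mem_sdiff.1 h).2 hX)]
          ring
        · rw [if_neg hX, if_pos (Finset.mem_sdiff.2 ⟨hn, hX⟩)]
          ring
      rw [Finset.prod_congr rfl f3, Finset.prod_ite_mem, Finset.inter_eq_right.2
        Finset.sdiff_subset]
    rw [f2, Finset.prod_add]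
    refine Finset.sum_congr rfl fun A _ => ?_
    rw [Finset.prod_mul_distrib]
    have f4 : ∏ n ∈ A, (if n ∈ X then (1 : ℝ) else 0) = if A ⊆ X then (1 : ℝ) else 0 := by
      split_ifs with hA
      · exact Finset.prod_eq_one fun n hn => if_pos (hA hn)
      · obtain ⟨n, hn, hnX⟩ := Finset.not_subset.1 hA
        exact Finset.prod_eq_zero hn (if_neg hnX)
    rw [f4]
    ring
  rw [Finset.sum_congr rfl e2]
  simp only [Finset.mul_sum]
  rw [Finset.sum_comm]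
  have e3 : ∀ A ∈ J.powerset, ∑ X ∈ S.powerset, w₀ X * (((∏ n ∈ A, (1 - q n)) *
      ∏ n ∈ J \ A, q n) * (if A ⊆ X then (1 : ℝ) else 0)) =
        (∏ n ∈ A, ((1 - q n) * τ)) * ∏ n ∈ J \ A, q n := by
    intro A hA
    have hA' := Finset.mem_powerset.1 hA
    have f1 := h.incl A (hA'.trans hJ) ((Finset.card_le_card hA').trans hJK)
    rw [Finset.sum_filter] at f1
    have f2 : ∀ X ∈ S.powerset, w₀ X * (((∏ n ∈ A, (1 - q n)) *
        ∏ n ∈ J \ A, q n) * (if A ⊆ X then (1 : ℝ) else 0)) =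
        ((∏ n ∈ A, (1 - q n)) * ∏ n ∈ J \ A, q n) * (if A ⊆ X then w₀ X else 0) := by
      intro X _
      split_ifs <;> ring
    rw [Finset.sum_congr rfl f2, ← Finset.mul_sum, f1, Finset.prod_mul_distrib]
    ring
  rw [Finset.sum_congr rfl e3, ← Finset.prod_add]
  refine Finset.prod_congr rfl fun n _ => ?_
  have h1 : (1 : ℝ) - τ ≠ 0 := by linarith
  simp only [hq]
  field_simp
  ring

open Classical in
theorem add_points {S : Finset ℕ} {K : ℕ} {τ : ℝ} {w₀ : Finset ℕ → ℝ} (hτ0 : 0 ≤ τ) (hτ1 : τ < 1)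
    (h : LibCramer.BLaw S (fun _ => τ) K w₀) {p : ℕ → ℝ} (hp : ∀ n ∈ S, τ ≤ p n)
    (hp1 : ∀ n ∈ S, p n ≤ 1) :
    ∃ w : Finset ℕ → ℝ, LibCramer.BLaw S p K w ∧
      w₀ ∅ * ∏ n ∈ S, (1 - (p n - τ) / (1 - τ)) ≤ w ∅ ∧
      ∀ A : Finset ℕ → Prop, (∀ X Y, X ⊆ Y → A Y → A X) →
        ∑ T ∈ S.powerset with A T, w T ≤ ∑ T ∈ S.powerset with A T, w₀ T := by
  set q : ℕ → ℝ := fun n => (p n - τ) / (1 - τ) with hq
  have h1τ : 0 < 1 - τ := by linarith
  have hq0 : ∀ n ∈ S, 0 ≤ q n := fun n hn => div_nonneg (by linarith [hp n hn]) h1τ.le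
  have hq1 : ∀ n ∈ S, q n ≤ 1 := fun n hn => by
    simp only [hq]
    rw [div_le_one h1τ]
    linarith [hp1 n hn]
  have hv : ∀ Y ∈ S.powerset, 0 ≤ AP_v S q Y := fun Y hY =>
    AP_v_nonneg hq0 hq1 (Finset.mem_powerset.1 hY)
  have hterm : ∀ (T X Y : Finset ℕ), X ∈ S.powerset → Y ∈ S.powerset →
      0 ≤ (if X ∪ Y = T then w₀ X * AP_v S q Y else 0) := by
    intro T X Y hX hY
    split_ifs
    · exact mul_nonneg (h.nonneg X hX) (hv Y hY)
    · exact le_rfl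
  refine ⟨AP_w S q w₀, ⟨?_, ?_, ?_⟩, ?_, ?_⟩
  · intro T _
    exact Finset.sum_nonneg fun X hX => Finset.sum_nonneg fun Y hY => hterm T X Y hX hY
  · have h1 := AP_incl hτ1 h p (Finset.empty_subset S) (by simp)
    simpa using h1
  · intro J hJ hJK
    exact AP_incl hτ1 h p hJ hJK
  · have hE : (∅ : Finset ℕ) ∈ S.powerset := Finset.empty_mem_powerset S
    have h1 : w₀ ∅ * ∏ n ∈ S, (1 - q n) =
        (if (∅ : Finset ℕ) ∪ ∅ = ∅ then w₀ ∅ * AP_v S q ∅ else 0) := by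
      rw [if_pos (Finset.union_empty _)]
      unfold AP_v
      simp
    have h2 : w₀ ∅ * ∏ n ∈ S, (1 - (p n - τ) / (1 - τ)) = w₀ ∅ * ∏ n ∈ S, (1 - q n) := rfl
    rw [h2, h1]
    unfold AP_w
    refine le_trans ?_ (Finset.single_le_sum (f := fun X => ∑ Y ∈ S.powerset,
      if X ∪ Y = ∅ then w₀ X * AP_v S q Y else 0)
      (fun X hX => Finset.sum_nonneg fun Y hY => hterm ∅ X Y hX hY) hE)
    exact Finset.single_le_sum (f := fun Y => if (∅ : Finset ℕ) ∪ Y = ∅ then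
      w₀ ∅ * AP_v S q Y else 0) (fun Y hY => hterm ∅ ∅ Y hE hY) hE
  · intro A hA
    have e1 : ∀ w : Finset ℕ → ℝ, ∑ T ∈ S.powerset with A T, w T =
        ∑ T ∈ S.powerset, (if A T then (1 : ℝ) else 0) * w T := by
      intro w
      rw [Finset.sum_filter]
      refine Finset.sum_congr rfl fun T _ => ?_
      split_ifs <;> ring
    rw [e1, e1, AP_mean S q w₀ (fun T => if A T then (1 : ℝ) else 0)]
    refine Finset.sum_le_sum fun X hX => ?_
    have hX0 := h.nonneg X hX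
    calc ∑ Y ∈ S.powerset, w₀ X * (AP_v S q Y * (if A (X ∪ Y) then (1 : ℝ) else 0))
        ≤ ∑ Y ∈ S.powerset, w₀ X * (AP_v S q Y * (if A X then (1 : ℝ) else 0)) := by
          refine Finset.sum_le_sum fun Y hY => ?_
          refine mul_le_mul_of_nonneg_left (mul_le_mul_of_nonneg_left ?_ (hv Y hY)) hX0
          by_cases h1 : A (X ∪ Y)
          · rw [if_pos h1, if_pos (hA X (X ∪ Y) Finset.subset_union_left h1)]
          · rw [if_neg h1]
            split_ifs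
            · exact zero_le_one
            · exact le_rfl
      _ = (if A X then (1 : ℝ) else 0) * w₀ X := by
          rw [← Finset.mul_sum, ← Finset.sum_mul, AP_v_sum]
          ring

end Pool.Agent.LibCJ
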