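import Pool.Agent.LibCJ7.MaxP

/-!
The value at `0` of a polynomial of degree `≤ D` in a binomial variable.
-/

namespace Pool.Agent.LibCJ

open Polynomial Finset

/-- the polynomial with the coefficients `c` in the binomial basis, at `j` -/
noncomputable def qv (c : ℕ → ℝ) (D j : ℕ) : ℝ := ∑ i ∈ range (D + 1), c i * (j.choose i : ℝ)

lemma qv_zero (c : ℕ → ℝ) (D : ℕ) : qv c D 0 = c 0 := by
  unfold qv
  rw [sum_eq_single 0]
  · simp
  · intro i _ hi
    rw [Nat.choose_eq_zero_of_lt (Nat.pos_of_ne_zero hi)]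
    simp
  · intro h
    simp at h

/-- binomial weights -/
noncomputable def binW (g : ℕ) (τ : ℝ) (j : ℕ) : ℝ := (g.choose j : ℝ) * τ ^ j * (1 - τ) ^ (g - j)

lemma binW_nonneg {g : ℕ} {τ : ℝ} (h0 : 0 ≤ τ) (h1 : τ ≤ 1) (j : ℕ) : 0 ≤ binW g τ j := by
  unfold binW
  have : 0 ≤ 1 - τ := by linarith
  positivity

/-- the generating polynomial of the binomial moments -/
lemma sum_choose_choose (g i : ℕ) (v : ℂ) :
    ∑ j ∈ range (g + 1), (g.choose j : ℂ) * (j.choose i : ℂ) * v ^ j =
      (g.choose i : ℂ) * v ^ i * (1 + v) ^ (g - i) := by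
  rcases Nat.lt_or_ge g i with h | h
  · rw [Nat.choose_eq_zero_of_lt h]
    simp only [Nat.cast_zero, zero_mul]
    refine sum_eq_zero fun j hj => ?_
    have hj' : j ≤ g := Nat.lt_succ_iff.1 (mem_range.1 hj)
    rw [Nat.choose_eq_zero_of_lt (lt_of_le_of_lt hj' h)]
    simp
  have e1 : ∑ j ∈ range (g + 1), (g.choose j : ℂ) * (j.choose i : ℂ) * v ^ j =
      ∑ j ∈ Ico i (g + 1), (g.choose j : ℂ) * (j.choose i : ℂ) * v ^ j := by
    symm
    refine sum_subset (fun x hx => by rw [mem_Ico] at hx; exact mem_range.2 hx.2) ?_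
    intro x _ hx2
    have hx3 : x < i := by
      by_contra h3
      exact hx2 (mem_Ico.2 ⟨not_lt.1 h3, by assumption |> mem_range.1⟩)
    rw [Nat.choose_eq_zero_of_lt hx3]
    simp
  rw [e1, Finset.sum_Ico_eq_sum_range]
  have e2 : g + 1 - i = (g - i) + 1 := by omega
  rw [e2, add_comm (1 : ℂ) v, add_pow, mul_sum]
  refine sum_congr rfl fun k hk => ?_
  have hk' : k ≤ g - i := Nat.lt_succ_iff.1 (mem_range.1 hk)
  have h1 : g.choose (i + k) * (i + k).choose i = g.choose i * (g - i).choose k := by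
    have := Nat.choose_mul (n := g) (k := i + k) (s := i) (by omega)
    rw [this]
    congr 2
    omega
  have h2 : (g.choose (i + k) : ℂ) * ((i + k).choose i : ℂ) =
      (g.choose i : ℂ) * ((g - i).choose k : ℂ) := by exact_mod_cast h1
  rw [h2, pow_add, one_pow]
  ring

/-- The value at `0` of a polynomial of degree at most `D` is bounded by its mean absolute value
under the binomial distribution. -/
theorem value_zero_le {g D : ℕ} (hDg : D ≤ g) (hg : 0 < g) (c : ℕ → ℝ) {τ b ρ : ℝ} (hτ0 : 0 < τ)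
    (hρ : ρ = τ / (1 - τ)) (hτ1 : ρ ≤ 1 / 4) (hτ2 : τ < 1) (hb : 1 < b) :
    |c 0| ≤ Real.exp (5 * g * ρ ^ 2 + D * ρ) * (b ^ D * Real.exp (g * ρ / b ^ 2)) *
      ∑ j ∈ range (g + 1), binW g τ j * |qv c D j| := by
  have h1τ : 0 < 1 - τ := by linarith
  have hρ0 : 0 < ρ := by rw [hρ]; positivity
  have hg0 : (0 : ℝ) < g := by exact_mod_cast hg
  set M : ℝ := ∑ j ∈ range (g + 1), binW g τ j * |qv c D j| with hM
  have hM0 : 0 ≤ M := sum_nonneg fun j _ =>
    mul_nonneg (binW_nonneg hτ0.le hτ2.le j) (abs_nonneg _)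
  -- the polynomial
  set P : ℂ[X] := ∑ i ∈ range (D + 1), C ((c i : ℂ) * (g.choose i : ℂ)) *
    ((C ((g : ℂ)⁻¹) * X) ^ i * (1 + C ((g : ℂ)⁻¹) * X) ^ (D - i)) with hP
  have hdeg : P.natDegree ≤ D := by
    rw [hP]
    refine natDegree_sum_le_of_forall_le _ _ fun i hi => ?_
    have hi' : i ≤ D := Nat.lt_succ_iff.1 (mem_range.1 hi)
    have h1 : (C ((g : ℂ)⁻¹) * X : ℂ[X]).natDegree ≤ 1 := (natDegree_C_mul_le _ _).trans natDegree_X_le
    have h2 : (1 + C ((g : ℂ)⁻¹) * X : ℂ[X]).natDegree ≤ 1 := by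
      refine (natDegree_add_le _ _).trans ?_
      rw [natDegree_one]
      exact max_le (Nat.zero_le _) h1
    calc (C ((c i : ℂ) * (g.choose i : ℂ)) *
          ((C ((g : ℂ)⁻¹) * X) ^ i * (1 + C ((g : ℂ)⁻¹) * X) ^ (D - i)) : ℂ[X]).natDegree
        ≤ 0 + (i * 1 + (D - i) * 1) := by
          refine natDegree_mul_le_of_le (natDegree_C _).le (natDegree_mul_le_of_le ?_ ?_)
          · exact natDegree_pow_le_of_le i h1
          · exact natDegree_pow_le_of_le (D - i) h2
      _ = D := by omega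
  have hPv : ∀ v : ℂ, P.eval (g * v) =
      ∑ i ∈ range (D + 1), (c i : ℂ) * (g.choose i : ℂ) * (v ^ i * (1 + v) ^ (D - i)) := by
    intro v
    rw [hP, eval_finsetSum]
    refine sum_congr rfl fun i _ => ?_
    have h1 : (g : ℂ)⁻¹ * (g * v) = v := by
      rw [← mul_assoc, inv_mul_cancel₀ (by exact_mod_cast hg.ne'), one_mul]
    simp only [eval_mul, eval_C, eval_pow, eval_X, eval_add, eval_one, h1]
  have hkey : ∀ v : ℂ, P.eval (g * v) * (1 + v) ^ (g - D) =
      ∑ j ∈ range (g + 1), (g.choose j : ℂ) * (qv c D j : ℂ) * v ^ j := by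
    intro v
    rw [hPv, sum_mul]
    have e1 : ∀ j ∈ range (g + 1), (g.choose j : ℂ) * (qv c D j : ℂ) * v ^ j =
        ∑ i ∈ range (D + 1), (c i : ℂ) * ((g.choose j : ℂ) * (j.choose i : ℂ) * v ^ j) := by
      intro j _
      unfold qv
      push_cast
      rw [mul_sum, sum_mul]
      refine sum_congr rfl fun i _ => ?_
      ring
    rw [sum_congr rfl e1, sum_comm]
    refine sum_congr rfl fun i hi => ?_
    have hi' : i ≤ D := Nat.lt_succ_iff.1 (mem_range.1 hi)
    rw [← mul_sum, sum_choose_choose]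
    have e2 : g - i = (D - i) + (g - D) := by omega
    rw [e2, pow_add]
    ring
  -- the bound on the circle
  have hbound : ∀ u : ℂ, ‖u‖ = g * ρ → ‖P.eval u‖ ≤
      (Real.exp (5 * g * ρ ^ 2 + D * ρ) * M) * Real.exp (g * ρ - u.re) := by
    intro u hu
    set v : ℂ := u / g with hv
    have hgC : (g : ℂ) ≠ 0 := by exact_mod_cast hg.ne'
    have huv : u = g * v := by rw [hv]; field_simp
    have hvn : ‖v‖ = ρ := by
      rw [hv, norm_div, hu, Complex.norm_natCast]
      field_simp
    have hre : u.re = g * v.re := by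
      rw [huv]
      exact Complex.re_ofReal_mul (g : ℝ) v
    have hvre : |v.re| ≤ ρ := (Complex.abs_re_le_norm v).trans hvn.le
    have h1v : 1 + v ≠ 0 := by
      intro h0
      have : v = -1 := by linear_combination h0
      rw [this, norm_neg, norm_one] at hvn
      linarith
    have h1vn : 0 < ‖1 + v‖ := norm_pos_iff.2 h1v
    -- lower bound for the modulus of `1 + v`
    have hlow : Real.exp (v.re - 5 * ρ ^ 2) ≤ ‖1 + v‖ := by
      have hsq : ‖1 + v‖ ^ 2 = 1 + (2 * v.re + ρ ^ 2) := by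
        have h2 : ‖v‖ ^ 2 = v.re ^ 2 + v.im ^ 2 := by
          rw [← Complex.normSq_eq_norm_sq, Complex.normSq_apply]
          ring
        rw [← Complex.normSq_eq_norm_sq, Complex.normSq_apply]
        simp only [Complex.add_re, Complex.one_re, Complex.add_im, Complex.one_im, zero_add]
        rw [← hvn, h2]
        ring
      set x : ℝ := 2 * v.re + ρ ^ 2 with hx
      have hv1 := abs_le.1 hvre
      have hx1 : -(1 / 2) ≤ x := by nlinarith [hv1.1, sq_nonneg ρ]
      have hx2 : |x| ≤ 9 / 4 * ρ := by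
        rw [abs_le]
        constructor <;> nlinarith [hv1.1, hv1.2, sq_nonneg ρ]
      have hx3 : x ^ 2 ≤ (9 / 4 * ρ) ^ 2 := by
        rw [← sq_abs x]
        exact pow_le_pow_left₀ (abs_nonneg _) hx2 2
      have hexp : Real.exp (x - 2 * x ^ 2) ≤ 1 + x := by
        have h3 : 0 < 1 + x := by linarith
        rw [← Real.log_le_log_iff (Real.exp_pos _) h3, Real.log_exp]
        have h4 : -(Real.log (1 + x)) ≤ 2 * x ^ 2 - x := by
          rw [← Real.log_inv]
          have h5 := Real.log_le_sub_one_of_pos (inv_pos.2 h3)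
          refine h5.trans ?_
          rw [inv_eq_one_div, div_sub_one h3.ne', div_le_iff₀ h3]
          nlinarith [mul_nonneg (sq_nonneg x) (by linarith : (0 : ℝ) ≤ 1 + 2 * x)]
        linarith
      have h6 : Real.exp (v.re - 5 * ρ ^ 2) ^ 2 ≤ ‖1 + v‖ ^ 2 := by
        rw [hsq, ← Real.exp_nat_mul]
        refine le_trans (Real.exp_le_exp.2 ?_) hexp
        push_cast
        rw [hx] at hx3 ⊢
        nlinarith [sq_nonneg ρ]
      exact (pow_le_pow_iff_left₀ (Real.exp_pos _).le (norm_nonneg _) two_ne_zero).1 h6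
    -- the sum
    have hsum : ‖P.eval u * (1 + v) ^ (g - D)‖ ≤ M * Real.exp (g * ρ) := by
      rw [huv, hkey]
      calc ‖∑ j ∈ range (g + 1), (g.choose j : ℂ) * (qv c D j : ℂ) * v ^ j‖
          ≤ ∑ j ∈ range (g + 1), ‖(g.choose j : ℂ) * (qv c D j : ℂ) * v ^ j‖ := norm_sum_le _ _
        _ = ∑ j ∈ range (g + 1), (1 + ρ) ^ g * (binW g τ j * |qv c D j|) := by
            refine sum_congr rfl fun j hj => ?_
            have hj' : j ≤ g := Nat.lt_succ_iff.1 (mem_range.1 hj)
            rw [norm_mul, norm_mul, norm_pow, hvn, Complex.norm_natCast, Complex.norm_real,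
              Real.norm_eq_abs]
            unfold binW
            have h7 : 1 + ρ = (1 - τ)⁻¹ := by
              rw [hρ]
              field_simp
              ring
            have h8 : ρ ^ j = (1 + ρ) ^ g * (τ ^ j * (1 - τ) ^ (g - j)) := by
              rw [h7, hρ, div_pow]
              have h9 : (1 - τ) ^ g = (1 - τ) ^ (g - j) * (1 - τ) ^ j := by
                rw [← pow_add]
                congr 1
                omega
              rw [inv_pow, h9]
              have h10 : (1 - τ) ^ (g - j) ≠ 0 := pow_ne_zero _ h1τ.ne'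
              have h11 : (1 - τ) ^ j ≠ 0 := pow_ne_zero _ h1τ.ne'
              field_simp
            rw [h8]
            ring
        _ = (1 + ρ) ^ g * M := by rw [← mul_sum]
        _ ≤ Real.exp (g * ρ) * M := by
            refine mul_le_mul_of_nonneg_right ?_ hM0
            rw [mul_comm (g : ℝ) ρ, Real.exp_mul, Real.rpow_natCast]
            have := Real.add_one_le_exp ρ
            exact pow_le_pow_left₀ (by linarith) (by linarith) g
        _ = M * Real.exp (g * ρ) := mul_comm _ _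
    rw [norm_mul, norm_pow] at hsum
    have h12 : Real.exp ((g - D : ℕ) * (v.re - 5 * ρ ^ 2)) ≤ ‖1 + v‖ ^ (g - D) := by
      rw [mul_comm, Real.exp_mul, Real.rpow_natCast]
      exact pow_le_pow_left₀ (Real.exp_pos _).le hlow _
    have h13 : ‖P.eval u‖ * Real.exp ((g - D : ℕ) * (v.re - 5 * ρ ^ 2)) ≤ M * Real.exp (g * ρ) :=
      (mul_le_mul_of_nonneg_left h12 (norm_nonneg _)).trans hsum
    have h14 : ‖P.eval u‖ ≤ M * Real.exp (g * ρ) *
        Real.exp (-((g - D : ℕ) * (v.re - 5 * ρ ^ 2))) := by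
      have h15 := mul_le_mul_of_nonneg_right h13
        (Real.exp_pos (-((g - D : ℕ) * (v.re - 5 * ρ ^ 2)))).le
      rwa [mul_assoc, ← Real.exp_add, add_neg_cancel, Real.exp_zero, mul_one] at h15
    refine h14.trans ?_
    rw [mul_assoc, ← Real.exp_add, mul_comm (Real.exp (5 * g * ρ ^ 2 + D * ρ)) M, mul_assoc,
      ← Real.exp_add]
    refine mul_le_mul_of_nonneg_left (Real.exp_le_exp.2 ?_) hM0
    rw [hre, Nat.cast_sub hDg]
    have hD0 : (0 : ℝ) ≤ D := Nat.cast_nonneg D
    have hv1 := abs_le.1 hvre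
    nlinarith [mul_nonneg hD0 (sq_nonneg ρ), mul_le_mul_of_nonneg_left hv1.2 hD0]
  have hmain := extrapolate hdeg (mul_pos hg0 hρ0) hb hbound
  have hP0 : ‖P.eval 0‖ = |c 0| := by
    have h1 := hPv 0
    rw [mul_zero] at h1
    rw [h1, sum_eq_single 0]
    · simp
    · intro i _ hi
      rw [zero_pow hi]
      ring
    · intro h
      simp at h
  rw [hP0] at hmain
  calc |c 0| ≤ Real.exp (5 * g * ρ ^ 2 + D * ρ) * M * (b ^ D * Real.exp (g * ρ / b ^ 2)) := hmain
    _ = _ := by ring

end Pool.Agent.LibCJ
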