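import Pool.Agent.LibCJ7.BinIneq
import Pool.Agent.LibCI7.Space

/-!
Definitions: product weights, the chain recursion.
-/

namespace Pool.Agent.LibCJ

open Finset

/-- weight of `X ⊆ V` when every element of `V` is chosen independently with probability `τ` -/
noncomputable def pw (τ : ℝ) (V X : Finset ℕ) : ℝ := τ ^ X.card * (1 - τ) ^ (V \ X).card

/-- the mean over the subsets of `V` -/
noncomputable def EV (τ : ℝ) (V : Finset ℕ) (F : Finset ℕ → ℝ) : ℝ :=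
  ∑ X ∈ V.powerset, pw τ V X * F X

open Classical in
/-- the contribution of the gap between `u` and `v`; the sites are `1, …, M`, the borders `0` and
`M + 1` count as occupied -/
noncomputable def Phi (M : ℕ) (ψ : ℕ → ℕ → Finset ℕ → ℝ) (X : Finset ℕ) (u v : ℕ) : ℝ :=
  if (u = 0 ∨ u ∈ X) ∧ (v = M + 1 ∨ v ∈ X) then ψ u v (X ∩ Ioo u v) else 0

/-- the chain recursion: `Z n` is the sum over all chains of gaps `(u, v)`, `v ≤ n`, with
`g₀ ≤ v - u - 1 ≤ g₁`, of the products of the `w * Φ u v` -/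
noncomputable def Z (w : ℝ) (Φ : ℕ → ℕ → ℝ) (g₀ g₁ : ℕ) : ℕ → ℝ
  | 0 => 1
  | n + 1 => Z w Φ g₀ g₁ n +
      w * ∑ u : Fin (n + 1), if g₀ ≤ n - u.1 ∧ n - u.1 ≤ g₁ then Φ u.1 (n + 1) * Z w Φ g₀ g₁ u.1
        else 0
  decreasing_by
    · exact Nat.lt_succ_self n
    · exact u.2

lemma Z_zero (w : ℝ) (Φ : ℕ → ℕ → ℝ) (g₀ g₁ : ℕ) : Z w Φ g₀ g₁ 0 = 1 := by
  rw [Z]

lemma Z_succ (w : ℝ) (Φ : ℕ → ℕ → ℝ) (g₀ g₁ n : ℕ) : Z w Φ g₀ g₁ (n + 1) = Z w Φ g₀ g₁ n +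
    w * ∑ u ∈ range (n + 1), if g₀ ≤ n - u ∧ n - u ≤ g₁ then Φ u (n + 1) * Z w Φ g₀ g₁ u
      else 0 := by
  rw [Z, Fin.sum_univ_eq_sum_range (fun u => if g₀ ≤ n - u ∧ n - u ≤ g₁ then
    Φ u (n + 1) * Z w Φ g₀ g₁ u else 0) (n + 1)]

/-- the gap `(u, v)` occurs in `X` -/
def IsGap (M : ℕ) (X : Finset ℕ) (u v : ℕ) : Prop :=
  (u = 0 ∨ u ∈ X) ∧ (v = M + 1 ∨ v ∈ X) ∧ v ≤ M + 1 ∧ Disjoint X (Ioo u v)

/-- some gap with `g₀, …, g₁` empty sites occurs in `X` -/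
def HasGap (M g₀ g₁ : ℕ) (X : Finset ℕ) : Prop :=
  ∃ u v, u + g₀ < v ∧ v ≤ u + g₁ + 1 ∧ IsGap M X u v

/-- some `g` consecutive sites are empty -/
def Stretch (M g : ℕ) (X : Finset ℕ) : Prop := ∃ u, u + g ≤ M ∧ Disjoint X (Ioc u (u + g))

/-- `T` misses at least `g` consecutive elements of `S` -/
def Miss (S : Finset ℕ) (g : ℕ) (T : Finset ℕ) : Prop :=
  ∃ x y, g ≤ (S ∩ Ico x y).card ∧ Disjoint T (S ∩ Ico x y)

/-- an exchangeable weight, orthogonal to the polynomials of degree at most `D` -/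
structure SigOK (τ ε : ℝ) (D g : ℕ) (s : ℕ → ℝ) : Prop where
  zero : s 0 = 1
  small : ∀ j, j ≠ 0 → |s j| ≤ ε
  orth : ∀ i ≤ D, ∑ j ∈ range (g + 1), binW g τ j * s j * (j.choose i : ℝ) = 0

/-- a weight on the subsets of `Ioo a b` which is `1` at `∅`, small elsewhere, orthogonal to the
products of at most `D` factors, and `0` at `X` if `X` has a gap with at least `g₀` elements inside
`Ioo a b` (the borders `a`, `b` count as occupied) -/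
structure PsiOK (τ ε : ℝ) (D g₀ a b : ℕ) (ψ : Finset ℕ → ℝ) : Prop where
  empty : ψ ∅ = 1
  small : ∀ X, X.Nonempty → |ψ X| ≤ ε
  orth : ∀ S ⊆ Ioo a b, S.card ≤ D → EV τ (Ioo a b) (fun X => if S ⊆ X then ψ X else 0) = 0
  kill : ∀ u v, a ≤ u → v ≤ b → u + g₀ < v → (u, v) ≠ (a, b) → ∀ X ⊆ Ioo a b,
    (u = a ∨ u ∈ X) → (v = b ∨ v ∈ X) → Disjoint X (Ioo u v) → ψ X = 0

end Pool.Agent.LibCJ
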