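import Pool.Agent.LibCJ7.BinIneq

/-!
Duality: signed weights on `1, …, g` with prescribed binomial moments.
-/

namespace Pool.Agent.LibCJ

open Finset

/-- Duality (Hahn-Banach). -/
theorem exists_weights {g D : ℕ} {K : ℝ} (μ : ℕ → ℝ)
    (h : ∀ c : ℕ → ℝ, |c 0| ≤ K * ∑ j ∈ range g, μ (j + 1) * |qv c D (j + 1)|)
    (hμ : ∀ j, 0 ≤ μ j) (hK : 0 ≤ K) :
    ∃ a : ℕ → ℝ, (∀ j, |a j| ≤ K * μ j) ∧
      ∀ i, i ≤ D → ∑ j ∈ range g, a (j + 1) * ((j + 1).choose i : ℝ) = if i = 0 then 1 else 0 := by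
  classical
  set T : (Fin (D + 1) → ℝ) →ₗ[ℝ] (Fin g → ℝ) :=
    { toFun := fun c j => ∑ i : Fin (D + 1), c i * (((j : ℕ) + 1).choose (i : ℕ) : ℝ)
      map_add' := by
        intro x y
        funext j
        simp only [Pi.add_apply, add_mul, sum_add_distrib]
      map_smul' := by
        intro r x
        funext j
        simp only [Pi.smul_apply, smul_eq_mul, RingHom.id_apply, mul_sum, mul_assoc] } with hT
  set φ : (Fin (D + 1) → ℝ) →ₗ[ℝ] ℝ := LinearMap.proj 0 with hφ
  set N : (Fin g → ℝ) → ℝ := fun x => K * ∑ j : Fin g, μ ((j : ℕ) + 1) * |x j| with hN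
  -- the bound
  have hbd : ∀ c : Fin (D + 1) → ℝ, |c 0| ≤ N (T c) := by
    intro c
    set c' : ℕ → ℝ := fun i => if hi : i < D + 1 then c ⟨i, hi⟩ else 0 with hc'
    have h1 := h c'
    have h2 : c' 0 = c 0 := by
      rw [hc']
      simp only [Nat.succ_pos, dif_pos]
      rfl
    rw [h2] at h1
    refine h1.trans (le_of_eq ?_)
    rw [hN]
    simp only
    congr 1
    rw [← Fin.sum_univ_eq_sum_range (fun j => μ (j + 1) * |qv c' D (j + 1)|) g]
    refine sum_congr rfl fun j _ => ?_
    congr 2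
    unfold qv
    rw [← Fin.sum_univ_eq_sum_range (fun i => c' i * (((j : ℕ) + 1).choose i : ℝ)) (D + 1)]
    rw [hT]
    simp only [LinearMap.coe_mk, AddHom.coe_mk]
    refine sum_congr rfl fun i _ => ?_
    rw [hc']
    simp only [Fin.is_lt, dif_pos, Fin.eta]
  have hker : LinearMap.ker T ≤ LinearMap.ker φ := by
    intro c hc
    rw [LinearMap.mem_ker] at hc ⊢
    have h1 := hbd c
    rw [hc] at h1
    have h2 : N 0 = 0 := by
      rw [hN]
      simp
    rw [h2] at h1
    have h3 : c 0 = 0 := abs_eq_zero.1 (le_antisymm h1 (abs_nonneg _))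
    rw [hφ]
    exact h3
  set f0 : LinearMap.range T →ₗ[ℝ] ℝ :=
    ((LinearMap.ker T).liftQ φ hker).comp
      (LinearMap.quotKerEquivRange T).symm.toLinearMap with hf0
  have hf0v : ∀ c, ∀ hc : T c ∈ LinearMap.range T, f0 ⟨T c, hc⟩ = c 0 := by
    intro c hc
    have h1 : (LinearMap.quotKerEquivRange T).symm ⟨T c, hc⟩ =
        (LinearMap.ker T).mkQ c := by
      rw [LinearEquiv.symm_apply_eq]
      rfl
    rw [hf0]
    simp only [LinearMap.comp_apply, LinearEquiv.coe_coe]
    rw [h1]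
    simp only [Submodule.mkQ_apply, Submodule.liftQ_apply]
    rfl
  obtain ⟨G, hG1, hG2⟩ := exists_extension_of_le_sublinear
    (⟨LinearMap.range T, f0⟩ : (Fin g → ℝ) →ₗ.[ℝ] ℝ) N
    (by
      intro r hr x
      rw [hN]
      simp only [Pi.smul_apply, smul_eq_mul, abs_mul, abs_of_pos hr]
      have h1 : ∑ j : Fin g, μ ((j : ℕ) + 1) * (r * |x j|) =
          r * ∑ j : Fin g, μ ((j : ℕ) + 1) * |x j| := by
        rw [mul_sum]
        exact sum_congr rfl fun j _ => by ring
      rw [h1]
      ring)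
    (by
      intro x y
      rw [hN]
      simp only [Pi.add_apply]
      rw [← mul_add, ← sum_add_distrib]
      refine mul_le_mul_of_nonneg_left (sum_le_sum fun j _ => ?_) hK
      rw [← mul_add]
      exact mul_le_mul_of_nonneg_left (abs_add_le _ _) (hμ _))
    (by
      rintro ⟨x, c, rfl⟩
      change f0 ⟨T c, _⟩ ≤ N (T c)
      rw [hf0v]
      exact (le_abs_self _).trans (hbd c))
  refine ⟨fun j => if hj : 1 ≤ j ∧ j ≤ g then G (Pi.single ⟨j - 1, by omega⟩ 1) else 0, ?_, ?_⟩
  · intro j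
    by_cases hj : 1 ≤ j ∧ j ≤ g
    · simp only [hj, and_self, dif_pos]
      have hNs : N (Pi.single ⟨j - 1, by omega⟩ 1) = K * μ j := by
        rw [hN]
        simp only
        rw [Fintype.sum_eq_single (⟨j - 1, by omega⟩ : Fin g)]
        · simp only [Pi.single_eq_same, abs_one, mul_one]
          congr 2
          omega
        · intro i hi
          rw [Pi.single_eq_of_ne hi]
          simp
      have hNs2 : N (-Pi.single ⟨j - 1, by omega⟩ 1) = K * μ j := by
        rw [← hNs, hN]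
        simp only [Pi.neg_apply, abs_neg]
      rw [abs_le]
      constructor
      · have h1 := hG2 (-Pi.single ⟨j - 1, by omega⟩ 1)
        rw [map_neg, hNs2] at h1
        linarith
      · exact (hG2 _).trans hNs.le
    · simp only [hj, dif_neg, not_false_eq_true, abs_zero]
      exact mul_nonneg hK (hμ j)
  · intro i hi
    set e : Fin (D + 1) → ℝ := Pi.single ⟨i, Nat.lt_succ_of_le hi⟩ 1 with he
    have h1 := hG1 ⟨T e, e, rfl⟩
    have h2 : f0 ⟨T e, e, rfl⟩ = e 0 := hf0v e ⟨e, rfl⟩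
    have h3 : G (T e) = e 0 := h1.trans h2
    have h4 : T e = ∑ j : Fin g, (((j : ℕ) + 1).choose i : ℝ) • Pi.single j (1 : ℝ) := by
      funext j
      rw [Finset.sum_apply, Fintype.sum_eq_single j]
      · simp only [Pi.smul_apply, Pi.single_eq_same, smul_eq_mul, mul_one]
        rw [hT]
        simp only [LinearMap.coe_mk, AddHom.coe_mk]
        rw [Fintype.sum_eq_single (⟨i, Nat.lt_succ_of_le hi⟩ : Fin (D + 1))]
        · rw [he, Pi.single_eq_same, one_mul]
        · intro k hk
          rw [he, Pi.single_eq_of_ne hk, zero_mul]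
      · intro k hk
        simp only [Pi.smul_apply, smul_eq_mul]
        rw [Pi.single_eq_of_ne hk.symm, mul_zero]
    rw [h4, map_sum] at h3
    have h5 : e 0 = if i = 0 then 1 else 0 := by
      rw [he]
      by_cases hi0 : i = 0
      · subst hi0
        simp only [if_true]
        have : (⟨0, Nat.lt_succ_of_le hi⟩ : Fin (D + 1)) = 0 := rfl
        rw [this, Pi.single_eq_same]
      · rw [if_neg hi0, Pi.single_eq_of_ne]
        intro h6
        apply hi0
        have := congrArg Fin.val h6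
        simpa using this.symm
    rw [h5] at h3
    rw [← h3, ← Fin.sum_univ_eq_sum_range (fun j => (if hj : 1 ≤ j + 1 ∧ j + 1 ≤ g then
      G (Pi.single ⟨j + 1 - 1, by omega⟩ 1) else 0) * ((j + 1).choose i : ℝ)) g]
    refine sum_congr rfl fun j _ => ?_
    have hj : 1 ≤ (j : ℕ) + 1 ∧ (j : ℕ) + 1 ≤ g := ⟨by omega, by omega⟩
    rw [dif_pos hj, map_smul, smul_eq_mul, mul_comm]
    congr 3

end Pool.Agent.LibCJ
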