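import Pool.Agent.LibCJ7.Range

/-!
The densities `flat` and `dens`.
-/

namespace Pool.Agent.LibCJ

open Finset Filter Topology Pool.Agent.LibCramer Pool.Agent.LibBar93

lemma lvl_dyad (W : ℕ → ℕ) {E : ℕ → ℝ} (hE : ∀ j, 0 < E j) (ε : ℝ) (hε : 0 < ε) :
    ∀ᶠ j : ℕ in atTop, ∃ τ : ℝ, 0 < τ ∧ ∀ n ∈ Ioc (aj j) (aj (j + 1)), lvl W E n = 0 ∨
      (τ ≤ lvl W E n ∧ lvl W E n ≤ (1 + ε) * τ) := by
  filter_upwards [log_upper hε, tendsto_Lj.eventually_gt_atTop 0] with j h1 hL
  have hu := h1 (aj (j + 1)) (aj_mono (Nat.le_succ j)) le_rfl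
  set U := Real.log (aj (j + 1) : ℝ) with hU
  have hU0 : 0 < U := hL.trans_le hu.1
  have hEj := inv_pos.2 (hE j)
  refine ⟨(E j)⁻¹ / U, by positivity, fun n hn => ?_⟩
  obtain ⟨hn1, hn2⟩ := mem_Ioc.1 hn
  have hlog : Nat.log 2 n = j := (mem_range_iff (by omega)).1 hn
  unfold lvl
  rw [hlog]
  split_ifs with hc
  · right
    obtain ⟨a1, a2⟩ := h1 n hn1.le hn2
    have hn0 : 0 < Real.log (n : ℝ) := hL.trans_le a1
    have hnU : Real.log (n : ℝ) ≤ U := by
      rw [hU]
      exact Real.log_le_log (by exact_mod_cast (by omega : 0 < n)) (by exact_mod_cast hn2)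
    constructor
    · gcongr
    · rw [div_le_iff₀ hn0]
      have h2 : U ≤ (1 + ε) * Real.log (n : ℝ) := hu.2.trans (by gcongr)
      calc (E j)⁻¹ = (E j)⁻¹ / U * U := by field_simp
        _ ≤ (E j)⁻¹ / U * ((1 + ε) * Real.log (n : ℝ)) := by gcongr
        _ = (1 + ε) * ((E j)⁻¹ / U) * Real.log (n : ℝ) := by ring
  · left
    rfl

theorem flat_dyad : GoodDyad flat where
  toGoodWeight := flat_good
  dyad := by
    have e : flat = lvl (fun _ => 1) (fun _ => 1) := by
      funext n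
      unfold flat lvl
      simp
    rw [e]
    exact lvl_dyad _ fun _ => one_pos

theorem dens_dyad : GoodDyad dens where
  toGoodWeight := dens_good
  dyad := by
    have e : dens = lvl (fun j => primorial (Nat.log 2 j / 4)) (fun j => euler (Nat.log 2 j / 4)) := by
      funext n
      rfl
    rw [e]
    exact lvl_dyad _ fun _ => euler_pos _

end Pool.Agent.LibCJ
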