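import Pool.Agent.LibCJ7.Defs

/-!
ROW [CJ EV]. Lemmas on product weights.
-/

namespace Pool.Agent.LibCJ

open Finset

lemma EV_add (τ : ℝ) (V : Finset ℕ) (F G : Finset ℕ → ℝ) :
    EV τ V (fun X => F X + G X) = EV τ V F + EV τ V G := by
  unfold EV
  rw [← sum_add_distrib]
  exact sum_congr rfl fun X _ => by ring

lemma EV_sub (τ : ℝ) (V : Finset ℕ) (F G : Finset ℕ → ℝ) :
    EV τ V (fun X => F X - G X) = EV τ V F - EV τ V G := by
  unfold EV
  rw [← sum_sub_distrib]
  exact sum_congr rfl fun X _ => by ring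

lemma EV_const_mul (τ c : ℝ) (V : Finset ℕ) (F : Finset ℕ → ℝ) :
    EV τ V (fun X => c * F X) = c * EV τ V F := by
  unfold EV
  rw [mul_sum]
  exact sum_congr rfl fun X _ => by ring

lemma EV_sum {ι : Type*} (τ : ℝ) (V : Finset ℕ) (I : Finset ι) (F : ι → Finset ℕ → ℝ) :
    EV τ V (fun X => ∑ i ∈ I, F i X) = ∑ i ∈ I, EV τ V (F i) := by
  unfold EV
  rw [sum_comm]
  exact sum_congr rfl fun X _ => by rw [mul_sum]

lemma EV_congr {τ : ℝ} {V : Finset ℕ} {F G : Finset ℕ → ℝ} (h : ∀ X ⊆ V, F X = G X) :
    EV τ V F = EV τ V G := by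
  unfold EV
  exact sum_congr rfl fun X hX => by rw [h X (mem_powerset.1 hX)]

lemma EV_union (τ : ℝ) {U V : Finset ℕ} (h : Disjoint U V) (F : Finset ℕ → ℝ) :
    EV τ (U ∪ V) F = EV τ U (fun A => EV τ V (fun B => F (A ∪ B))) := by
  unfold EV
  have e : ∑ A ∈ U.powerset, pw τ U A * ∑ B ∈ V.powerset, pw τ V B * F (A ∪ B) =
      ∑ p ∈ U.powerset ×ˢ V.powerset, pw τ U p.1 * (pw τ V p.2 * F (p.1 ∪ p.2)) := by
    rw [sum_product]
    exact sum_congr rfl fun A _ => by rw [mul_sum]
  rw [e]
  refine sum_nbij' (fun X => (X ∩ U, X ∩ V)) (fun p => p.1 ∪ p.2) ?_ ?_ ?_ ?_ ?_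
  · intro X hX
    exact mem_product.2 ⟨mem_powerset.2 inter_subset_right, mem_powerset.2 inter_subset_right⟩
  · intro p hp
    obtain ⟨h1, h2⟩ := mem_product.1 hp
    exact mem_powerset.2 (union_subset_union (mem_powerset.1 h1) (mem_powerset.1 h2))
  · intro X hX
    have hX' := mem_powerset.1 hX
    simp only
    rw [← inter_union_distrib_left]
    exact inter_eq_left.2 hX'
  · intro p hp
    obtain ⟨h1, h2⟩ := mem_product.1 hp
    have h1' := mem_powerset.1 h1
    have h2' := mem_powerset.1 h2
    have a1 : p.2 ∩ U = ∅ := by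
      rw [← disjoint_iff_inter_eq_empty]
      exact (h.symm).mono_left h2'
    have a2 : p.1 ∩ V = ∅ := by
      rw [← disjoint_iff_inter_eq_empty]
      exact h.mono_left h1'
    ext1
    · simp only
      rw [union_inter_distrib_right, a1, union_empty]
      exact inter_eq_left.2 h1'
    · simp only
      rw [union_inter_distrib_right, a2, empty_union]
      exact inter_eq_left.2 h2'
  · intro X hX
    have hX' := mem_powerset.1 hX
    simp only
    have e1 : X ∩ U ∪ X ∩ V = X := by
      rw [← inter_union_distrib_left]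
      exact inter_eq_left.2 hX'
    rw [e1, ← mul_assoc]
    congr 1
    unfold pw
    have d1 : Disjoint (X ∩ U) (X ∩ V) := h.mono inter_subset_right inter_subset_right
    have c1 : X.card = (X ∩ U).card + (X ∩ V).card := by
      rw [← card_union_of_disjoint d1, e1]
    have e2 : (U ∪ V) \ X = U \ (X ∩ U) ∪ V \ (X ∩ V) := by
      ext x
      simp only [mem_sdiff, mem_union, mem_inter, not_and]
      tauto
    have d2 : Disjoint (U \ (X ∩ U)) (V \ (X ∩ V)) := h.mono sdiff_subset sdiff_subset
    have c2 : ((U ∪ V) \ X).card = (U \ (X ∩ U)).card + (V \ (X ∩ V)).card := by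
      rw [e2, card_union_of_disjoint d2]
    rw [c1, c2, pow_add, pow_add]
    ring

/-- functions of the two parts are independent -/
lemma EV_split (τ : ℝ) {U V : Finset ℕ} (h : Disjoint U V) (f g : Finset ℕ → ℝ) :
    EV τ (U ∪ V) (fun X => f (X ∩ U) * g (X ∩ V)) = EV τ U f * EV τ V g := by
  rw [EV_union τ h]
  have e : ∀ A ⊆ U, EV τ V (fun B => f ((A ∪ B) ∩ U) * g ((A ∪ B) ∩ V)) = EV τ V g * f A := by
    intro A hA
    have : ∀ B ⊆ V, f ((A ∪ B) ∩ U) * g ((A ∪ B) ∩ V) = f A * g B := by
      intro B hB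
      have a1 : B ∩ U = ∅ := by
        rw [← disjoint_iff_inter_eq_empty]
        exact (h.symm).mono_left hB
      have a2 : A ∩ V = ∅ := by
        rw [← disjoint_iff_inter_eq_empty]
        exact h.mono_left hA
      rw [union_inter_distrib_right, a1, union_empty, inter_eq_left.2 hA,
        union_inter_distrib_right, a2, empty_union, inter_eq_left.2 hB]
    rw [EV_congr this, EV_const_mul, mul_comm]
  rw [EV_congr e, EV_const_mul, mul_comm]

lemma EV_one (τ : ℝ) (V : Finset ℕ) : EV τ V (fun _ => 1) = 1 := by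
  unfold EV pw
  have h1 : ∀ X ∈ V.powerset, τ ^ X.card * (1 - τ) ^ (V \ X).card * 1 =
      τ ^ X.card * (1 - τ) ^ (V.card - X.card) := by
    intro X hX
    rw [card_sdiff_of_subset (mem_powerset.1 hX), mul_one]
  rw [sum_congr rfl h1, Finset.sum_pow_mul_eq_add_pow]
  ring_nf

/-- functions of one part -/
lemma EV_part (τ : ℝ) {U V : Finset ℕ} (h : U ⊆ V) (f : Finset ℕ → ℝ) :
    EV τ V (fun X => f (X ∩ U)) = EV τ U f := by
  have hV : V = U ∪ V \ U := (union_sdiff_of_subset h).symm
  have hd : Disjoint U (V \ U) := disjoint_sdiff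
  have := EV_split τ hd f (fun _ => 1)
  rw [← hV, EV_one, mul_one] at this
  rw [← this]
  exact EV_congr fun X _ => (mul_one _).symm

lemma EV_incl (τ : ℝ) {V S : Finset ℕ} (hS : S ⊆ V) :
    EV τ V (fun X => if S ⊆ X then 1 else 0) = τ ^ S.card := by
  have e1 : EV τ V (fun X => if S ⊆ X then 1 else 0) =
      EV τ V (fun X => (fun A => if S ⊆ A then (1:ℝ) else 0) (X ∩ S)) := by
    refine EV_congr fun X hX => ?_
    have : S ⊆ X ↔ S ⊆ X ∩ S := ⟨fun h => subset_inter h Subset.rfl, fun h => h.trans inter_subset_left⟩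
    simp only [this]
  rw [e1, EV_part τ hS (fun A => if S ⊆ A then (1:ℝ) else 0)]
  unfold EV
  rw [sum_eq_single S]
  · simp [pw]
  · intro X hX hne
    have : ¬ S ⊆ X := fun h => hne (Subset.antisymm (mem_powerset.1 hX) h)
    simp [this]
  · intro h
    exact absurd (mem_powerset.2 Subset.rfl) h

lemma EV_exch {τ : ℝ} {V S : Finset ℕ} (hS : S ⊆ V) {h : ℕ → ℝ}
    (h0 : ∑ j ∈ range (V.card + 1), binW V.card τ j * h j * (j.choose S.card : ℝ) = 0) :
    EV τ V (fun X => if S ⊆ X then h X.card else 0) = 0 := by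
  have hV : V = S ∪ V \ S := (union_sdiff_of_subset hS).symm
  have hd : Disjoint S (V \ S) := disjoint_sdiff
  have hc : (V \ S).card = V.card - S.card := card_sdiff_of_subset hS
  have hle : S.card ≤ V.card := card_le_card hS
  -- only `A = S` contributes
  have e1 : EV τ V (fun X => if S ⊆ X then h X.card else 0) =
      τ ^ S.card * ∑ i ∈ range (V.card - S.card + 1),
        ((V.card - S.card).choose i : ℝ) * (τ ^ i * (1 - τ) ^ (V.card - S.card - i) * h (S.card + i)) := by
    conv_lhs => rw [hV]
    rw [EV_union τ hd]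
    unfold EV
    rw [sum_eq_single S]
    · have : pw τ S S = τ ^ S.card := by simp [pw]
      rw [this]
      congr 1
      have h1 : ∀ B ∈ (V \ S).powerset, pw τ (V \ S) B * (if S ⊆ S ∪ B then h (S ∪ B).card else 0) =
          (fun i => τ ^ i * (1 - τ) ^ (V.card - S.card - i) * h (S.card + i)) B.card := by
        intro B hB
        have hB' := mem_powerset.1 hB
        have hdB : Disjoint S B := hd.mono_right hB'
        rw [if_pos subset_union_left, card_union_of_disjoint hdB]
        unfold pw
        rw [card_sdiff_of_subset hB', hc]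
      beta_reduce
      rw [sum_congr rfl h1, sum_powerset_apply_card
        (fun i => τ ^ i * (1 - τ) ^ (V.card - S.card - i) * h (S.card + i)), hc]
      exact sum_congr rfl fun i _ => by rw [nsmul_eq_mul]
    · intro A hA hne
      have hA' := mem_powerset.1 hA
      have : ∀ B ⊆ V \ S, ¬ S ⊆ A ∪ B := by
        intro B hB hSB
        apply hne
        refine Subset.antisymm hA' fun x hx => ?_
        rcases mem_union.1 (hSB hx) with h1 | h1
        · exact h1
        · exact absurd hx (mem_sdiff.1 (hB h1)).2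
      have h2 : ∑ X ∈ (V \ S).powerset, pw τ (V \ S) X * (if S ⊆ A ∪ X then h (A ∪ X).card else 0) = 0 := by
        refine sum_eq_zero fun B hB => ?_
        rw [if_neg (this B (mem_powerset.1 hB)), mul_zero]
      beta_reduce
      rw [h2, mul_zero]
    · intro h1
      exact absurd (mem_powerset.2 Subset.rfl) h1
  -- the sum in the hypothesis
  have e2 : ∑ j ∈ range (V.card + 1), binW V.card τ j * h j * (j.choose S.card : ℝ) =
      (V.card.choose S.card : ℝ) * (τ ^ S.card * ∑ i ∈ range (V.card - S.card + 1),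
        ((V.card - S.card).choose i : ℝ) * (τ ^ i * (1 - τ) ^ (V.card - S.card - i) * h (S.card + i))) := by
    have h1 : ∑ j ∈ range (V.card + 1), binW V.card τ j * h j * (j.choose S.card : ℝ) =
        ∑ j ∈ Ico S.card (V.card + 1), binW V.card τ j * h j * (j.choose S.card : ℝ) := by
      symm
      refine sum_subset (fun x hx => by rw [mem_Ico] at hx; exact mem_range.2 hx.2) ?_
      intro x hx1 hx2
      have hx3 : x < S.card := by
        by_contra h3
        exact hx2 (mem_Ico.2 ⟨not_lt.1 h3, mem_range.1 hx1⟩)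
      rw [Nat.choose_eq_zero_of_lt hx3]
      simp
    rw [h1, Finset.sum_Ico_eq_sum_range]
    have h2 : V.card + 1 - S.card = V.card - S.card + 1 := by omega
    rw [h2, mul_sum, mul_sum]
    refine sum_congr rfl fun i hi => ?_
    have hi' : i ≤ V.card - S.card := Nat.lt_succ_iff.1 (mem_range.1 hi)
    have h3 : V.card.choose (S.card + i) * (S.card + i).choose S.card =
        V.card.choose S.card * (V.card - S.card).choose i := by
      have := Nat.choose_mul (n := V.card) (k := S.card + i) (s := S.card) (by omega)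
      rw [this]
      congr 2
      omega
    have h4 : (V.card.choose (S.card + i) : ℝ) * ((S.card + i).choose S.card : ℝ) =
        (V.card.choose S.card : ℝ) * ((V.card - S.card).choose i : ℝ) := by exact_mod_cast h3
    have h5 : V.card - (S.card + i) = V.card - S.card - i := by omega
    unfold binW
    rw [h5, pow_add]
    linear_combination (τ ^ S.card * τ ^ i * (1 - τ) ^ (V.card - S.card - i) * h (S.card + i)) * h4
  rw [e2] at h0
  have h6 : (V.card.choose S.card : ℝ) ≠ 0 := by
    exact_mod_cast (Nat.choose_pos hle).ne'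
  rw [e1]
  exact (mul_eq_zero.1 h0).resolve_left h6

end Pool.Agent.LibCJ
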