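import Pool.Agent.LibCJ7.Range

/-!
The order of the product rule in a range.
-/

namespace Pool.Agent.LibCJ

open Finset Filter Topology Pool.Agent.LibCramer

/-- the order of the product rule in a range -/
noncomputable def Kj (t : ℝ) (j : ℕ) : ℕ := ⌊t * Real.log (aj (j + 1) : ℝ)⌋₊ + 1

lemma Kj_bounds {t δ : ℝ} (ht : 0 < t) (hδ : 0 < δ) : ∀ᶠ j in atTop,
    t * Lj j ≤ Kj t j ∧ (Kj t j : ℝ) ≤ (t + δ) * Lj j := by
  filter_upwards [tendsto_Lj.eventually_ge_atTop ((2 * t + 1) / δ), eventually_ge_atTop 1] with j h1 h2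
  have h3 : 1 ≤ aj j := h2.trans (le_aj j)
  have h4 : (0 : ℝ) < aj j := by exact_mod_cast h3
  have h5 : Lj j ≤ Real.log (aj (j + 1) : ℝ) :=
    Real.log_le_log h4 (by exact_mod_cast aj_mono (Nat.le_succ j))
  have h6 := log_aj_succ h2
  have h7 : 0 ≤ Real.log (aj (j + 1) : ℝ) := Real.log_natCast_nonneg _
  rw [div_le_iff₀ hδ] at h1
  unfold Kj
  push_cast
  constructor
  · have h8 := Nat.lt_floor_add_one (t * Real.log (aj (j + 1) : ℝ))
    have h9 : t * Lj j ≤ t * Real.log (aj (j + 1) : ℝ) := by gcongr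
    linarith
  · have h8 := Nat.floor_le (mul_nonneg ht.le h7)
    have h9 : t * Real.log (aj (j + 1) : ℝ) ≤ t * (Lj j + 2) := by gcongr
    nlinarith

/-- the orders `K j` of the product rule in the ranges grow like `t Lj` -/
def KOK (t : ℝ) (K : ℕ → ℕ) : Prop :=
  ∀ δ : ℝ, 0 < δ → ∀ᶠ j in atTop, t * Lj j ≤ K j ∧ (K j : ℝ) ≤ (t + δ) * Lj j

lemma tendsto_small {κ A : ℝ} (hκ : 0 < κ) : Tendsto (fun L : ℝ =>
    100 * Real.exp (-(κ * L)) * (A * L ^ 2 + 2) ^ 4) atTop (𝓝 0) := by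
  have h1 : ∀ k : ℕ, Tendsto (fun L : ℝ => L ^ k * Real.exp (-(κ * L))) atTop (𝓝 0) := by
    intro k
    have h2 := Real.tendsto_pow_mul_exp_neg_atTop_nhds_zero k
    have h3 : Tendsto (fun L : ℝ => κ * L) atTop atTop := tendsto_id.const_mul_atTop hκ
    have h4 := (h2.comp h3).const_mul ((κ ^ k)⁻¹)
    rw [mul_zero] at h4
    refine h4.congr fun L => ?_
    simp only [Function.comp]
    rw [mul_pow]
    field_simp
  have e : (fun L : ℝ => 100 * Real.exp (-(κ * L)) * (A * L ^ 2 + 2) ^ 4) = fun L =>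
      100 * (A ^ 4 * (L ^ 8 * Real.exp (-(κ * L))) + 8 * A ^ 3 * (L ^ 6 * Real.exp (-(κ * L))) +
        24 * A ^ 2 * (L ^ 4 * Real.exp (-(κ * L))) + 32 * A * (L ^ 2 * Real.exp (-(κ * L))) +
        16 * (L ^ 0 * Real.exp (-(κ * L)))) := by
    funext L
    ring
  rw [e]
  have h := ((((((h1 8).const_mul (A ^ 4)).add ((h1 6).const_mul (8 * A ^ 3))).add
    ((h1 4).const_mul (24 * A ^ 2))).add ((h1 2).const_mul (32 * A))).add
    ((h1 0).const_mul 16)).const_mul 100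
  simpa using h

lemma Lj_lower : ∀ᶠ j : ℕ in atTop, (j : ℝ) / 4 ≤ Lj j := by
  filter_upwards [eventually_ge_atTop 4] with j hj
  have hj' : (4 : ℝ) ≤ j := by exact_mod_cast hj
  have h1 : (2 : ℝ) ^ (j - 1) ≤ aj j := by
    have h2 : 2 ^ (j - 1) ≤ aj j := by
      unfold aj
      obtain ⟨i, rfl⟩ : ∃ i, j = i + 1 := ⟨j - 1, by omega⟩
      have : 1 ≤ 2 ^ i := Nat.one_le_two_pow
      rw [Nat.add_sub_cancel, pow_succ]
      omega
    exact_mod_cast h2
  have h3 : Real.log ((2 : ℝ) ^ (j - 1)) ≤ Lj j := Real.log_le_log (by positivity) h1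
  rw [Real.log_pow, Nat.cast_sub (by omega)] at h3
  have h4 := Real.log_two_gt_d9
  push_cast at h3
  nlinarith

lemma exp_small {κ : ℝ} (hκ : 0 < κ) {c : ℝ} (hc : 0 < c) :
    ∀ᶠ j : ℕ in atTop, Real.exp (-(κ * Lj j)) ≤ c / ((j : ℝ) + 1) ^ 2 := by
  have h1 : Tendsto (fun x : ℝ => (x + 1) ^ 2 * Real.exp (-(κ * (x / 4)))) atTop (𝓝 0) := by
    have h2 : ∀ k : ℕ, Tendsto (fun L : ℝ => L ^ k * Real.exp (-(κ * (L / 4)))) atTop (𝓝 0) := by
      intro k
      have h2 := Real.tendsto_pow_mul_exp_neg_atTop_nhds_zero k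
      have h3 : Tendsto (fun L : ℝ => κ / 4 * L) atTop atTop :=
        tendsto_id.const_mul_atTop (by positivity)
      have h4 := (h2.comp h3).const_mul (((κ / 4) ^ k)⁻¹)
      rw [mul_zero] at h4
      refine h4.congr fun L => ?_
      simp only [Function.comp]
      rw [mul_pow, show κ * (L / 4) = κ / 4 * L by ring]
      field_simp
    have h := ((h2 2).add ((h2 1).const_mul 2)).add (h2 0)
    simp only [mul_zero, add_zero] at h
    refine h.congr fun x => ?_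
    ring
  have h2 := (h1.comp (tendsto_natCast_atTop_atTop (R := ℝ))).eventually (gt_mem_nhds hc)
  filter_upwards [h2, Lj_lower] with j hj hL
  simp only [Function.comp] at hj
  have hj0 : (0 : ℝ) ≤ j := Nat.cast_nonneg j
  rw [le_div_iff₀ (by positivity)]
  have h3 : Real.exp (-(κ * Lj j)) ≤ Real.exp (-(κ * ((j : ℝ) / 4))) := by
    apply Real.exp_le_exp.2
    have := mul_le_mul_of_nonneg_left hL hκ.le
    linarith
  calc Real.exp (-(κ * Lj j)) * ((j : ℝ) + 1) ^ 2 ≤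
      Real.exp (-(κ * ((j : ℝ) / 4))) * ((j : ℝ) + 1) ^ 2 := by gcongr
    _ ≤ c := by
      rw [mul_comm]
      exact hj.le

end Pool.Agent.LibCJ
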