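import Pool.Agent.LibCJ7.FinLaw
import Pool.Agent.LibCJ7.Order

/-!
The killed law of a range exists.
-/

namespace Pool.Agent.LibCJ

open Finset Filter Topology Pool.Agent.LibCramer
open Pool.Agent.LibCramer.LowerTail (tendsto_logn factorial_le tendsto_log_add_len_div tendsto_len_div
  log_choose_ge)

lemma choose_ge_pow {g r : ℕ} (hr : 1 ≤ r) (hrg : 2 * r ≤ g) :
    ((g : ℝ) / (2 * r)) ^ r ≤ (g.choose r : ℝ) := by
  have hr0 : (0 : ℝ) < r := by exact_mod_cast hr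
  have h1 : (g + 1 - r) ^ r ≤ g.descFactorial r := Nat.pow_sub_le_descFactorial g r
  rw [Nat.descFactorial_eq_factorial_mul_choose] at h1
  have h2 : r.factorial ≤ r ^ r := Nat.factorial_le_pow r
  have h3 : ((g : ℝ) / 2) ^ r ≤ (r : ℝ) ^ r * (g.choose r : ℝ) := by
    have h4 : ((g : ℝ) / 2) ^ r ≤ ((g + 1 - r : ℕ) : ℝ) ^ r := by
      apply pow_le_pow_left₀ (by positivity)
      rw [Nat.cast_sub (by omega)]
      push_cast
      have : (2 * (r : ℝ)) ≤ g := by exact_mod_cast hrg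
      linarith
    have h5 : ((g + 1 - r : ℕ) : ℝ) ^ r ≤ (r.factorial : ℝ) * (g.choose r : ℝ) := by exact_mod_cast h1
    have h6 : (r.factorial : ℝ) * (g.choose r : ℝ) ≤ (r : ℝ) ^ r * (g.choose r : ℝ) := by
      apply mul_le_mul_of_nonneg_right _ (Nat.cast_nonneg _)
      exact_mod_cast h2
    linarith
  have h7 : ((g : ℝ) / (2 * r)) ^ r = ((g : ℝ) / 2) ^ r / (r : ℝ) ^ r := by
    rw [← div_pow]
    congr 1
    field_simp
  rw [h7, div_le_iff₀ (by positivity)]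
  linarith

open Classical in
/-- **the killed law of a range** -/
theorem kill_law {p : ℕ → ℝ} (hp : GoodDyad p) {t l : ℝ} {K : ℕ → ℕ} (hKK : KOK t K) (ht : 0 < t)
    (hl : t / 4 < l) :
    ∀ᶠ j in atTop, ∃ g : ℕ, (∀ e, aj j ≤ e → e ≤ aj (j + 1) → ∃ w : Finset ℕ → ℝ,
      BLaw (sp p e (aj (j + 1))) p (K j) w ∧
      ∑ T ∈ (sp p e (aj (j + 1))).powerset with Miss (sp p e (aj (j + 1))) g T, w T ≤
        1 / ((j : ℝ) + 1) ^ 2) ∧
      ∀ x, aj j ≤ x → x + len l x ≤ aj (j + 1) → g ≤ (sp p x (x + len l x)).card := by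
  have hl0 : 0 < l := lt_trans (by positivity) hl
  set l₁ : ℝ := (l + t / 4) / 2 with hl₁
  have hl₁t : t / 4 < l₁ := by rw [hl₁]; linarith
  have hl₁l : l₁ < l := by rw [hl₁]; linarith
  have hl₁0 : 0 < l₁ := lt_trans (by positivity) hl₁t
  set A : ℝ := l + 4 + 4 * (t + 1) * Real.exp (8 / t) with hA
  have hAbig : 4 * (t + 1) * Real.exp (8 / t) + 4 + l = A := by rw [hA]; ring
  have hexp1 : 1 < Real.exp (8 / t) := Real.one_lt_exp_iff.2 (by positivity)
  obtain ⟨κ, δ, b, hκ, hδ0, hδ8, hb, hnum⟩ := kill_num (A := A) ht hl₁t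
  -- a small ratio
  obtain ⟨δ₂, hδ₂0, hδ₂δ, hδ₂1, hδ₂2⟩ : ∃ δ₂ : ℝ, 0 < δ₂ ∧ δ₂ ≤ δ ∧ δ₂ * (t + 1) ≤ l₁ ∧
      l₁ + δ₂ < (l - δ₂) / (1 + δ₂) := by
    have hc : ContinuousAt (fun x : ℝ => (l - x) / (1 + x) - x) 0 := by
      apply ContinuousAt.sub _ continuousAt_id
      apply ContinuousAt.div (by fun_prop) (by fun_prop)
      norm_num
    have h0 : l₁ < (fun x : ℝ => (l - x) / (1 + x) - x) 0 := by norm_num; exact hl₁l
    have h1 := hc.eventually (lt_mem_nhds h0)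
    have h2 := h1.filter_mono (nhdsWithin_le_nhds (s := Set.Ioi (0 : ℝ)))
    have h3 : ∀ᶠ x : ℝ in 𝓝[>] 0, x < δ :=
      (eventually_lt_nhds hδ0).filter_mono nhdsWithin_le_nhds
    have h4 : ∀ᶠ x : ℝ in 𝓝[>] 0, 0 < x := eventually_mem_nhdsWithin
    have h5 : ∀ᶠ x : ℝ in 𝓝[>] 0, x < l₁ / (t + 1) :=
      (eventually_lt_nhds (by positivity)).filter_mono nhdsWithin_le_nhds
    obtain ⟨x, a1, a2, a3, a4⟩ := (h2.and (h3.and (h4.and h5))).exists
    refine ⟨x, a3, a2.le, ?_, by linarith⟩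
    rw [lt_div_iff₀ (by positivity)] at a4
    exact a4.le
  have hδ₂8 : δ₂ ≤ 1 / 8 := hδ₂δ.trans hδ8
  have hsm := (tendsto_small (A := 4 * A) hκ).eventually (gt_mem_nhds (one_pos (α := ℝ)))
  filter_upwards [hp.params hδ₂0 (hδ₂8.trans (by norm_num)), win_sum hp.toGoodWeight hl0 hδ₂0,
    hKK δ hδ0, tendsto_Lj.eventually hsm, tendsto_Lj.eventually_ge_atTop (1 / δ),
    tendsto_Lj.eventually_ge_atTop (4 / t), tendsto_Lj.eventually_ge_atTop 4,
    exp_small (half_pos hκ) (c := 1 / 4) (by norm_num), exp_small one_pos (c := 1 / 8) (by norm_num),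
    eventually_ge_atTop 2]
    with j hpar hwin hK hsm hL1 hL2 hL3 hE1 hE2 hj2
  obtain ⟨τ, hτ0, hτδ, hτL, hτc, hpδ⟩ := hpar
  set L := Lj j with hLdef
  have hL0 : 0 < L := by linarith
  have hδL : 1 ≤ δ * L := by
    rw [div_le_iff₀ hδ0] at hL1
    linarith
  have htL : 4 ≤ t * L := by
    rw [div_le_iff₀ ht] at hL2
    linarith
  have hτ8 : τ ≤ 1 / 8 := hτδ.trans hδ₂8
  have hτ1 : τ < 1 := by linarith
  -- the parameters
  set g₀ := ⌈l₁ * L / τ⌉₊ with hg₀
  set g₁ := ⌊A * L / τ⌋₊ with hg₁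
  set D := K j / 2 with hD
  have hq0 : 0 < l₁ * L / τ := by positivity
  have hg₀1 : 1 ≤ g₀ := Nat.one_le_ceil_iff.2 hq0
  have hg₀le : l₁ * L / τ ≤ g₀ := Nat.le_ceil _
  have hg₀lt : (g₀ : ℝ) < l₁ * L / τ + 1 := Nat.ceil_lt_add_one hq0.le
  have hAl : l₁ + 1 ≤ A := by
    have : 0 < 4 * (t + 1) * Real.exp (8 / t) := by positivity
    linarith
  have hA0 : 0 < A := by linarith
  have hg₁le : (g₁ : ℝ) ≤ A * L / τ := Nat.floor_le (by positivity)
  have hg₁lt : A * L / τ < g₁ + 1 := Nat.lt_floor_add_one _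
  have hgg : g₀ ≤ g₁ := by
    have h1 : (g₀ : ℝ) < g₁ + 1 := by
      have h2 : l₁ * L / τ + 1 ≤ A * L / τ := by
        rw [div_add_one hτ0.ne']
        apply div_le_div_of_nonneg_right _ hτ0.le
        have h3 := mul_le_mul_of_nonneg_right hAl hL0.le
        linarith
      linarith
    have h3 : g₀ < g₁ + 1 := by exact_mod_cast h1
    omega
  have hDle : (D : ℝ) ≤ (t / 2 + δ) * L := by
    have h1 : (D : ℝ) ≤ (K j : ℝ) / 2 := Nat.cast_div_le
    have h2 := hK.2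
    have h3 : 0 ≤ δ * L := by linarith
    linarith
  have hDge : t * L / 4 ≤ D := by
    have h1 : K j ≤ 2 * D + 1 := by rw [hD]; omega
    have h2 : (K j : ℝ) ≤ 2 * D + 1 := by exact_mod_cast h1
    have h3 := hK.1
    linarith
  have hD1 : 1 ≤ D := by
    have h1 : (1 : ℝ) ≤ D := by linarith
    exact_mod_cast h1
  have hDtL : (D : ℝ) ≤ (t + 1) * L :=
    hDle.trans (mul_le_mul_of_nonneg_right (by linarith) hL0.le)
  have hg₁τ : (g₁ : ℝ) * τ ≤ A * L := by
    calc (g₁ : ℝ) * τ ≤ A * L / τ * τ := by gcongr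
      _ = A * L := by field_simp
  have hg₁τ' : (A - 1) * L ≤ g₁ * τ := by
    have h1 : A * L < (g₁ + 1) * τ := by
      rwa [div_lt_iff₀ hτ0] at hg₁lt
    linarith
  have hDg₁ : 2 * D ≤ g₁ := by
    have h1 : (2 * (D : ℝ)) * τ ≤ g₁ * τ := by
      calc (2 * (D : ℝ)) * τ ≤ 2 * ((t + 1) * L) * (1 / 8) := by gcongr
        _ ≤ (A - 1) * L := by
          have h3 : (t + 1) * 1 ≤ (t + 1) * Real.exp (8 / t) := by gcongr
          have h4 : (t + 1) / 4 ≤ A - 1 := by linarith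
          have h5 := mul_le_mul_of_nonneg_right h4 hL0.le
          linarith
        _ ≤ g₁ * τ := hg₁τ'
    have h2 := le_of_mul_le_mul_right h1 hτ0
    exact_mod_cast h2
  -- the weights
  have hσ : ∀ g, g₀ ≤ g → g ≤ g₁ → ∃ s, SigOK τ (Real.exp (-(κ * L))) D g s := by
    intro g h1 h2
    have h3 : l₁ * L ≤ g * τ := by
      have h4 : (g₀ : ℝ) ≤ g := by exact_mod_cast h1
      calc l₁ * L = l₁ * L / τ * τ := by field_simp
        _ ≤ g * τ := by gcongr; linarith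
    have h4 : (g : ℝ) * τ ≤ A * L := by
      have : (g : ℝ) ≤ g₁ := by exact_mod_cast h2
      calc (g : ℝ) * τ ≤ g₁ * τ := by gcongr
        _ ≤ A * L := hg₁τ
    have h5 := hnum L τ g D hL0.le hδL hτ0 (hτδ.trans hδ₂δ) h3 h4 hDle
    obtain ⟨o1, o2, o3⟩ := odds_bound hτ0 hτδ hδ₂8
    have h6 : D ≤ g := by
      have h7 : (D : ℝ) * τ ≤ g * τ := by
        calc (D : ℝ) * τ ≤ ((t + 1) * L) * δ₂ := by gcongr
          _ = (δ₂ * (t + 1)) * L := by ring
          _ ≤ l₁ * L := by gcongr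
          _ ≤ g * τ := h3
      have h8 := le_of_mul_le_mul_right h7 hτ0
      exact_mod_cast h8
    have h7 : Real.exp (-(κ * L)) ≤ 1 := by
      rw [Real.exp_le_one_iff]
      have : 0 < κ * L := by positivity
      linarith
    obtain ⟨s, hs⟩ := exists_sigma h6 (by omega) hτ0 rfl (o2.trans (by linarith)) hτ1 hb (h5.trans h7)
    exact ⟨s, hs.mono h5⟩
  have hτinv : 1 / τ ≤ 4 * L := by
    rw [div_le_iff₀ hτ0]
    linarith
  have hsmall : 100 * Real.exp (-(κ * L)) * ((g₁ : ℝ) + 1) ^ 4 ≤ 1 := by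
    have h1 : (g₁ : ℝ) + 1 ≤ 4 * A * L ^ 2 + 2 := by
      have h2 : A * L / τ ≤ A * L * (4 * L) := by
        rw [div_eq_mul_one_div]
        gcongr
      have h3 : A * L * (4 * L) = 4 * A * L ^ 2 := by ring
      linarith
    calc 100 * Real.exp (-(κ * L)) * ((g₁ : ℝ) + 1) ^ 4
        ≤ 100 * Real.exp (-(κ * L)) * (4 * A * L ^ 2 + 2) ^ 4 := by gcongr
      _ ≤ 1 := hsm.le
  have hη1 : 1 ≤ Real.exp (-(2 * L)) * ((g₁.choose D : ℝ) * (τ / (1 - τ)) ^ D) := by
    have hD0 : (0 : ℝ) < D := by exact_mod_cast hD1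
    have h1 := choose_ge_pow hD1 hDg₁
    have h2 : τ ≤ τ / (1 - τ) := by
      rw [le_div_iff₀ (by linarith)]
      have := mul_pos hτ0 hτ0
      linarith
    have h3 : Real.exp (8 / t) ≤ (g₁ : ℝ) / (2 * D) * τ := by
      have h4 : Real.exp (8 / t) * (2 * ((t + 1) * L)) ≤ (A - 1) * L := by
        have h5 : 0 < (t + 1) * Real.exp (8 / t) := by positivity
        have h6 : 2 * ((t + 1) * Real.exp (8 / t)) ≤ A - 1 := by linarith
        have h7 := mul_le_mul_of_nonneg_right h6 hL0.le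
        linarith
      have h5 : Real.exp (8 / t) * (2 * D) ≤ g₁ * τ := by
        calc Real.exp (8 / t) * (2 * D) ≤ Real.exp (8 / t) * (2 * ((t + 1) * L)) := by gcongr
          _ ≤ (A - 1) * L := h4
          _ ≤ g₁ * τ := hg₁τ'
      rw [div_mul_eq_mul_div, le_div_iff₀ (by positivity)]
      exact h5
    have h4 : Real.exp (2 * L) ≤ (g₁.choose D : ℝ) * (τ / (1 - τ)) ^ D := by
      calc Real.exp (2 * L) ≤ Real.exp (D * (8 / t)) := by
            apply Real.exp_le_exp.2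
            calc 2 * L = (t * L / 4) * (8 / t) := by field_simp; ring
              _ ≤ D * (8 / t) := by gcongr
        _ = Real.exp (8 / t) ^ D := by rw [Real.exp_nat_mul]
        _ ≤ ((g₁ : ℝ) / (2 * D) * τ) ^ D := pow_le_pow_left₀ (Real.exp_pos _).le h3 D
        _ = ((g₁ : ℝ) / (2 * D)) ^ D * τ ^ D := mul_pow _ _ _
        _ ≤ (g₁.choose D : ℝ) * (τ / (1 - τ)) ^ D := by
            apply mul_le_mul h1 (pow_le_pow_left₀ hτ0.le h2 D) (by positivity) (Nat.cast_nonneg _)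
    calc (1 : ℝ) = Real.exp (-(2 * L)) * Real.exp (2 * L) := by
          rw [← Real.exp_add, neg_add_cancel, Real.exp_zero]
      _ ≤ _ := by gcongr
  refine ⟨g₀, ?_, ?_⟩
  · intro e he1 he2
    set S := sp p e (aj (j + 1)) with hS
    have hSm : ∀ n ∈ S, n ∈ Ioc (aj j) (aj (j + 1)) ∧ p n ≠ 0 := by
      intro n hn
      rw [hS, mem_sp, mem_Ioc] at hn
      rw [mem_Ioc]
      exact ⟨⟨by omega, by omega⟩, hn.2⟩
    obtain ⟨w, hw, hm⟩ := killed_finite (S := S) (p := p) hg₀1 hgg hτ0 hτ1 (fun n hn => by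
        obtain ⟨a1, a2⟩ := hSm n hn
        rcases hτc n a1 with h | h
        · exact absurd h a2
        · exact h.1) (fun n hn => (hpδ n (hSm n hn).1).trans (by linarith))
      (Real.exp_pos (-(κ * L))) hσ hsmall le_rfl (Real.exp_pos (-(2 * L))).le hη1
    refine ⟨w, blaw_mono hw (by omega), hm.trans ?_⟩
    have h1 : Real.sqrt (Real.exp (-(κ * L))) = Real.exp (-(κ / 2 * L)) := by
      rw [show -(κ * L) = (-(κ / 2 * L)) + (-(κ / 2 * L)) by ring, Real.exp_add,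
        Real.sqrt_mul_self (Real.exp_pos _).le]
    have hcard : (S.card : ℝ) + 1 ≤ 4 * Real.exp L := by
      have h2 : S.card ≤ aj (j + 1) - e := by
        rw [hS]
        unfold sp
        exact (Finset.card_filter_le _ _).trans (by rw [Nat.card_Ioc])
      have h3 : aj (j + 1) = 2 * aj j + 1 := aj_succ j
      have h4 : S.card ≤ aj j + 1 := by omega
      have h5 : (S.card : ℝ) ≤ aj j + 1 := by exact_mod_cast h4
      have h6 : (1 : ℝ) ≤ aj j := by
        exact_mod_cast (by omega : 1 ≤ 2).trans (hj2.trans (le_aj j))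
      have h7 : Real.exp L = aj j := by
        rw [hLdef, Lj, Real.exp_log (by linarith)]
      rw [h7]
      linarith
    have h2 : ((S.card : ℝ) + 1) * Real.exp (-(2 * L)) ≤ 4 * Real.exp (-(1 * L)) := by
      calc ((S.card : ℝ) + 1) * Real.exp (-(2 * L)) ≤ 4 * Real.exp L * Real.exp (-(2 * L)) := by
            gcongr
        _ = 4 * Real.exp (-(1 * L)) := by
            rw [mul_assoc, ← Real.exp_add]
            ring_nf
    rw [h1]
    have h3 : 2 * Real.exp (-(κ / 2 * L)) ≤ 2 * (1 / 4 / ((j : ℝ) + 1) ^ 2) := by gcongr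
    have h4 : 4 * Real.exp (-(1 * L)) ≤ 4 * (1 / 8 / ((j : ℝ) + 1) ^ 2) := by gcongr
    have h5 : 2 * (1 / 4 / ((j : ℝ) + 1) ^ 2) + 4 * (1 / 8 / ((j : ℝ) + 1) ^ 2) =
        1 / ((j : ℝ) + 1) ^ 2 := by ring
    linarith
  · intro x hx1 hx2
    have hx3 : x ≤ aj (j + 1) := by omega
    have h1 := (hwin x hx1 hx3).1
    have hcomp : ∀ n ∈ sp p x (x + len l x), τ ≤ p n ∧ p n ≤ (1 + δ₂) * τ := by
      intro n hn
      rw [mem_sp, mem_Ioc] at hn
      rcases hτc n (mem_Ioc.2 ⟨by omega, by omega⟩) with h | h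
      · exact absurd h hn.2
      · exact h
    have h2 := (count_bounds hcomp).2
    have h3 : (l - δ₂) * L ≤ (1 + δ₂) * (((sp p x (x + len l x)).card : ℝ) * τ) := h1.trans h2
    have h4 : (l₁ + δ₂) * L ≤ ((sp p x (x + len l x)).card : ℝ) * τ := by
      have h5 : (l₁ + δ₂) * (1 + δ₂) ≤ l - δ₂ := by
        rw [lt_div_iff₀ (by positivity)] at hδ₂2
        exact hδ₂2.le
      have h6 : (1 + δ₂) * ((l₁ + δ₂) * L) ≤ (1 + δ₂) * (((sp p x (x + len l x)).card : ℝ) * τ) := by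
        have h7 := mul_le_mul_of_nonneg_right h5 hL0.le
        linarith
      exact le_of_mul_le_mul_left h6 (by positivity)
    have h5 : (g₀ : ℝ) ≤ ((sp p x (x + len l x)).card : ℝ) := by
      have h6 : (g₀ : ℝ) * τ ≤ ((sp p x (x + len l x)).card : ℝ) * τ := by
        calc (g₀ : ℝ) * τ ≤ (l₁ * L / τ + 1) * τ := by gcongr
          _ = l₁ * L + τ := by field_simp
          _ ≤ l₁ * L + δ₂ * L := by
            have h7 : δ₂ * 1 ≤ δ₂ * L := by gcongr; linarith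
            linarith
          _ = (l₁ + δ₂) * L := by ring
          _ ≤ _ := h4
      exact le_of_mul_le_mul_right h6 hτ0
    exact_mod_cast h5

end Pool.Agent.LibCJ
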