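import Pool.Agent.LibCJ7.Num
import Pool.Agent.LibCI7.Model
import Pool.Agent.LibCI7.DensW

/-!
Dyadic ranges.
-/

namespace Pool.Agent.LibCJ

open Finset Filter Topology Pool.Agent.LibCramer
open Pool.Agent.LibCramer.LowerTail (tendsto_logn factorial_le tendsto_log_add_len_div tendsto_len_div)

/-- the start of the range `j` is `aj j + 1 = 2 ^ j` -/
def aj (j : ℕ) : ℕ := 2 ^ j - 1

lemma aj_succ (j : ℕ) : aj (j + 1) = 2 * aj j + 1 := by
  unfold aj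
  have : 1 ≤ 2 ^ j := Nat.one_le_two_pow
  rw [pow_succ]
  omega

lemma mem_range_iff {j n : ℕ} (hn : n ≠ 0) :
    n ∈ Ioc (aj j) (aj (j + 1)) ↔ Nat.log 2 n = j := by
  rw [Nat.log_eq_iff (Or.inr ⟨by norm_num, hn⟩), mem_Ioc]
  unfold aj
  have h1 : 1 ≤ 2 ^ j := Nat.one_le_two_pow
  have h2 : 1 ≤ 2 ^ (j + 1) := Nat.one_le_two_pow
  omega

lemma aj_mono : Monotone aj := by
  refine monotone_nat_of_le_succ fun j => ?_
  rw [aj_succ]
  omega

lemma le_aj (j : ℕ) : j ≤ aj j := by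
  have : j < 2 ^ j := Nat.lt_two_pow_self
  unfold aj
  omega

lemma tendsto_aj : Tendsto aj atTop atTop :=
  tendsto_atTop_mono le_aj tendsto_id

/-- the logarithm of the start -/
noncomputable def Lj (j : ℕ) : ℝ := Real.log (aj j : ℝ)

lemma tendsto_Lj : Tendsto Lj atTop atTop := tendsto_logn.comp tendsto_aj

lemma log_aj_succ {j : ℕ} (hj : 1 ≤ j) : Real.log (aj (j + 1) : ℝ) ≤ Lj j + 2 := by
  have h1 : 1 ≤ aj j := hj.trans (le_aj j)
  have h1' : (1 : ℝ) ≤ aj j := by exact_mod_cast h1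
  have h2 : (aj (j + 1) : ℝ) ≤ 3 * aj j := by
    rw [aj_succ]
    push_cast
    linarith
  have h3 : (0 : ℝ) < aj (j + 1) := by
    have : 1 ≤ aj (j + 1) := by rw [aj_succ]; omega
    exact_mod_cast this
  have h4 : Real.log 3 ≤ 2 := by
    have := Real.log_le_sub_one_of_pos (show (0 : ℝ) < 3 by norm_num)
    linarith
  calc Real.log (aj (j + 1) : ℝ) ≤ Real.log (3 * aj j) := Real.log_le_log h3 h2
    _ = Real.log 3 + Lj j := by rw [Real.log_mul (by norm_num) (by positivity)]; rfl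
    _ ≤ Lj j + 2 := by linarith

lemma log_upper {δ : ℝ} (hδ : 0 < δ) : ∀ᶠ j in atTop, ∀ x, aj j ≤ x → x ≤ aj (j + 1) →
    Lj j ≤ Real.log (x : ℝ) ∧ Real.log (x : ℝ) ≤ (1 + δ) * Lj j := by
  filter_upwards [tendsto_Lj.eventually_ge_atTop (2 / δ), eventually_ge_atTop 1] with j h1 h2 x hx1 hx2
  have h3 : 1 ≤ aj j := h2.trans (le_aj j)
  have h4 : (0 : ℝ) < aj j := by exact_mod_cast h3
  have h5 : (0 : ℝ) < x := by exact_mod_cast h3.trans hx1
  constructor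
  · exact Real.log_le_log h4 (by exact_mod_cast hx1)
  · have h6 : Real.log (x : ℝ) ≤ Real.log (aj (j + 1) : ℝ) :=
      Real.log_le_log h5 (by exact_mod_cast hx2)
    have h7 := log_aj_succ h2
    rw [div_le_iff₀ hδ] at h1
    linarith

/-- the densities used -/
structure GoodDyad (p : ℕ → ℝ) : Prop extends GoodWeight p where
  dyad : ∀ ε : ℝ, 0 < ε → ∀ᶠ j : ℕ in atTop, ∃ τ : ℝ, 0 < τ ∧
    ∀ n ∈ Ioc (aj j) (aj (j + 1)), p n = 0 ∨ (τ ≤ p n ∧ p n ≤ (1 + ε) * τ)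

open Classical in
/-- the support in an interval -/
noncomputable def sp (p : ℕ → ℝ) (x y : ℕ) : Finset ℕ := (Ioc x y).filter (fun n => p n ≠ 0)

variable {p : ℕ → ℝ}

lemma mem_sp {x y n : ℕ} : n ∈ sp p x y ↔ n ∈ Ioc x y ∧ p n ≠ 0 := by
  classical
  unfold sp
  rw [mem_filter]

lemma sp_mono {x y x' y' : ℕ} (h1 : x' ≤ x) (h2 : y ≤ y') : sp p x y ⊆ sp p x' y' := by
  intro n hn
  rw [mem_sp, mem_Ioc] at hn ⊢
  exact ⟨⟨by omega, by omega⟩, hn.2⟩

lemma sum_sp (x y : ℕ) : ∑ n ∈ sp p x y, p n = ∑ n ∈ Ioc x y, p n := by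
  classical
  unfold sp
  rw [Finset.sum_filter]
  refine Finset.sum_congr rfl fun n _ => ?_
  by_cases h : p n = 0 <;> simp [h]

lemma count_bounds {x y : ℕ} {τ ε : ℝ} (h : ∀ n ∈ sp p x y, τ ≤ p n ∧ p n ≤ (1 + ε) * τ) :
    ((sp p x y).card : ℝ) * τ ≤ ∑ n ∈ Ioc x y, p n ∧
      ∑ n ∈ Ioc x y, p n ≤ (1 + ε) * (((sp p x y).card : ℝ) * τ) := by
  rw [← sum_sp]
  constructor
  · rw [← nsmul_eq_mul, ← Finset.sum_const]
    exact Finset.sum_le_sum fun n hn => (h n hn).1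
  · calc ∑ n ∈ sp p x y, p n ≤ ∑ _n ∈ sp p x y, (1 + ε) * τ :=
          Finset.sum_le_sum fun n hn => (h n hn).2
      _ = (1 + ε) * (((sp p x y).card : ℝ) * τ) := by
          rw [Finset.sum_const, nsmul_eq_mul]
          ring

/-- the mass of the windows -/
lemma win_sum (hp : GoodWeight p) {l δ : ℝ} (hl : 0 < l) (hδ : 0 < δ) :
    ∀ᶠ j in atTop, ∀ x, aj j ≤ x → x ≤ aj (j + 1) →
      (l - δ) * Lj j ≤ ∑ n ∈ win l x, p n ∧ ∑ n ∈ win l x, p n ≤ (l + δ) * Lj j := by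
  have h1 : ∀ᶠ m : ℕ in atTop, l - δ / 2 < (∑ n ∈ win l m, p n) / Real.log (m : ℝ) :=
    (hp.loc.2 l hl).eventually (lt_mem_nhds (by linarith))
  have h2 : ∀ᶠ m : ℕ in atTop, (∑ n ∈ win l m, p n) / Real.log (m : ℝ) < l + δ / 2 :=
    (hp.loc.2 l hl).eventually (gt_mem_nhds (by linarith))
  have hδ' : 0 < δ / (2 * (l + δ)) := by positivity
  filter_upwards [tendsto_aj.eventually (eventually_forall_ge' h1),
    tendsto_aj.eventually (eventually_forall_ge' h2), log_upper hδ',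
    tendsto_Lj.eventually_gt_atTop 0] with j h1 h2 h3 hL x hx1 hx2
  obtain ⟨h4, h5⟩ := h3 x hx1 hx2
  have hlx : 0 < Real.log (x : ℝ) := hL.trans_le h4
  have a1 := h1 x hx1
  have a2 := h2 x hx1
  rw [lt_div_iff₀ hlx] at a1
  rw [div_lt_iff₀ hlx] at a2
  constructor
  · rcases le_or_gt 0 (l - δ / 2) with h6 | h6
    · nlinarith
    · have h7 : 0 ≤ ∑ n ∈ win l x, p n := Finset.sum_nonneg fun n _ => hp.nonneg n
      nlinarith
  · have h6 : (l + δ / 2) * Real.log (x : ℝ) ≤ (l + δ / 2) * ((1 + δ / (2 * (l + δ))) * Lj j) := by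
      gcongr
    have h7 : (l + δ / 2) * (δ / (2 * (l + δ))) ≤ δ / 2 := by
      calc (l + δ / 2) * (δ / (2 * (l + δ))) ≤ (l + δ) * (δ / (2 * (l + δ))) := by
            gcongr
            linarith
        _ = δ / 2 := by field_simp
    nlinarith

/-- the mass of the blocks -/
lemma block_sum (hp : GoodWeight p) {l δ : ℝ} (hl : 0 < l) (hδ : 0 < δ) :
    ∀ᶠ j in atTop, ∀ x, aj j ≤ x → x ≤ aj (j + 1) →
      (l - δ) * Lj j ≤ ∑ n ∈ Ioc x (x + len l (aj j)), p n ∧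
      ∑ n ∈ Ioc x (x + len l (aj j)), p n ≤ (l + δ) * Lj j := by
  -- lower parameter
  obtain ⟨l', hl'0, hl'1, hl'2⟩ : ∃ l' : ℝ, 0 < l' ∧ l' < l ∧ l - δ / 2 ≤ l' := by
    refine ⟨max (l / 2) (l - δ / 2), lt_max_of_lt_left (by positivity), max_lt (by linarith)
      (by linarith), le_max_right _ _⟩
  have hs1 : 0 < Real.sqrt (l / l') - 1 := by
    have : 1 < Real.sqrt (l / l') := by
      rw [show (1 : ℝ) = Real.sqrt 1 by simp]
      apply Real.sqrt_lt_sqrt zero_le_one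
      rw [lt_div_iff₀ hl'0]
      linarith
    linarith
  filter_upwards [win_sum hp hl hδ, win_sum hp hl'0 (half_pos hδ), log_upper hs1,
    tendsto_Lj.eventually_gt_atTop 0] with j h1 h2 h3 hL x hx1 hx2
  obtain ⟨h4, h5⟩ := h3 x hx1 hx2
  have hlx : 0 < Real.log (x : ℝ) := hL.trans_le h4
  constructor
  · have h6 : len l' x ≤ len l (aj j) := by
      unfold len
      apply Nat.floor_mono
      have h7 : Real.log (x : ℝ) ≤ Real.sqrt (l / l') * Lj j := by linarith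
      have h8 : Real.log (x : ℝ) ^ 2 ≤ (Real.sqrt (l / l') * Lj j) ^ 2 :=
        pow_le_pow_left₀ hlx.le h7 2
      rw [mul_pow, Real.sq_sqrt (by positivity)] at h8
      calc l' * Real.log (x : ℝ) ^ 2 ≤ l' * (l / l' * Lj j ^ 2) := by gcongr
        _ = l * Real.log (aj j : ℝ) ^ 2 := by unfold Lj; field_simp
    have h7 := (h2 x hx1 hx2).1
    refine le_trans ?_ (h7.trans (Finset.sum_le_sum_of_subset_of_nonneg ?_ fun n _ _ => hp.nonneg n))
    · nlinarith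
    · intro n hn
      obtain ⟨a1, a2⟩ := mem_Ioc.1 hn
      rw [mem_Ioc]
      omega
  · refine le_trans (Finset.sum_le_sum_of_subset_of_nonneg ?_ fun n _ _ => hp.nonneg n)
      (h1 x hx1 hx2).2
    intro n hn
    obtain ⟨a1, a2⟩ := mem_Ioc.1 hn
    have h6 : len l (aj j) ≤ len l x := by
      unfold len
      apply Nat.floor_mono
      have : Lj j ^ 2 ≤ Real.log (x : ℝ) ^ 2 := pow_le_pow_left₀ hL.le h4 2
      exact mul_le_mul_of_nonneg_left this hl.le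
    exact mem_Ioc.2 ⟨a1, by omega⟩

/-- the parameters of a range -/
lemma GoodDyad.params (hp : GoodDyad p) {δ : ℝ} (hδ : 0 < δ) (hδ1 : δ ≤ 1) :
    ∀ᶠ j in atTop, ∃ τ : ℝ, 0 < τ ∧ τ ≤ δ ∧ 1 ≤ 4 * (τ * Lj j) ∧
      (∀ n ∈ Ioc (aj j) (aj (j + 1)), p n = 0 ∨ (τ ≤ p n ∧ p n ≤ (1 + δ) * τ)) ∧
      ∀ n ∈ Ioc (aj j) (aj (j + 1)), p n ≤ δ := by
  have h1 : ∀ᶠ m : ℕ in atTop, p m < δ := hp.loc.1.eventually (gt_mem_nhds hδ)
  have hlen : ∀ᶠ j in atTop, aj j + len 1 (aj j) ≤ aj (j + 1) := by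
    have h2 := tendsto_aj.eventually (eventually_len_le (l := 1) one_pos)
    filter_upwards [h2] with j hj
    rw [aj_succ]
    omega
  filter_upwards [hp.dyad δ hδ, tendsto_aj.eventually (eventually_forall_ge' h1),
    block_sum hp.toGoodWeight (l := 1) one_pos (half_pos (one_pos (α := ℝ))),
    tendsto_Lj.eventually_ge_atTop 1, hlen] with j h2 h3 h4 hL hlen
  obtain ⟨τ, hτ0, hτ⟩ := h2
  have h5 := (h4 (aj j) le_rfl (aj_mono (Nat.le_succ j))).1
  have hL0 : 0 < Lj j := by linarith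
  have hsub : ∀ n ∈ sp p (aj j) (aj j + len 1 (aj j)), n ∈ Ioc (aj j) (aj (j + 1)) ∧ p n ≠ 0 := by
    intro n hn
    rw [mem_sp, mem_Ioc] at hn
    rw [mem_Ioc]
    exact ⟨⟨by omega, by omega⟩, hn.2⟩
  have hcomp : ∀ n ∈ sp p (aj j) (aj j + len 1 (aj j)), τ ≤ p n ∧ p n ≤ (1 + δ) * τ := by
    intro n hn
    obtain ⟨a1, a2⟩ := hsub n hn
    rcases hτ n a1 with h | h
    · exact absurd h a2
    · exact h
  have hcb := (count_bounds hcomp).2
  have hcard : ((sp p (aj j) (aj j + len 1 (aj j))).card : ℝ) ≤ Lj j ^ 2 := by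
    have h6 : (sp p (aj j) (aj j + len 1 (aj j))).card ≤ len 1 (aj j) := by
      classical
      unfold sp
      refine (Finset.card_filter_le _ _).trans ?_
      rw [Nat.card_Ioc]
      omega
    have h7 := len_le (c := 1) zero_le_one (aj j)
    calc ((sp p (aj j) (aj j + len 1 (aj j))).card : ℝ) ≤ len 1 (aj j) := by exact_mod_cast h6
      _ ≤ 1 * Real.log (aj j : ℝ) ^ 2 := h7
      _ = Lj j ^ 2 := by rw [one_mul]; rfl
  have hpos : 0 < ∑ n ∈ Ioc (aj j) (aj j + len 1 (aj j)), p n := by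
    refine lt_of_lt_of_le ?_ h5
    linarith
  obtain ⟨n0, hn0⟩ : (sp p (aj j) (aj j + len 1 (aj j))).Nonempty := by
    by_contra h
    rw [Finset.not_nonempty_iff_eq_empty] at h
    rw [← sum_sp, h] at hpos
    simp at hpos
  obtain ⟨b1, b2⟩ := hsub n0 hn0
  have hτδ : τ ≤ δ := (hcomp n0 hn0).1.trans (h3 n0 (mem_Ioc.1 b1).1.le).le
  refine ⟨τ, hτ0, hτδ, ?_, hτ, fun n hn => (h3 n (mem_Ioc.1 hn).1.le).le⟩
  have h6 : (1 - 1 / 2) * Lj j ≤ 2 * (Lj j ^ 2 * τ) := by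
    calc (1 - 1 / 2) * Lj j ≤ _ := h5
      _ ≤ (1 + δ) * (((sp p (aj j) (aj j + len 1 (aj j))).card : ℝ) * τ) := hcb
      _ ≤ 2 * (Lj j ^ 2 * τ) := by
        gcongr
        linarith
  have h7 : Lj j * 1 ≤ Lj j * (4 * (τ * Lj j)) := by nlinarith
  exact le_of_mul_le_mul_left h7 hL0

end Pool.Agent.LibCJ
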