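import Pool.Agent.LibCJ7.FinLaw
import Pool.Agent.LibCJ7.Range
import Pool.Agent.LibCJ7.Order

/-!
The law of a zone block exists.
-/

namespace Pool.Agent.LibCJ

open Finset Filter Topology Pool.Agent.LibCramer

lemma rr_lt_self {t l : ℝ} (ht : 0 < t) (hl : t / 2 < l) : rr t l < l := by
  have ht2 : 0 < t / 2 := by positivity
  rw [rr_of_ge hl.le]
  have h1 : 1 < l / (t / 2) := by rw [lt_div_iff₀ ht2]; linarith
  have h2 := Real.log_lt_sub_one_of_pos (by linarith) h1.ne'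
  calc t / 2 * (1 + Real.log (l / (t / 2))) < t / 2 * (l / (t / 2)) := by
        apply mul_lt_mul_of_pos_left _ ht2
        linarith
    _ = l := by field_simp

/-- **the law of a zone block** -/
theorem zone_range {p : ℕ → ℝ} (hp : GoodDyad p) {t l r : ℝ} {K : ℕ → ℕ} (hKK : KOK t K)
    (ht : 0 < t) (hl : 0 < l) (hr : rr t l < r) :
    ∀ᶠ j in atTop, ∀ x, aj j ≤ x → x + len l (aj j) ≤ aj (j + 1) → ∃ w : Finset ℕ → ℝ,
      BLaw (sp p x (x + len l (aj j))) p (K j) w ∧ Real.exp (-(r * Lj j)) ≤ w ∅ := by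
  rcases le_or_gt l (t / 2) with hlt | hlt
  · -- product law
    rw [rr_of_le hl hlt] at hr
    obtain ⟨δ, hδ0, hδ1, hδ2⟩ : ∃ δ : ℝ, 0 < δ ∧ δ ≤ 1 / 2 ∧ (1 + 2 * δ) * (l + δ) ≤ r := by
      have hc : ContinuousAt (fun x : ℝ => (1 + 2 * x) * (l + x)) 0 := by fun_prop
      have h0 : (fun x : ℝ => (1 + 2 * x) * (l + x)) 0 < r := by simpa using hr
      have h1 := hc.eventually (gt_mem_nhds h0)
      have h2 := h1.filter_mono (nhdsWithin_le_nhds (s := Set.Ioi (0 : ℝ)))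
      have h3 : ∀ᶠ x : ℝ in 𝓝[>] 0, x < 1 / 2 :=
        (eventually_lt_nhds (by norm_num)).filter_mono nhdsWithin_le_nhds
      have h4 : ∀ᶠ x : ℝ in 𝓝[>] 0, 0 < x := eventually_mem_nhdsWithin
      obtain ⟨x, a1, a2, a3⟩ := (h2.and (h3.and h4)).exists
      exact ⟨x, a3, a2.le, a1.le⟩
    filter_upwards [hp.params hδ0 (hδ1.trans (by norm_num)), block_sum hp.toGoodWeight hl hδ0,
      tendsto_Lj.eventually_ge_atTop 0] with j hpar hblk hL0 x hx1 hx2
    obtain ⟨τ, hτ0, hτδ, hτL, hτc, hpδ⟩ := hpar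
    set S := sp p x (x + len l (aj j)) with hS
    have hSm : ∀ n ∈ S, n ∈ Ioc (aj j) (aj (j + 1)) := by
      intro n hn
      rw [hS, mem_sp, mem_Ioc] at hn
      exact mem_Ioc.2 ⟨by omega, by omega⟩
    refine ⟨LibBar93.pw S p, blaw_prod S p _ (fun n _ => hp.nonneg n)
      (fun n hn => (hpδ n (hSm n hn)).trans (by linarith)), ?_⟩
    have h1 := prod_one_sub_ge (W := S) (p := p) hδ1 (fun n _ => hp.nonneg n)
      (fun n hn => hpδ n (hSm n hn))
    have h2 : LibBar93.pw S p ∅ = ∏ n ∈ S, (1 - p n) := by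
      unfold LibBar93.pw
      simp
    rw [h2]
    refine le_trans (Real.exp_le_exp.2 ?_) h1
    have h3 : ∑ n ∈ S, p n ≤ (l + δ) * Lj j := by
      rw [hS, sum_sp]
      exact (hblk x hx1 (by omega)).2
    have h4 : (1 + 2 * δ) * ∑ n ∈ S, p n ≤ (1 + 2 * δ) * ((l + δ) * Lj j) := by gcongr
    have h5 : (1 + 2 * δ) * ((l + δ) * Lj j) ≤ r * Lj j := by
      rw [← mul_assoc]
      exact mul_le_mul_of_nonneg_right hδ2 hL0
    linarith
  · -- the law with a large weight at the empty set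
    obtain ⟨r', hr'1, hr'2, hr'3⟩ : ∃ r' : ℝ, rr t l < r' ∧ r' < r ∧ r' < l := by
      obtain ⟨r', h1, h2⟩ := exists_between (lt_min hr (rr_lt_self ht hlt))
      exact ⟨r', h1, h2.trans_le (min_le_left _ _), h2.trans_le (min_le_right _ _)⟩
    have hr'0 : 0 < r' := (rr_pos ht hl).trans hr'1
    obtain ⟨δ, b, hδ0, hδ8, hb, hnum⟩ := zone_num ht hlt hr'1
    obtain ⟨δ₂, hδ₂0, hδ₂δ, hδ₂1, hδ₂2, hδ₂3⟩ : ∃ δ₂ : ℝ, 0 < δ₂ ∧ δ₂ ≤ δ ∧ δ₂ * (t + 1) ≤ r' ∧
        r' ≤ (l - δ₂) / (1 + δ₂) ∧ 4 * δ₂ * (l + δ₂) + r' ≤ r := by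
      have hc : ContinuousAt (fun x : ℝ => (l - x) / (1 + x)) 0 := by
        apply ContinuousAt.div (by fun_prop) (by fun_prop)
        norm_num
      have h0 : r' < (fun x : ℝ => (l - x) / (1 + x)) 0 := by norm_num; exact hr'3
      have h1 := hc.eventually (lt_mem_nhds h0)
      have h2 := h1.filter_mono (nhdsWithin_le_nhds (s := Set.Ioi (0 : ℝ)))
      have hc' : ContinuousAt (fun x : ℝ => 4 * x * (l + x) + r') 0 := by fun_prop
      have h0' : (fun x : ℝ => 4 * x * (l + x) + r') 0 < r := by simpa using hr'2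
      have h1' := hc'.eventually (gt_mem_nhds h0')
      have h2' := h1'.filter_mono (nhdsWithin_le_nhds (s := Set.Ioi (0 : ℝ)))
      have h3 : ∀ᶠ x : ℝ in 𝓝[>] 0, x < δ :=
        (eventually_lt_nhds hδ0).filter_mono nhdsWithin_le_nhds
      have h4 : ∀ᶠ x : ℝ in 𝓝[>] 0, 0 < x := eventually_mem_nhdsWithin
      have h5 : ∀ᶠ x : ℝ in 𝓝[>] 0, x < r' / (t + 1) :=
        (eventually_lt_nhds (by positivity)).filter_mono nhdsWithin_le_nhds
      obtain ⟨x, a1, a2, a3, a4, a5⟩ := (h2.and (h3.and (h4.and (h5.and h2')))).exists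
      refine ⟨x, a3, a2.le, ?_, a1.le, a5.le⟩
      rw [lt_div_iff₀ (by positivity)] at a4
      exact a4.le
    have hδ₂8 : δ₂ ≤ 1 / 8 := hδ₂δ.trans hδ8
    filter_upwards [hp.params hδ₂0 (hδ₂8.trans (by norm_num)), block_sum hp.toGoodWeight hl hδ₂0,
      hKK δ hδ0, tendsto_Lj.eventually_ge_atTop (1 / δ)] with j hpar hblk hK hL1 x hx1 hx2
    obtain ⟨τ, hτ0, hτδ, hτL, hτc, hpδ⟩ := hpar
    set L := Lj j with hLdef
    have hL0 : 0 < L := lt_of_lt_of_le (by positivity) hL1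
    have hδL : 1 ≤ δ * L := by
      rw [div_le_iff₀ hδ0] at hL1
      linarith
    set S := sp p x (x + len l (aj j)) with hS
    have hSm : ∀ n ∈ S, n ∈ Ioc (aj j) (aj (j + 1)) ∧ p n ≠ 0 := by
      intro n hn
      rw [hS, mem_sp, mem_Ioc] at hn
      exact ⟨mem_Ioc.2 ⟨by omega, by omega⟩, hn.2⟩
    have hcomp : ∀ n ∈ S, τ ≤ p n ∧ p n ≤ (1 + δ₂) * τ := by
      intro n hn
      obtain ⟨a1, a2⟩ := hSm n hn
      rcases hτc n a1 with h | h
      · exact absurd h a2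
      · exact h
    obtain ⟨c1, c2⟩ := count_bounds hcomp
    obtain ⟨b1, b2⟩ := hblk x hx1 (by omega)
    have hg1 : (S.card : ℝ) * τ ≤ (l + δ₂) * L := c1.trans b2
    have hg2 : r' * L ≤ (S.card : ℝ) * τ := by
      have h1 : (l - δ₂) * L ≤ (1 + δ₂) * ((S.card : ℝ) * τ) := b1.trans c2
      have h2 : r' * (1 + δ₂) ≤ l - δ₂ := by rwa [le_div_iff₀ (by positivity)] at hδ₂2
      have h3 : (1 + δ₂) * (r' * L) ≤ (1 + δ₂) * ((S.card : ℝ) * τ) := by nlinarith
      exact le_of_mul_le_mul_left h3 (by positivity)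
    have hC := hnum L τ S.card (K j) hL0.le hδL hτ0 (hτδ.trans hδ₂δ)
      (hg1.trans (by nlinarith)) hK.2
    have hτ1 : τ < 1 := by linarith
    have h1τ : 0 < 1 - τ := by linarith
    have hpow : (1 - τ) ^ S.card ≤ Real.exp (-((S.card : ℝ) * τ)) := by
      have h3 : 1 - τ ≤ Real.exp (-τ) := Real.one_sub_le_exp_neg τ
      calc (1 - τ) ^ S.card ≤ Real.exp (-τ) ^ S.card := pow_le_pow_left₀ h1τ.le h3 _
        _ = Real.exp (-((S.card : ℝ) * τ)) := by rw [← Real.exp_nat_mul]; ring_nf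
    have hC0 := C₀_pos (g := S.card) (D := K j) (ρ := τ / (1 - τ)) hb
    have hC1 : 2 * C₀ S.card (K j) (τ / (1 - τ)) b * (1 - τ) ^ S.card ≤ 1 := by
      calc 2 * C₀ S.card (K j) (τ / (1 - τ)) b * (1 - τ) ^ S.card
          ≤ Real.exp (r' * L) * Real.exp (-((S.card : ℝ) * τ)) :=
            mul_le_mul hC hpow (pow_pos h1τ _).le (Real.exp_pos _).le
        _ ≤ 1 := by
            rw [← Real.exp_add, Real.exp_le_one_iff]
            linarith
    have hD : K j ≤ S.card := by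
      have h7 : (K j : ℝ) * τ ≤ S.card * τ := by
        calc (K j : ℝ) * τ ≤ ((t + 1) * L) * δ₂ := by
              apply mul_le_mul _ hτδ hτ0.le (by positivity)
              refine hK.2.trans ?_
              gcongr
              linarith
          _ = (δ₂ * (t + 1)) * L := by ring
          _ ≤ r' * L := by gcongr
          _ ≤ S.card * τ := hg2
      have h8 := le_of_mul_le_mul_right h7 hτ0
      exact_mod_cast h8
    have hS0 : 0 < S.card := by
      have h1 : 0 < (S.card : ℝ) * τ := lt_of_lt_of_le (by positivity) hg2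
      have h2 : (0 : ℝ) < S.card := by
        by_contra h
        have : (S.card : ℝ) * τ ≤ 0 := mul_nonpos_of_nonpos_of_nonneg (not_lt.1 h) hτ0.le
        linarith
      exact_mod_cast h2
    obtain ⟨w, hw, he⟩ := zone_finite hD hS0 hτ0 hτδ hδ₂8 hcomp hb hC1
    refine ⟨w, hw, le_trans ?_ he⟩
    rw [le_div_iff₀ (by positivity)]
    calc Real.exp (-(r * L)) * (2 * C₀ S.card (K j) (τ / (1 - τ)) b)
        ≤ Real.exp (-(r * L)) * Real.exp (r' * L) := by gcongr
      _ = Real.exp (-(r * L) + r' * L) := by rw [Real.exp_add]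
      _ ≤ Real.exp (-(4 * δ₂ * (S.card * τ))) := by
          apply Real.exp_le_exp.2
          have h1 : 4 * δ₂ * (S.card * τ) ≤ 4 * δ₂ * ((l + δ₂) * L) := by gcongr
          nlinarith

end Pool.Agent.LibCJ
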