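import Pool.Agent.LibCJ7.PlanAE
import Pool.Agent.LibCJ7.KillLaw
import Pool.Agent.LibCJ7.ZoneLaw

/-!
Existence of the construction with given parameters.
-/

namespace Pool.Agent.LibCJ

open Finset Filter Topology MeasureTheory ProbabilityTheory Pool.Agent.LibCramer
open scoped ENNReal

/-- `L ^ 2` against an exponential -/
lemma sq_le_exp {l c : ℝ} (hc : 0 < c) : ∀ᶠ L : ℝ in atTop, l * L ^ 2 ≤ Real.exp (c * L) := by
  have h1 : Tendsto (fun L : ℝ => l * (L ^ 2 * Real.exp (-(c * L)))) atTop (𝓝 0) := by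
    have h2 := Real.tendsto_pow_mul_exp_neg_atTop_nhds_zero 2
    have h3 : Tendsto (fun L : ℝ => c * L) atTop atTop := tendsto_id.const_mul_atTop hc
    have h4 := (h2.comp h3).const_mul (l * (c ^ 2)⁻¹)
    rw [mul_zero] at h4
    refine h4.congr fun L => ?_
    simp only [Function.comp]
    rw [mul_pow]
    field_simp
  filter_upwards [h1.eventually (gt_mem_nhds (one_pos (α := ℝ)))] with L hL
  have h2 : Real.exp (c * L) * (l * (L ^ 2 * Real.exp (-(c * L)))) ≤ Real.exp (c * L) * 1 := by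
    gcongr
  have h3 : Real.exp (c * L) * (l * (L ^ 2 * Real.exp (-(c * L)))) = l * L ^ 2 := by
    have : Real.exp (c * L) * Real.exp (-(c * L)) = 1 := by
      rw [← Real.exp_add, add_neg_cancel, Real.exp_zero]
    calc _ = l * L ^ 2 * (Real.exp (c * L) * Real.exp (-(c * L))) := by ring
      _ = l * L ^ 2 := by rw [this, mul_one]
  linarith

/-- windows of a smaller parameter in a block -/
lemma len_block {l l' : ℝ} (hl' : 0 < l') (h : l' < l) : ∀ᶠ j in atTop, ∀ m, aj j ≤ m →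
    m ≤ aj (j + 1) → len l' m ≤ len l (aj j) := by
  have hs1 : 0 < Real.sqrt (l / l') - 1 := by
    have : 1 < Real.sqrt (l / l') := by
      rw [show (1 : ℝ) = Real.sqrt 1 by simp]
      apply Real.sqrt_lt_sqrt zero_le_one
      rw [lt_div_iff₀ hl']
      linarith
    linarith
  have hl0 : 0 < l := hl'.trans h
  filter_upwards [log_upper hs1, tendsto_Lj.eventually_gt_atTop 0] with j h3 hL x hx1 hx2
  obtain ⟨h4, h5⟩ := h3 x hx1 hx2
  have hlx : 0 < Real.log (x : ℝ) := hL.trans_le h4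
  unfold len
  apply Nat.floor_mono
  have h7 : Real.log (x : ℝ) ≤ Real.sqrt (l / l') * Lj j := by linarith
  have h8 : Real.log (x : ℝ) ^ 2 ≤ (Real.sqrt (l / l') * Lj j) ^ 2 :=
    pow_le_pow_left₀ hlx.le h7 2
  rw [mul_pow, Real.sq_sqrt (by positivity)] at h8
  calc l' * Real.log (x : ℝ) ^ 2 ≤ l' * (l / l' * Lj j ^ 2) := by gcongr
    _ = l * Real.log (aj j : ℝ) ^ 2 := by unfold Lj; field_simp

open Classical in
theorem exists_plan {p : ℕ → ℝ} (hp : GoodDyad p) {t l : ℝ} {K : ℕ → ℕ} (hK1 : ∀ j, 1 ≤ K j)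
    (hKK : KOK t K) (ht : 0 < t) (hlt : t / 4 ≤ l) (hr : rr t l ≤ 1) : ∃ P : Plan p K,
      (∀ l', 0 < l' → l' < l → ∀ᶠ j in atTop, ∀ m, aj j ≤ m → m ≤ aj (j + 1) → len l' m ≤ P.s j) ∧
      (∀ l', l < l' → ∀ᶠ j in atTop, ∀ x, aj j ≤ x → x + len l' x ≤ aj (j + 1) →
        P.g j ≤ (sp p x (x + len l' x)).card) ∧
      (∀ c, 0 < c → ∀ᶠ j in atTop, ((P.n j * P.s j : ℕ) : ℝ) ≤ Real.exp ((rr t l + c) * Lj j)) := by
  have hl0 : 0 < l := lt_of_lt_of_le (by positivity) hlt
  -- parameters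
  set ls : ℕ → ℝ := fun m => l * (1 - 1 / ((m : ℝ) + 2)) with hls
  have hls0 : ∀ m, 0 < ls m := fun m => by
    have h1 : 1 / ((m : ℝ) + 2) < 1 := by
      rw [div_lt_one (by positivity)]
      have : (0 : ℝ) ≤ m := Nat.cast_nonneg m
      linarith
    have h2 : 0 < 1 - 1 / ((m : ℝ) + 2) := by linarith
    exact mul_pos hl0 h2
  have hlsl : ∀ m, ls m < l := fun m => by
    have h1 : 0 < 1 / ((m : ℝ) + 2) := by positivity
    simp only [hls]
    nlinarith
  have hlslim : Tendsto ls atTop (𝓝 l) := by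
    have h4 : Tendsto (fun n : ℕ => 1 / ((n : ℝ) + 2)) atTop (𝓝 0) := by
      have h5 : Tendsto (fun n : ℕ => (n : ℝ) + 2) atTop atTop :=
        tendsto_atTop_add_const_right _ _ tendsto_natCast_atTop_atTop
      have h6 := h5.inv_tendsto_atTop
      refine h6.congr fun n => ?_
      simp
    have h5 := (h4.const_sub 1).const_mul l
    rw [sub_zero, mul_one] at h5
    exact h5
  set η : ℕ → ℝ := fun m => 1 / ((m : ℝ) + 1) with hη
  have hη0 : ∀ m, 0 < η m := fun m => by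
    simp only [hη]
    positivity
  set r₁ : ℕ → ℝ := fun m => (3 * rr t (ls m) + rr t l) / 4 with hr₁
  set ρ : ℕ → ℝ := fun m => (rr t (ls m) + rr t l) / 2 with hρ
  have hrr : ∀ m, rr t (ls m) < rr t l := fun m => rr_lt ht (hls0 m) (hlsl m)
  have hrr0 : ∀ m, 0 < rr t (ls m) := fun m => rr_pos ht (hls0 m)
  -- what is needed
  set Q : ℕ → ℕ → Prop := fun m j =>
    (∀ x, aj j ≤ x → x + len (ls m) (aj j) ≤ aj (j + 1) → ∃ w : Finset ℕ → ℝ,
      BLaw (sp p x (x + len (ls m) (aj j))) p (K j) w ∧ Real.exp (-(r₁ m * Lj j)) ≤ w ∅) ∧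
    (∃ g : ℕ, (∀ e, aj j ≤ e → e ≤ aj (j + 1) → ∃ w : Finset ℕ → ℝ,
      BLaw (sp p e (aj (j + 1))) p (K j) w ∧
      ∑ T ∈ (sp p e (aj (j + 1))).powerset with Miss (sp p e (aj (j + 1))) g T, w T ≤
        1 / ((j : ℝ) + 1) ^ 2) ∧
      ∀ x, aj j ≤ x → x + len (l + η m) x ≤ aj (j + 1) →
        g ≤ (sp p x (x + len (l + η m) x)).card) ∧
    (1 ≤ len (ls m) (aj j) ∧ aj j + ⌊Real.exp (ρ m * Lj j)⌋₊ * len (ls m) (aj j) ≤ aj (j + 1)) ∧
    (m : ℝ) ≤ (⌊Real.exp (ρ m * Lj j)⌋₊ : ℝ) * Real.exp (-(r₁ m * Lj j)) with hQ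
  have hQev : ∀ m, ∀ᶠ j in atTop, Q m j := by
    intro m
    have h1 := zone_range hp hKK ht (hls0 m) (r := r₁ m) (by simp only [hr₁]; linarith [hrr m])
    have h2 := kill_law hp hKK ht (l := l + η m) (by linarith [hη0 m])
    have h3 := tendsto_aj.eventually (eventually_len_pos (hls0 m))
    have h4 : 0 < 1 - ρ m := by
      simp only [hρ]
      linarith [hrr m]
    have h5 := tendsto_Lj.eventually (sq_le_exp (l := ls m) h4)
    have h6 : 0 < ρ m - r₁ m := by
      simp only [hρ, hr₁]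
      linarith [hrr m]
    have h7 : Tendsto (fun j => Real.exp ((ρ m - r₁ m) * Lj j)) atTop atTop :=
      Real.tendsto_exp_atTop.comp (tendsto_Lj.const_mul_atTop h6)
    filter_upwards [h1, h2, h3, h5, h7.eventually_ge_atTop ((m : ℝ) + 1), eventually_ge_atTop 1,
      tendsto_Lj.eventually_ge_atTop 0] with j h1 h2 h3 h5 h7 hj1 hL0
    refine ⟨h1, h2, ⟨h3, ?_⟩, ?_⟩
    · have haj : (1 : ℝ) ≤ aj j := by exact_mod_cast hj1.trans (le_aj j)
      have h8 : (⌊Real.exp (ρ m * Lj j)⌋₊ : ℝ) * (len (ls m) (aj j) : ℝ) ≤ aj j := by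
        have h9 : (⌊Real.exp (ρ m * Lj j)⌋₊ : ℝ) ≤ Real.exp (ρ m * Lj j) :=
          Nat.floor_le (Real.exp_pos _).le
        have h10 : (len (ls m) (aj j) : ℝ) ≤ Real.exp ((1 - ρ m) * Lj j) :=
          (len_le (hls0 m).le _).trans h5
        calc (⌊Real.exp (ρ m * Lj j)⌋₊ : ℝ) * (len (ls m) (aj j) : ℝ)
            ≤ Real.exp (ρ m * Lj j) * Real.exp ((1 - ρ m) * Lj j) := by gcongr
          _ = Real.exp (Lj j) := by
              rw [← Real.exp_add]
              ring_nf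
          _ = aj j := by rw [Lj, Real.exp_log (by linarith)]
      have h9 : ⌊Real.exp (ρ m * Lj j)⌋₊ * len (ls m) (aj j) ≤ aj j := by exact_mod_cast h8
      rw [aj_succ]
      omega
    · have h8 : Real.exp (ρ m * Lj j) < ⌊Real.exp (ρ m * Lj j)⌋₊ + 1 := Nat.lt_floor_add_one _
      have h9 : Real.exp (-(r₁ m * Lj j)) ≤ 1 := by
        rw [Real.exp_le_one_iff]
        have h10 : 0 < r₁ m := by
          simp only [hr₁]
          linarith [hrr m, hrr0 m]
        have : 0 ≤ r₁ m * Lj j := by positivity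
        linarith
      have h10 : Real.exp ((ρ m - r₁ m) * Lj j) =
          Real.exp (ρ m * Lj j) * Real.exp (-(r₁ m * Lj j)) := by
        rw [← Real.exp_add]
        ring_nf
      have h11 := Real.exp_pos (-(r₁ m * Lj j))
      rw [h10] at h7
      nlinarith
  obtain ⟨m, hm, hQm⟩ := exists_slow hQev
  obtain ⟨J₁, hJ₁⟩ := eventually_atTop.1 hQm
  set J := J₁ with hJ
  have hQJ : ∀ j, J ≤ j → Q (m j) j := fun j hj => hJ₁ j hj
  set s : ℕ → ℕ := fun j => len (ls (m j)) (aj j) with hs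
  set n : ℕ → ℕ := fun j => ⌊Real.exp (ρ (m j) * Lj j)⌋₊ with hn
  -- choices
  have hg : ∀ j, ∃ g : ℕ, J ≤ j → (∀ e, aj j ≤ e → e ≤ aj (j + 1) → ∃ w : Finset ℕ → ℝ,
      BLaw (sp p e (aj (j + 1))) p (K j) w ∧
      ∑ T ∈ (sp p e (aj (j + 1))).powerset with Miss (sp p e (aj (j + 1))) g T, w T ≤
        1 / ((j : ℝ) + 1) ^ 2) ∧
      ∀ x, aj j ≤ x → x + len (l + η (m j)) x ≤ aj (j + 1) →
        g ≤ (sp p x (x + len (l + η (m j)) x)).card := by
    intro j
    by_cases hj : J ≤ j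
    · obtain ⟨_, ⟨g, hg⟩, _⟩ := hQJ j hj
      exact ⟨g, fun _ => hg⟩
    · exact ⟨0, fun h => absurd h hj⟩
  choose g hg using hg
  have hw : ∀ j q, ∃ w : Finset ℕ → ℝ, J ≤ j → q ≤ n j →
      BLaw (blkS p s n j q) p (K j) w ∧
      (q = n j → ∑ T ∈ (blkS p s n j q).powerset with Miss (blkS p s n j q) (g j) T, w T ≤
        1 / ((j : ℝ) + 1) ^ 2) ∧
      (q < n j → Real.exp (-(r₁ (m j) * Lj j)) ≤ w ∅) := by
    intro j q
    by_cases hj : J ≤ j
    · obtain ⟨hz, _, ⟨hfit1, hfit2⟩, _⟩ := hQJ j hj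
      have hk := (hg j hj).1
      rcases lt_trichotomy q (n j) with hq | hq | hq
      · have h3 : (q + 1) * s j ≤ n j * s j := Nat.mul_le_mul_right _ hq
        have h4 : aj j + n j * s j ≤ aj (j + 1) := hfit2
        have h5 : aj j + q * s j + s j = aj j + (q + 1) * s j := by ring
        obtain ⟨w, hw1, hw2⟩ := hz (aj j + q * s j) (Nat.le_add_right _ _) (by
          change aj j + q * s j + s j ≤ aj (j + 1)
          rw [h5]
          omega)
        refine ⟨w, fun _ _ => ⟨?_, fun h => absurd h hq.ne, fun _ => hw2⟩⟩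
        unfold blkS bEnd
        rw [if_pos hq, ← h5]
        exact hw1
      · obtain ⟨w, hw1, hw2⟩ := hk (aj j + n j * s j) (Nat.le_add_right _ _) hfit2
        refine ⟨w, fun _ _ => ?_⟩
        subst hq
        have hb : blkS p s n j (n j) = sp p (aj j + n j * s j) (aj (j + 1)) := by
          unfold blkS bEnd
          rw [if_neg (lt_irrefl _)]
        rw [hb]
        exact ⟨hw1, fun _ => hw2, fun h => absurd h (lt_irrefl _)⟩
      · exact ⟨fun _ => 0, fun _ h => absurd h (not_le.2 hq)⟩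
    · exact ⟨fun _ => 0, fun h => absurd h hj⟩
  choose w hw using hw
  refine ⟨⟨hK1, J, s, n, g, fun j => Real.exp (-(r₁ (m j) * Lj j)), w, ?_, ?_, ?_, ?_, ?_⟩,
    ?_, ?_, ?_⟩
  · intro j hj
    exact (hQJ j hj).2.2.1
  · intro j hj q hq
    exact (hw j q hj hq).1
  · intro j hj
    exact (hw j (n j) hj le_rfl).2.1 rfl
  · intro j hj q hq
    exact (hw j q hj hq.le).2.2 hq
  · refine tendsto_atTop_mono' _ ?_ (tendsto_natCast_atTop_atTop.comp hm)
    filter_upwards [eventually_ge_atTop J] with j hj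
    exact (hQJ j hj).2.2.2
  · -- lengths
    intro l' hl'0 hl'
    obtain ⟨l'', h1, h2⟩ := exists_between hl'
    have h3 : ∀ᶠ j in atTop, l'' < ls (m j) := (hlslim.comp hm).eventually (lt_mem_nhds h2)
    filter_upwards [h3, len_block hl'0 h1] with j h3 h4 x hx1 hx2
    exact (h4 x hx1 hx2).trans (len_mono h3.le _)
  · intro l' hl'
    have h3 : Tendsto (fun j => η (m j)) atTop (𝓝 0) :=
      (tendsto_one_div_add_atTop_nhds_zero_nat (𝕜 := ℝ)).comp hm
    have h4 : ∀ᶠ j in atTop, η (m j) < l' - l := h3.eventually (gt_mem_nhds (by linarith))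
    filter_upwards [h4, eventually_ge_atTop J] with j h4 hj x hx1 hx2
    have h5 : len (l + η (m j)) x ≤ len l' x := len_mono (by linarith) _
    exact ((hg j hj).2 x hx1 (by omega)).trans
      (Finset.card_le_card (sp_mono le_rfl (by omega)))
  · intro c hc
    filter_upwards [tendsto_Lj.eventually (sq_le_exp (l := l) hc),
      tendsto_Lj.eventually_ge_atTop 0] with j h1 hL0
    have h9 : (n j : ℝ) ≤ Real.exp (ρ (m j) * Lj j) := Nat.floor_le (Real.exp_pos _).le
    have h10 : (s j : ℝ) ≤ Real.exp (c * Lj j) := by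
      refine (len_le (hls0 _).le _).trans (le_trans ?_ h1)
      exact mul_le_mul_of_nonneg_right (hlsl _).le (sq_nonneg _)
    have h11 : Real.exp (ρ (m j) * Lj j) ≤ Real.exp (rr t l * Lj j) := by
      apply Real.exp_le_exp.2
      apply mul_le_mul_of_nonneg_right _ hL0
      simp only [hρ]
      linarith [hrr (m j)]
    push_cast
    calc (n j : ℝ) * (s j : ℝ) ≤ Real.exp (rr t l * Lj j) * Real.exp (c * Lj j) := by
          gcongr
          exact h9.trans h11
      _ = Real.exp ((rr t l + c) * Lj j) := by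
          rw [← Real.exp_add]
          ring_nf

end Pool.Agent.LibCJ
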