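import Pool.Agent.LibCJ7.EVlem

/-!
ROW [CJ KILL]. Existence of the weights `PsiOK`.

Start with `ψ X = σ (b - a - 1) X.card`. For a gap `(u, v) ≠ (a, b)`, `a ≤ u`, `v ≤ b`, `u + g₀ < v`
replace `ψ` by `ψ - T ψ`,
`(T ψ) X = if (u = a ∨ u ∈ X) ∧ (v = b ∨ v ∈ X) then σ (v - u - 1) (X ∩ Ioo u v).card * ψ (X \ Ioo u v) else 0`.
Do this for all such gaps, in order of decreasing length `v - u`:
`Finset.induction_on_min_value (fun q : ℕ × ℕ => q.2 - q.1)` on finsets `s` of gaps gives: for every
finset `s` of such gaps there is `ψ` with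
* `ψ ∅ = 1` (`T ψ ∅ = 0`, as `(u, v) ≠ (a, b)` and `u ∉ ∅`, `v ∉ ∅`),
* `|ψ X| ≤ ε (1 + ε) ^ s.card` for `X ≠ ∅` (if `T ψ X ≠ 0` the set `X \ Ioo u v` contains `u` or `v`;
  if `X ∩ Ioo u v = ∅` then `(ψ - T ψ) X = 0` or `T ψ X = 0`, otherwise
  `|T ψ X| ≤ ε |ψ (X \ Ioo u v)|`),
* `orth` (`EV (T ψ · 1[S ⊆ ·])` is by `EV_split` with `U = Ioo u v` and `V = Ioo a b \ Ioo u v` a
  product with the factor `EV τ (Ioo u v) (fun A => if S ∩ Ioo u v ⊆ A then σ _ A.card else 0) = 0`,
  `EV_exch`),
* `kill` for all `(u', v') ∈ s`: for the new gap `(u, v)` it holds by `σ _ 0 = 1`; for an old gap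
  `(u', v')` of `X`: if `T ψ X ≠ 0` then the borders of `(u, v)` are occupied in `X`, so they are not
  in `Ioo u' v'` (for `u = a`, `v = b` clear). So `v' ≤ u`, or `v ≤ u'`, or (`u ≤ u'` and `v' ≤ v`).
  In the first two cases `(u', v')` is also a gap of `X \ Ioo u v` (`u', v' ∉ Ioo u v`), so
  `ψ (X \ Ioo u v) = 0`. In the third case the order of the gaps (`v - u ≤ v' - u'`) gives
  `(u', v') = (u, v)`, impossible because the new gap is not in `s`.
The number of all gaps is at most `(b - a) ^ 2` (they are in `Ico a b ×ˢ Ioc a b`).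
-/

namespace Pool.Agent.LibCJ

open Finset

open Classical in
/-- one step -/
private noncomputable def killT (σ : ℕ → ℕ → ℝ) (a b u v : ℕ) (ψ : Finset ℕ → ℝ) (X : Finset ℕ) :
    ℝ :=
  if (u = a ∨ u ∈ X) ∧ (v = b ∨ v ∈ X) then
    σ (v - u - 1) (X ∩ Ioo u v).card * ψ (X \ Ioo u v) else 0

private lemma killT_pos {σ : ℕ → ℕ → ℝ} {a b u v : ℕ} {ψ : Finset ℕ → ℝ} {X : Finset ℕ}
    (h : (u = a ∨ u ∈ X) ∧ (v = b ∨ v ∈ X)) :
    killT σ a b u v ψ X = σ (v - u - 1) (X ∩ Ioo u v).card * ψ (X \ Ioo u v) := by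
  unfold killT
  rw [if_pos h]

private lemma killT_neg {σ : ℕ → ℕ → ℝ} {a b u v : ℕ} {ψ : Finset ℕ → ℝ} {X : Finset ℕ}
    (h : ¬ ((u = a ∨ u ∈ X) ∧ (v = b ∨ v ∈ X))) : killT σ a b u v ψ X = 0 := by
  unfold killT
  rw [if_neg h]

private lemma killT_orth {σ : ℕ → ℕ → ℝ} {τ ε : ℝ} {D a b u v : ℕ} {ψ : Finset ℕ → ℝ}
    (hau : a ≤ u) (hvb : v ≤ b) (huv : u < v) (hσ : SigOK τ ε D (v - u - 1) (σ (v - u - 1)))
    {S : Finset ℕ} (hS : S ⊆ Ioo a b) (hSD : S.card ≤ D) :
    EV τ (Ioo a b) (fun X => if S ⊆ X then killT σ a b u v ψ X else 0) = 0 := by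
  classical
  set U := Ioo u v with hU
  set W := Ioo a b \ Ioo u v with hW
  have hUsub : U ⊆ Ioo a b := by
    intro m hm
    rw [hU, Finset.mem_Ioo] at hm
    rw [Finset.mem_Ioo]
    omega
  have hUW : U ∪ W = Ioo a b := by
    rw [hW, Finset.union_sdiff_of_subset hUsub]
  have hdisj : Disjoint U W := Finset.disjoint_sdiff
  set f : Finset ℕ → ℝ := fun A => if S ∩ U ⊆ A then σ (v - u - 1) A.card else 0 with hf
  set g : Finset ℕ → ℝ := fun B =>
    if S ∩ W ⊆ B ∧ (u = a ∨ u ∈ B) ∧ (v = b ∨ v ∈ B) then ψ B else 0 with hg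
  have hcongr : ∀ X ⊆ U ∪ W, (if S ⊆ X then killT σ a b u v ψ X else 0)
      = f (X ∩ U) * g (X ∩ W) := by
    intro X hX
    rw [hUW] at hX
    have e1 : X \ Ioo u v = X ∩ W := by
      ext m
      simp only [hW, Finset.mem_sdiff, Finset.mem_inter]
      constructor
      · rintro ⟨h1, h2⟩
        exact ⟨h1, hX h1, h2⟩
      · rintro ⟨h1, _, h2⟩
        exact ⟨h1, h2⟩
    have e2 : (u = a ∨ u ∈ X) ↔ (u = a ∨ u ∈ X ∩ W) := by
      constructor
      · rintro (h1 | h1)
        · exact Or.inl h1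
        · refine Or.inr (Finset.mem_inter.2 ⟨h1, ?_⟩)
          rw [hW, Finset.mem_sdiff]
          exact ⟨hX h1, fun h2 => lt_irrefl _ (Finset.mem_Ioo.1 h2).1⟩
      · rintro (h1 | h1)
        · exact Or.inl h1
        · exact Or.inr (Finset.mem_inter.1 h1).1
    have e3 : (v = b ∨ v ∈ X) ↔ (v = b ∨ v ∈ X ∩ W) := by
      constructor
      · rintro (h1 | h1)
        · exact Or.inl h1
        · refine Or.inr (Finset.mem_inter.2 ⟨h1, ?_⟩)
          rw [hW, Finset.mem_sdiff]
          exact ⟨hX h1, fun h2 => lt_irrefl _ (Finset.mem_Ioo.1 h2).2⟩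
      · rintro (h1 | h1)
        · exact Or.inl h1
        · exact Or.inr (Finset.mem_inter.1 h1).1
    have e4 : S ⊆ X ↔ S ∩ U ⊆ X ∩ U ∧ S ∩ W ⊆ X ∩ W := by
      constructor
      · intro h
        exact ⟨Finset.inter_subset_inter_right h, Finset.inter_subset_inter_right h⟩
      · rintro ⟨h1, h2⟩ m hm
        have h3 : m ∈ U ∪ W := by
          rw [hUW]
          exact hS hm
        rcases Finset.mem_union.1 h3 with h4 | h4
        · exact (Finset.mem_inter.1 (h1 (Finset.mem_inter.2 ⟨hm, h4⟩))).1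
        · exact (Finset.mem_inter.1 (h2 (Finset.mem_inter.2 ⟨hm, h4⟩))).1
    simp only [hf, hg]
    by_cases c1 : S ∩ U ⊆ X ∩ U
    · by_cases c2 : S ∩ W ⊆ X ∩ W
      · rw [if_pos (e4.2 ⟨c1, c2⟩), if_pos c1]
        by_cases c3 : (u = a ∨ u ∈ X) ∧ (v = b ∨ v ∈ X)
        · rw [killT_pos c3, if_pos ⟨c2, e2.1 c3.1, e3.1 c3.2⟩, e1]
        · rw [killT_neg c3, if_neg (fun h => c3 ⟨e2.2 h.2.1, e3.2 h.2.2⟩), mul_zero]
      · rw [if_neg (fun h => c2 (e4.1 h).2), if_pos c1, if_neg (fun h => c2 h.1), mul_zero]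
    · rw [if_neg (fun h => c1 (e4.1 h).1), if_neg c1, zero_mul]
  have h1 : EV τ (U ∪ W) (fun X => if S ⊆ X then killT σ a b u v ψ X else 0) =
      EV τ (U ∪ W) (fun X => f (X ∩ U) * g (X ∩ W)) := EV_congr hcongr
  rw [← hUW, h1, EV_split τ hdisj f g]
  have h2 : EV τ U f = 0 := by
    refine EV_exch (S := S ∩ U) Finset.inter_subset_right ?_
    have h3 : U.card = v - u - 1 := by rw [hU, Nat.card_Ioo]
    rw [h3]
    exact hσ.orth _ ((Finset.card_le_card Finset.inter_subset_left).trans hSD)
  rw [h2, zero_mul]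

theorem exists_psi {τ ε : ℝ} {D g₀ a b : ℕ} {σ : ℕ → ℕ → ℝ} (hg : 1 ≤ g₀) (hab : a + g₀ < b)
    (hε : 0 ≤ ε) (hσ : ∀ g, g₀ ≤ g → g ≤ b - a - 1 → SigOK τ ε D g (σ g)) :
    ∃ ψ : Finset ℕ → ℝ, PsiOK τ (ε * (1 + ε) ^ ((b - a) ^ 2)) D g₀ a b ψ := by
  classical
  have key : ∀ s : Finset (ℕ × ℕ),
      (∀ q ∈ s, a ≤ q.1 ∧ q.2 ≤ b ∧ q.1 + g₀ < q.2 ∧ q ≠ (a, b)) →
      ∃ ψ : Finset ℕ → ℝ, ψ ∅ = 1 ∧ (∀ X : Finset ℕ, X.Nonempty → |ψ X| ≤ ε * (1 + ε) ^ s.card) ∧
        (∀ S ⊆ Ioo a b, S.card ≤ D →
          EV τ (Ioo a b) (fun X => if S ⊆ X then ψ X else 0) = 0) ∧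
        (∀ q ∈ s, ∀ X ⊆ Ioo a b, (q.1 = a ∨ q.1 ∈ X) → (q.2 = b ∨ q.2 ∈ X) →
          Disjoint X (Ioo q.1 q.2) → ψ X = 0) := by
    intro s
    refine Finset.induction_on_min_value (fun q : ℕ × ℕ => q.2 - q.1) s ?_ ?_
    · intro _
      have h0 := hσ (b - a - 1) (by omega) le_rfl
      refine ⟨fun X => σ (b - a - 1) X.card, ?_, ?_, ?_, ?_⟩
      · simpa using h0.zero
      · intro X hX
        simp only [Finset.card_empty, pow_zero, mul_one]
        exact h0.small _ (Finset.card_pos.2 hX).ne'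
      · intro S hS hSD
        refine EV_exch hS ?_
        rw [Nat.card_Ioo]
        exact h0.orth _ hSD
      · intro q hq
        exact absurd hq (Finset.notMem_empty _)
    · rintro ⟨u, v⟩ s hqs hmin ih hall
      obtain ⟨ψ, p0, p1, p2, p3⟩ := ih (fun q hq => hall q (Finset.mem_insert_of_mem hq))
      obtain ⟨hau, hvb, huv, hne⟩ := hall (u, v) (Finset.mem_insert_self _ _)
      simp only at hau hvb huv hmin
      have hs := hσ (v - u - 1) (by omega) (by omega)
      have hne' : ¬ (u = a ∧ v = b) := by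
        rintro ⟨rfl, rfl⟩
        exact hne rfl
      have hE : (0 : ℝ) ≤ ε * (1 + ε) ^ s.card := by positivity
      refine ⟨fun X => ψ X - killT σ a b u v ψ X, ?_, ?_, ?_, ?_⟩
      · have h1 : killT σ a b u v ψ ∅ = 0 := by
          apply killT_neg
          rintro ⟨h1 | h1, h2 | h2⟩
          · exact hne' ⟨h1, h2⟩
          · exact absurd h2 (Finset.notMem_empty _)
          · exact absurd h1 (Finset.notMem_empty _)
          · exact absurd h1 (Finset.notMem_empty _)
        simp only [h1, p0, sub_zero]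
      · intro X hX
        simp only
        rw [Finset.card_insert_of_notMem hqs, pow_succ]
        by_cases c : (u = a ∨ u ∈ X) ∧ (v = b ∨ v ∈ X)
        · rw [killT_pos c]
          by_cases c2 : X ∩ Ioo u v = ∅
          · have h2 : X \ Ioo u v = X := by
              rw [Finset.sdiff_eq_self_iff_disjoint, Finset.disjoint_iff_inter_eq_empty]
              exact c2
            rw [c2, h2, Finset.card_empty, hs.zero, one_mul, sub_self, abs_zero]
            positivity
          · have h3 : (X \ Ioo u v).Nonempty := by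
              by_cases h4 : u ∈ X
              · refine ⟨u, Finset.mem_sdiff.2 ⟨h4, fun h5 => ?_⟩⟩
                exact lt_irrefl _ (Finset.mem_Ioo.1 h5).1
              · have h6 : v ∈ X := by
                  rcases c.2 with h7 | h7
                  · rcases c.1 with h8 | h8
                    · exact absurd ⟨h8, h7⟩ hne'
                    · exact absurd h8 h4
                  · exact h7
                refine ⟨v, Finset.mem_sdiff.2 ⟨h6, fun h5 => ?_⟩⟩
                exact lt_irrefl _ (Finset.mem_Ioo.1 h5).2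
            have h4 := p1 _ h3
            have h5 := p1 X hX
            have h6 := hs.small (X ∩ Ioo u v).card
              (Finset.card_pos.2 (Finset.nonempty_iff_ne_empty.2 c2)).ne'
            have h7 : |σ (v - u - 1) (X ∩ Ioo u v).card * ψ (X \ Ioo u v)| ≤
                ε * (ε * (1 + ε) ^ s.card) := by
              rw [abs_mul]
              exact mul_le_mul h6 h4 (abs_nonneg _) hε
            calc |ψ X - σ (v - u - 1) (X ∩ Ioo u v).card * ψ (X \ Ioo u v)|
                ≤ |ψ X| + |σ (v - u - 1) (X ∩ Ioo u v).card * ψ (X \ Ioo u v)| := by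
                  simpa [sub_eq_add_neg, abs_neg] using abs_add_le (ψ X)
                    (-(σ (v - u - 1) (X ∩ Ioo u v).card * ψ (X \ Ioo u v)))
              _ ≤ ε * (1 + ε) ^ s.card + ε * (ε * (1 + ε) ^ s.card) := add_le_add h5 h7
              _ = ε * ((1 + ε) ^ s.card * (1 + ε)) := by ring
        · rw [killT_neg c, sub_zero]
          have h5 := p1 X hX
          have h6 : (0 : ℝ) ≤ (1 + ε) ^ s.card := by positivity
          nlinarith [mul_nonneg hε (mul_nonneg hε h6)]
      · intro S hS hSD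
        have h1 : EV τ (Ioo a b) (fun X => if S ⊆ X then ψ X - killT σ a b u v ψ X else 0) =
            EV τ (Ioo a b) (fun X => (if S ⊆ X then ψ X else 0) -
              (if S ⊆ X then killT σ a b u v ψ X else 0)) := by
          apply EV_congr
          intro X _
          by_cases h : S ⊆ X
          · simp only [if_pos h]
          · simp only [if_neg h, sub_zero]
        rw [h1, EV_sub, p2 S hS hSD, killT_orth hau hvb (by omega) hs hS hSD, sub_zero]
      · intro q hq X hX hb1 hb2 hd
        simp only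
        rcases Finset.mem_insert.1 hq with rfl | hq'
        · simp only at hb1 hb2 hd
          rw [killT_pos ⟨hb1, hb2⟩]
          have c2 : X ∩ Ioo u v = ∅ := Finset.disjoint_iff_inter_eq_empty.1 hd
          have h2 : X \ Ioo u v = X := Finset.sdiff_eq_self_iff_disjoint.2 hd
          rw [c2, h2, Finset.card_empty, hs.zero, one_mul, sub_self]
        · rw [p3 q hq' X hX hb1 hb2 hd, zero_sub, neg_eq_zero]
          by_cases c : (u = a ∨ u ∈ X) ∧ (v = b ∨ v ∈ X)
          · rw [killT_pos c]
            obtain ⟨ga, gb, guv, _⟩ := hall q (Finset.mem_insert_of_mem hq')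
            have hm := hmin q hq'
            have n1 : u ≤ q.1 ∨ q.2 ≤ u := by
              rcases c.1 with h | h
              · left
                omega
              · by_contra hcon
                push Not at hcon
                exact Finset.disjoint_left.1 hd h (Finset.mem_Ioo.2 ⟨hcon.1, hcon.2⟩)
            have n2 : v ≤ q.1 ∨ q.2 ≤ v := by
              rcases c.2 with h | h
              · right
                omega
              · by_contra hcon
                push Not at hcon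
                exact Finset.disjoint_left.1 hd h (Finset.mem_Ioo.2 ⟨hcon.1, hcon.2⟩)
            have hcase : q.2 ≤ u ∨ v ≤ q.1 := by
              rcases n1 with n1 | n1
              · rcases n2 with n2 | n2
                · exact Or.inr n2
                · exfalso
                  apply hqs
                  have e1 : q.1 = u := by omega
                  have e2 : q.2 = v := by omega
                  have e3 : q = (u, v) := Prod.ext e1 e2
                  rw [← e3]
                  exact hq'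
              · exact Or.inl n1
            have hz : ψ (X \ Ioo u v) = 0 := by
              refine p3 q hq' _ (Finset.sdiff_subset.trans hX) ?_ ?_
                (Finset.disjoint_of_subset_left Finset.sdiff_subset hd)
              · rcases hb1 with h | h
                · exact Or.inl h
                · refine Or.inr (Finset.mem_sdiff.2 ⟨h, fun h5 => ?_⟩)
                  have := Finset.mem_Ioo.1 h5
                  omega
              · rcases hb2 with h | h
                · exact Or.inl h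
                · refine Or.inr (Finset.mem_sdiff.2 ⟨h, fun h5 => ?_⟩)
                  have := Finset.mem_Ioo.1 h5
                  omega
            rw [hz, mul_zero]
          · exact killT_neg c
  obtain ⟨ψ, p0, p1, p2, p3⟩ := key
    ((Ico a b ×ˢ Ioc a b).filter (fun q => q.1 + g₀ < q.2 ∧ q ≠ (a, b))) (by
      intro q hq
      obtain ⟨h1, h2, h3⟩ := Finset.mem_filter.1 hq
      obtain ⟨h4, h5⟩ := Finset.mem_product.1 h1
      rw [Finset.mem_Ico] at h4
      rw [Finset.mem_Ioc] at h5
      exact ⟨h4.1, h5.2, h2, h3⟩)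
  refine ⟨ψ, p0, ?_, p2, ?_⟩
  · intro X hX
    refine (p1 X hX).trans ?_
    refine mul_le_mul_of_nonneg_left ?_ hε
    refine pow_le_pow_right₀ (by linarith) ?_
    refine (Finset.card_filter_le _ _).trans ?_
    rw [Finset.card_product, Nat.card_Ico, Nat.card_Ioc, sq]
  · intro u v hau hvb huv hne X hX hb1 hb2 hd
    refine p3 (u, v) ?_ X hX hb1 hb2 hd
    rw [Finset.mem_filter, Finset.mem_product, Finset.mem_Ico, Finset.mem_Ioc]
    simp only
    exact ⟨⟨⟨hau, by omega⟩, by omega, hvb⟩, huv, hne⟩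

end Pool.Agent.LibCJ
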