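import Pool.Agent.LibCJ7.Sigma

/-!
Numerical bounds.
-/

namespace Pool.Agent.LibCJ

open Finset Filter Topology

/-- the rate function -/
noncomputable def rr (t l : ℝ) : ℝ := min (t / 2) l * (1 + Real.log (l / min (t / 2) l))

lemma rr_of_le {t l : ℝ} (hl : 0 < l) (h : l ≤ t / 2) : rr t l = l := by
  unfold rr
  rw [min_eq_right h, div_self hl.ne', Real.log_one]
  ring

lemma rr_of_ge {t l : ℝ} (h : t / 2 ≤ l) : rr t l = t / 2 * (1 + Real.log (l / (t / 2))) := by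
  unfold rr
  rw [min_eq_left h]

lemma rr_lt {t l l' : ℝ} (ht : 0 < t) (hl : 0 < l) (h : l < l') : rr t l < rr t l' := by
  have ht2 : 0 < t / 2 := by positivity
  have hmono : ∀ x y : ℝ, 0 < x → x < y → t / 2 * (1 + Real.log (x / (t / 2))) <
      t / 2 * (1 + Real.log (y / (t / 2))) := by
    intro x y hx hxy
    apply mul_lt_mul_of_pos_left _ ht2
    have : Real.log (x / (t / 2)) < Real.log (y / (t / 2)) :=
      Real.log_lt_log (by positivity) (by gcongr)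
    linarith
  rcases le_or_gt l' (t / 2) with h1 | h1
  · rw [rr_of_le (hl.trans h) h1, rr_of_le hl (h.le.trans h1)]
    exact h
  · rw [rr_of_ge h1.le]
    rcases le_or_gt l (t / 2) with h2 | h2
    · rw [rr_of_le hl h2]
      have h3 := hmono (t / 2) l' ht2 h1
      rw [div_self ht2.ne', Real.log_one] at h3
      linarith
    · rw [rr_of_ge h2.le]
      exact hmono l l' hl h

lemma rr_pos {t l : ℝ} (ht : 0 < t) (hl : 0 < l) : 0 < rr t l := by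
  unfold rr
  have h1 : 0 < min (t / 2) l := lt_min (by positivity) hl
  have h2 : 0 ≤ Real.log (l / min (t / 2) l) := by
    apply Real.log_nonneg
    rw [le_div_iff₀ h1, one_mul]
    exact min_le_right _ _
  positivity

/-- `1 - τ` in the denominator -/
lemma odds_bound {τ δ : ℝ} (h0 : 0 < τ) (h1 : τ ≤ δ) (h2 : δ ≤ 1 / 8) :
    τ / (1 - τ) ≤ (1 + 2 * δ) * τ ∧ τ / (1 - τ) ≤ 2 * δ ∧ 0 < τ / (1 - τ) := by
  have h3 : 0 < 1 - τ := by linarith
  have h4 : τ / (1 - τ) ≤ (1 + 2 * δ) * τ := by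
    rw [div_le_iff₀ h3]
    nlinarith [mul_nonneg h0.le (by linarith : (0 : ℝ) ≤ δ - τ), mul_pos h0 h0]
  refine ⟨h4, h4.trans ?_, by positivity⟩
  nlinarith

/-- the size of the constant -/
lemma C₀_le {g D : ℕ} {L τ b δ a d : ℝ} (hL : 0 ≤ L) (hδ : 1 ≤ δ * L) (hδ8 : δ ≤ 1 / 8)
    (h0 : 0 < τ) (h1 : τ ≤ δ) (hb : 1 < b) (hg : (g : ℝ) * τ ≤ a * L) (hD : (D : ℝ) ≤ d * L) :
    2 * C₀ g D (τ / (1 - τ)) b ≤
      Real.exp ((δ + 20 * δ * a + 2 * δ * d + d * Real.log b) * L +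
        (1 + 2 * δ) * ((g : ℝ) * τ) / b ^ 2) := by
  obtain ⟨o1, o2, o3⟩ := odds_bound h0 h1 hδ8
  set ρ := τ / (1 - τ) with hρ
  have hb0 : 0 < b := by linarith
  have hδ0 : 0 < δ := h0.trans_le h1
  have hlb : 0 < Real.log b := Real.log_pos hb
  have e1 : b ^ D = Real.exp (D * Real.log b) := by
    rw [mul_comm, Real.exp_mul, Real.exp_log hb0, Real.rpow_natCast]
  have key : ∀ A B C : ℝ, 2 * (Real.exp A * (Real.exp B * Real.exp C)) =
      Real.exp (Real.log 2 + (A + (B + C))) := by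
    intro A B C
    rw [Real.exp_add, Real.exp_add, Real.exp_add, Real.exp_log (by norm_num)]
  unfold C₀
  rw [e1, key]
  apply Real.exp_le_exp.2
  have hg0 : (0 : ℝ) ≤ g := Nat.cast_nonneg g
  have hD0 : (0 : ℝ) ≤ D := Nat.cast_nonneg D
  have hlog2 : Real.log 2 ≤ δ * L := by
    have := Real.log_two_lt_d9
    linarith
  have hgρ : (g : ℝ) * ρ ≤ (1 + 2 * δ) * (g * τ) := by
    calc (g : ℝ) * ρ ≤ g * ((1 + 2 * δ) * τ) := by gcongr
      _ = _ := by ring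
  have hgτ0 : 0 ≤ (g : ℝ) * τ := by positivity
  have f1 : 5 * (g : ℝ) * ρ ^ 2 ≤ 20 * δ * a * L := by
    have h3 : (g : ℝ) * ρ * ρ ≤ (2 * (g * τ)) * (2 * δ) := by
      have h4 : (g : ℝ) * ρ ≤ 2 * (g * τ) := by nlinarith
      exact mul_le_mul h4 o2 o3.le (by positivity)
    have h5 : (2 * ((g : ℝ) * τ)) * (2 * δ) ≤ (2 * (a * L)) * (2 * δ) := by gcongr
    nlinarith
  have f2 : (D : ℝ) * ρ ≤ 2 * δ * d * L := by
    calc (D : ℝ) * ρ ≤ (d * L) * (2 * δ) := by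
          exact mul_le_mul hD o2 o3.le (hD0.trans hD)
      _ = _ := by ring
  have f3 : (D : ℝ) * Real.log b ≤ d * Real.log b * L := by
    calc (D : ℝ) * Real.log b ≤ (d * L) * Real.log b := by gcongr
      _ = _ := by ring
  have f4 : (g : ℝ) * ρ / b ^ 2 ≤ (1 + 2 * δ) * (g * τ) / b ^ 2 := by gcongr
  have : Real.log 2 + (5 * (g : ℝ) * ρ ^ 2 + D * ρ + (D * Real.log b + g * ρ / b ^ 2)) ≤
      δ * L + (20 * δ * a * L + 2 * δ * d * L + (d * Real.log b * L +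
        (1 + 2 * δ) * (g * τ) / b ^ 2)) := by
    gcongr
  refine this.trans (le_of_eq ?_)
  ring

/-- small weights for the killed law -/
theorem kill_num {t l A : ℝ} (ht : 0 < t) (hl : t / 4 < l) :
    ∃ κ δ b : ℝ, 0 < κ ∧ 0 < δ ∧ δ ≤ 1 / 8 ∧ 1 < b ∧ ∀ (L τ : ℝ) (g D : ℕ), 0 ≤ L → 1 ≤ δ * L →
      0 < τ → τ ≤ δ → l * L ≤ g * τ → g * τ ≤ A * L → (D : ℝ) ≤ (t / 2 + δ) * L →
      2 * C₀ g D (τ / (1 - τ)) b * (1 - τ) ^ g ≤ Real.exp (-(κ * L)) := by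
  have hl0 : 0 < l := lt_trans (by positivity) hl
  set x : ℝ := 4 * l / t with hx
  have hx1 : 1 < x := by rw [hx, lt_div_iff₀ ht]; linarith
  have hx0 : 0 < x := by linarith
  set b : ℝ := Real.sqrt x with hb
  have hb1 : 1 < b := by
    rw [hb, show (1 : ℝ) = Real.sqrt 1 by simp]
    exact Real.sqrt_lt_sqrt zero_le_one hx1
  have hb2 : b ^ 2 = x := Real.sq_sqrt hx0.le
  have hlogb : Real.log b = Real.log x / 2 := Real.log_sqrt hx0.le
  have hF0 : t / 2 * Real.log b - l * (1 - 1 / b ^ 2) < 0 := by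
    rw [hlogb, hb2]
    have h1 := Real.log_lt_sub_one_of_pos hx0 hx1.ne'
    have h2 : l * (1 - 1 / x) = t / 4 * (x - 1) := by rw [hx]; field_simp
    rw [h2]
    have : 0 < t / 4 := by positivity
    nlinarith
  set κ : ℝ := -(t / 2 * Real.log b - l * (1 - 1 / b ^ 2)) / 2 with hκ
  have hκ0 : 0 < κ := by rw [hκ]; linarith
  obtain ⟨δ, hδ0, hδ1, hδ2⟩ : ∃ δ : ℝ, 0 < δ ∧ δ ≤ 1 / 8 ∧
      (δ + 20 * δ * A + 2 * δ * (t / 2 + δ) + (t / 2 + δ) * Real.log b) + 2 * δ * A / b ^ 2 -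
        l * (1 - 1 / b ^ 2) ≤ -κ := by
    have hc : ContinuousAt (fun δ : ℝ => (δ + 20 * δ * A + 2 * δ * (t / 2 + δ) +
        (t / 2 + δ) * Real.log b) + 2 * δ * A / b ^ 2 - l * (1 - 1 / b ^ 2)) 0 := by fun_prop
    have h0 : (fun δ : ℝ => (δ + 20 * δ * A + 2 * δ * (t / 2 + δ) +
        (t / 2 + δ) * Real.log b) + 2 * δ * A / b ^ 2 - l * (1 - 1 / b ^ 2)) 0 < -κ := by
      simp only
      rw [hκ]
      ring_nf
      ring_nf at hF0
      linarith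
    have h1 := hc.eventually (gt_mem_nhds h0)
    have h2 := h1.filter_mono (nhdsWithin_le_nhds (s := Set.Ioi (0 : ℝ)))
    have h3 : ∀ᶠ δ : ℝ in 𝓝[>] 0, δ < 1 / 8 :=
      (eventually_lt_nhds (by norm_num)).filter_mono nhdsWithin_le_nhds
    have h4 : ∀ᶠ δ : ℝ in 𝓝[>] 0, 0 < δ := eventually_mem_nhdsWithin
    obtain ⟨δ, a1, a2, a3⟩ := (h2.and (h3.and h4)).exists
    exact ⟨δ, a3, a2.le, a1.le⟩
  refine ⟨κ, δ, b, hκ0, hδ0, hδ1, hb1, fun L τ g D hL hδL hτ0 hτδ hg1 hg2 hD => ?_⟩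
  have h1τ : 0 < 1 - τ := by linarith
  have h1 := C₀_le (g := g) (D := D) hL hδL hδ1 hτ0 hτδ hb1 hg2 hD
  have h2 : (1 - τ) ^ g ≤ Real.exp (-((g : ℝ) * τ)) := by
    have h3 : 1 - τ ≤ Real.exp (-τ) := Real.one_sub_le_exp_neg τ
    calc (1 - τ) ^ g ≤ Real.exp (-τ) ^ g := pow_le_pow_left₀ h1τ.le h3 g
      _ = Real.exp (-((g : ℝ) * τ)) := by rw [← Real.exp_nat_mul]; ring_nf
  calc 2 * C₀ g D (τ / (1 - τ)) b * (1 - τ) ^ g
      ≤ Real.exp ((δ + 20 * δ * A + 2 * δ * (t / 2 + δ) + (t / 2 + δ) * Real.log b) * L +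
        (1 + 2 * δ) * ((g : ℝ) * τ) / b ^ 2) * Real.exp (-((g : ℝ) * τ)) :=
        mul_le_mul h1 h2 (pow_pos h1τ g).le (Real.exp_pos _).le
    _ ≤ Real.exp (-(κ * L)) := by
        rw [← Real.exp_add]
        apply Real.exp_le_exp.2
        have hb20 : 0 < b ^ 2 := by positivity
        have hb21 : 1 / b ^ 2 ≤ 1 := by
          rw [div_le_one hb20]
          nlinarith
        have h3 : (1 + 2 * δ) * ((g : ℝ) * τ) / b ^ 2 - g * τ ≤
            -(l * (1 - 1 / b ^ 2)) * L + 2 * δ * A / b ^ 2 * L := by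
          have h4 : 2 * δ * ((g : ℝ) * τ) / b ^ 2 ≤ 2 * δ * (A * L) / b ^ 2 := by gcongr
          have h5 : (l * L) * (1 - 1 / b ^ 2) ≤ (g * τ) * (1 - 1 / b ^ 2) :=
            mul_le_mul_of_nonneg_right hg1 (by linarith)
          have h6 : (1 + 2 * δ) * ((g : ℝ) * τ) / b ^ 2 - g * τ =
              2 * δ * ((g : ℝ) * τ) / b ^ 2 - (g * τ) * (1 - 1 / b ^ 2) := by ring
          have h7 : 2 * δ * (A * L) / b ^ 2 = 2 * δ * A / b ^ 2 * L := by ring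
          rw [h6]
          linarith
        nlinarith

/-- the size of the constant for the zone law -/
theorem zone_num {t l r : ℝ} (ht : 0 < t) (hl : t / 2 < l) (hr : rr t l < r) :
    ∃ δ b : ℝ, 0 < δ ∧ δ ≤ 1 / 8 ∧ 1 < b ∧ ∀ (L τ : ℝ) (g D : ℕ), 0 ≤ L → 1 ≤ δ * L →
      0 < τ → τ ≤ δ → g * τ ≤ (l + δ) * L → (D : ℝ) ≤ (t + δ) * L →
      2 * C₀ g D (τ / (1 - τ)) b ≤ Real.exp (r * L) := by
  have hl0 : 0 < l := lt_trans (by positivity) hl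
  set x : ℝ := 2 * l / t with hx
  have hx1 : 1 < x := by rw [hx, lt_div_iff₀ ht]; linarith
  have hx0 : 0 < x := by linarith
  set b : ℝ := Real.sqrt x with hb
  have hb1 : 1 < b := by
    rw [hb, show (1 : ℝ) = Real.sqrt 1 by simp]
    exact Real.sqrt_lt_sqrt zero_le_one hx1
  have hb2 : b ^ 2 = x := Real.sq_sqrt hx0.le
  have hlogb : Real.log b = Real.log x / 2 := Real.log_sqrt hx0.le
  have hF0 : t * Real.log b + l / b ^ 2 < r := by
    refine lt_of_eq_of_lt ?_ hr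
    rw [rr_of_ge hl.le, hlogb, hb2]
    have h2 : l / x = t / 2 := by rw [hx]; field_simp
    have h3 : l / (t / 2) = x := by rw [hx]; field_simp
    rw [h2, h3]
    ring
  obtain ⟨δ, hδ0, hδ1, hδ2⟩ : ∃ δ : ℝ, 0 < δ ∧ δ ≤ 1 / 8 ∧
      (δ + 20 * δ * (l + δ) + 2 * δ * (t + δ) + (t + δ) * Real.log b) +
        (1 + 2 * δ) * (l + δ) / b ^ 2 ≤ r := by
    have hc : ContinuousAt (fun δ : ℝ => (δ + 20 * δ * (l + δ) + 2 * δ * (t + δ) +
        (t + δ) * Real.log b) + (1 + 2 * δ) * (l + δ) / b ^ 2) 0 := by fun_prop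
    have h0 : (fun δ : ℝ => (δ + 20 * δ * (l + δ) + 2 * δ * (t + δ) +
        (t + δ) * Real.log b) + (1 + 2 * δ) * (l + δ) / b ^ 2) 0 < r := by
      simp only
      ring_nf
      ring_nf at hF0
      linarith
    have h1 := hc.eventually (gt_mem_nhds h0)
    have h2 := h1.filter_mono (nhdsWithin_le_nhds (s := Set.Ioi (0 : ℝ)))
    have h3 : ∀ᶠ δ : ℝ in 𝓝[>] 0, δ < 1 / 8 :=
      (eventually_lt_nhds (by norm_num)).filter_mono nhdsWithin_le_nhds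
    have h4 : ∀ᶠ δ : ℝ in 𝓝[>] 0, 0 < δ := eventually_mem_nhdsWithin
    obtain ⟨δ, a1, a2, a3⟩ := (h2.and (h3.and h4)).exists
    exact ⟨δ, a3, a2.le, a1.le⟩
  refine ⟨δ, b, hδ0, hδ1, hb1, fun L τ g D hL hδL hτ0 hτδ hg2 hD => ?_⟩
  refine (C₀_le (g := g) (D := D) hL hδL hδ1 hτ0 hτδ hb1 hg2 hD).trans ?_
  apply Real.exp_le_exp.2
  have hb20 : 0 < b ^ 2 := by positivity
  have h4 : (1 + 2 * δ) * ((g : ℝ) * τ) / b ^ 2 ≤ (1 + 2 * δ) * ((l + δ) * L) / b ^ 2 := by gcongr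
  have h5 : (1 + 2 * δ) * ((l + δ) * L) / b ^ 2 = (1 + 2 * δ) * (l + δ) / b ^ 2 * L := by ring
  nlinarith

end Pool.Agent.LibCJ
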