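import Pool.Agent.LibCJ7.Defs

/-!
ROW [CJ TR]. From the sites `1, …, M` to a finite set `S` of naturals with `M` elements.

Let `rk n = Nat.count (· ∈ S) n + 1` (`rk` is strictly increasing on `S`, a bijection from `S` to
`Ioo 0 (S.card + 1)`), and put `w' T = w (T.image rk)`. `T ↦ T.image rk` is a bijection from
`S.powerset` to `(Ioo 0 (S.card + 1)).powerset` which preserves cards and inclusions: this gives
`BLaw`. If `T` misses `≥ g` consecutive elements of `S` (`Miss S g T` with `x`, `y`; `g ≥ 1`), then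
`rk` maps `S ∩ Ico x y` onto `Ioc u (u + c)`, `u = Nat.count (· ∈ S) x`,
`c = (S ∩ Ico x y).card ≥ g`, and the image of `T` is disjoint from it: `Stretch S.card g (T.image rk)`.
-/

namespace Pool.Agent.LibCJ

open Finset

/-- rank of `n` in `S` -/
private def trRk (S : Finset ℕ) (n : ℕ) : ℕ := (S.filter (fun m => m < n)).card + 1

private lemma trRk_lt {S : Finset ℕ} {a b : ℕ} (ha : a ∈ S) (h : a < b) : trRk S a < trRk S b := by
  unfold trRk
  refine Nat.succ_lt_succ (Finset.card_lt_card ?_)
  rw [Finset.ssubset_iff_of_subset]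
  · exact ⟨a, Finset.mem_filter.2 ⟨ha, h⟩, fun h1 => lt_irrefl _ (Finset.mem_filter.1 h1).2⟩
  · intro m hm
    rw [Finset.mem_filter] at hm ⊢
    exact ⟨hm.1, hm.2.trans h⟩

private lemma trRk_inj {S : Finset ℕ} {a b : ℕ} (ha : a ∈ S) (hb : b ∈ S)
    (h : trRk S a = trRk S b) : a = b := by
  rcases lt_trichotomy a b with h1 | h1 | h1
  · exact absurd h (trRk_lt ha h1).ne
  · exact h1
  · exact absurd h (trRk_lt hb h1).ne'

private lemma trRk_mem {S : Finset ℕ} {a : ℕ} (ha : a ∈ S) :
    trRk S a ∈ Ioo 0 (S.card + 1) := by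
  rw [Finset.mem_Ioo]
  unfold trRk
  refine ⟨Nat.succ_pos _, Nat.succ_lt_succ (Finset.card_lt_card ?_)⟩
  rw [Finset.ssubset_iff_of_subset (Finset.filter_subset _ _)]
  exact ⟨a, ha, fun h1 => lt_irrefl _ (Finset.mem_filter.1 h1).2⟩

private lemma trRk_image (S : Finset ℕ) : S.image (trRk S) = Ioo 0 (S.card + 1) := by
  apply Finset.eq_of_subset_of_card_le
  · intro v hv
    obtain ⟨a, ha, rfl⟩ := Finset.mem_image.1 hv
    exact trRk_mem ha
  · rw [Finset.card_image_of_injOn (fun a ha b hb h => trRk_inj ha hb h), Nat.card_Ioo]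
    omega

private lemma trRk_image_sub {S J T : Finset ℕ} (hJ : J ⊆ S) (hT : T ⊆ S) :
    J.image (trRk S) ⊆ T.image (trRk S) ↔ J ⊆ T := by
  constructor
  · intro h a ha
    obtain ⟨b, hb, hab⟩ := Finset.mem_image.1 (h (Finset.mem_image_of_mem _ ha))
    rw [← trRk_inj (hT hb) (hJ ha) hab]
    exact hb
  · exact Finset.image_subset_image

private lemma tr_sum {S : Finset ℕ} (F : Finset ℕ → ℝ) :
    ∑ T ∈ S.powerset, F (T.image (trRk S)) = ∑ X ∈ (Ioo 0 (S.card + 1)).powerset, F X := by
  refine Finset.sum_nbij (fun T => T.image (trRk S)) ?_ ?_ ?_ ?_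
  · intro T hT
    rw [Finset.mem_powerset] at hT ⊢
    rw [← trRk_image S]
    exact Finset.image_subset_image hT
  · intro T hT T' hT' h
    rw [Finset.mem_coe, Finset.mem_powerset] at hT hT'
    exact Finset.Subset.antisymm ((trRk_image_sub hT hT').1 h.subset)
      ((trRk_image_sub hT' hT).1 h.symm.subset)
  · intro X hX
    rw [Finset.mem_coe, Finset.mem_powerset, ← trRk_image S] at hX
    refine ⟨S.filter (fun a => trRk S a ∈ X), ?_, ?_⟩
    · rw [Finset.mem_coe, Finset.mem_powerset]
      exact Finset.filter_subset _ _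
    · ext v
      simp only [Finset.mem_image, Finset.mem_filter]
      constructor
      · rintro ⟨a, ha, rfl⟩
        exact ha.2
      · intro hv
        obtain ⟨a, ha, rfl⟩ := Finset.mem_image.1 (hX hv)
        exact ⟨a, ⟨ha, hv⟩, rfl⟩
  · intro T _
    rfl

private lemma tr_miss {S : Finset ℕ} {g : ℕ} {T : Finset ℕ} (hT : T ⊆ S) (h : Miss S g T) :
    Stretch S.card g (T.image (trRk S)) := by
  obtain ⟨x, y, hc, hd⟩ := h
  set u := (S.filter (fun m => m < x)).card with hu
  have hmem : ∀ n ∈ S ∩ Ico x y, trRk S n ∈ Ioc u (u + (S ∩ Ico x y).card) := by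
    intro n hn
    obtain ⟨hnS, hn2⟩ := Finset.mem_inter.1 hn
    obtain ⟨hn3, hn4⟩ := Finset.mem_Ico.1 hn2
    have h1 : S.filter (fun m => m < n) = S.filter (fun m => m < x) ∪ (S ∩ Ico x n) := by
      ext m
      simp only [Finset.mem_filter, Finset.mem_union, Finset.mem_inter, Finset.mem_Ico]
      constructor
      · rintro ⟨h1, h2⟩
        rcases lt_or_ge m x with h3 | h3
        · exact Or.inl ⟨h1, h3⟩
        · exact Or.inr ⟨h1, h3, h2⟩
      · rintro (⟨h1, h2⟩ | ⟨h1, h2, h3⟩)
        · exact ⟨h1, by omega⟩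
        · exact ⟨h1, h3⟩
    have h2 : (S ∩ Ico x n).card < (S ∩ Ico x y).card := by
      apply Finset.card_lt_card
      rw [Finset.ssubset_iff_of_subset]
      · refine ⟨n, hn, fun h3 => ?_⟩
        have := (Finset.mem_Ico.1 (Finset.mem_inter.1 h3).2).2
        omega
      · intro m hm
        simp only [Finset.mem_inter, Finset.mem_Ico] at hm ⊢
        exact ⟨hm.1, hm.2.1, by omega⟩
    have h3 : (S.filter (fun m => m < n)).card = u + (S ∩ Ico x n).card := by
      rw [h1, Finset.card_union_of_disjoint]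
      rw [Finset.disjoint_left]
      intro m hm hm2
      have e1 := (Finset.mem_filter.1 hm).2
      have e2 := (Finset.mem_Ico.1 (Finset.mem_inter.1 hm2).2).1
      omega
    rw [Finset.mem_Ioc]
    unfold trRk
    rw [h3]
    omega
  have himg : (S ∩ Ico x y).image (trRk S) = Ioc u (u + (S ∩ Ico x y).card) := by
    apply Finset.eq_of_subset_of_card_le
    · intro v hv
      obtain ⟨a, ha, rfl⟩ := Finset.mem_image.1 hv
      exact hmem a ha
    · rw [Finset.card_image_of_injOn (fun a ha b hb h => trRk_inj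
        (Finset.mem_inter.1 ha).1 (Finset.mem_inter.1 hb).1 h), Nat.card_Ioc]
      omega
  have hle : u + (S ∩ Ico x y).card ≤ S.card := by
    rw [hu, ← Finset.card_union_of_disjoint]
    · apply Finset.card_le_card
      intro m hm
      rcases Finset.mem_union.1 hm with h1 | h1
      · exact (Finset.mem_filter.1 h1).1
      · exact (Finset.mem_inter.1 h1).1
    · rw [Finset.disjoint_left]
      intro m hm hm2
      have e1 := (Finset.mem_filter.1 hm).2
      have e2 := (Finset.mem_Ico.1 (Finset.mem_inter.1 hm2).2).1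
      omega
  refine ⟨u, by omega, ?_⟩
  rw [Finset.disjoint_left]
  intro v hv hv2
  obtain ⟨t, ht, rfl⟩ := Finset.mem_image.1 hv
  have h1 : trRk S t ∈ Ioc u (u + (S ∩ Ico x y).card) := by
    rw [Finset.mem_Ioc] at hv2 ⊢
    omega
  rw [← himg] at h1
  obtain ⟨n, hn, hnt⟩ := Finset.mem_image.1 h1
  have h2 := trRk_inj (Finset.mem_inter.1 hn).1 (hT ht) hnt
  rw [h2] at hn
  exact Finset.disjoint_left.1 hd ht hn

open Classical in
theorem transfer {S : Finset ℕ} {g K : ℕ} {τ δ : ℝ} (hg : 1 ≤ g) {w : Finset ℕ → ℝ}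
    (h : LibCramer.BLaw (Ioo 0 (S.card + 1)) (fun _ => τ) K w)
    (hδ : ∑ X ∈ (Ioo 0 (S.card + 1)).powerset with Stretch S.card g X, w X ≤ δ) :
    ∃ w' : Finset ℕ → ℝ, LibCramer.BLaw S (fun _ => τ) K w' ∧
      ∑ T ∈ S.powerset with Miss S g T, w' T ≤ δ := by
  have hpow : ∀ T ∈ S.powerset, T.image (trRk S) ∈ (Ioo 0 (S.card + 1)).powerset := by
    intro T hT
    rw [Finset.mem_powerset] at hT ⊢
    rw [← trRk_image S]
    exact Finset.image_subset_image hT
  refine ⟨fun T => w (T.image (trRk S)), ⟨?_, ?_, ?_⟩, ?_⟩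
  · intro T hT
    exact h.nonneg _ (hpow T hT)
  · rw [tr_sum w]
    exact h.sum
  · intro J hJ hJK
    have h1 : J.image (trRk S) ⊆ Ioo 0 (S.card + 1) := by
      rw [← trRk_image S]
      exact Finset.image_subset_image hJ
    have hcard : (J.image (trRk S)).card = J.card :=
      Finset.card_image_of_injOn (fun a ha b hb h => trRk_inj (hJ ha) (hJ hb) h)
    have h2 := h.incl _ h1 (by rw [hcard]; exact hJK)
    rw [Finset.prod_const, hcard] at h2
    rw [Finset.prod_const, ← h2, Finset.sum_filter, Finset.sum_filter,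
      ← tr_sum (fun X => if J.image (trRk S) ⊆ X then w X else 0)]
    refine Finset.sum_congr rfl fun T hT => ?_
    rw [Finset.mem_powerset] at hT
    simp only [trRk_image_sub hJ hT]
  · refine le_trans ?_ hδ
    rw [Finset.sum_filter, Finset.sum_filter,
      ← tr_sum (fun X => if Stretch S.card g X then w X else 0)]
    refine Finset.sum_le_sum fun T hT => ?_
    have hw := h.nonneg _ (hpow T hT)
    rw [Finset.mem_powerset] at hT
    by_cases h1 : Miss S g T
    · rw [if_pos h1, if_pos (tr_miss hT h1)]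
    · rw [if_neg h1]
      split_ifs
      · exact hw
      · exact le_rfl

end Pool.Agent.LibCJ
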