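import Pool.Agent.LibCJ7.EVlem

/-!
ROW [CJ ZO]. The law which gives `∅` a large probability.

`w X = pw τ S X * (1 + σ X.card / ε)`. It is nonnegative (`|σ j| ≤ ε` for `j ≠ 0`, `σ 0 = 1`), and for
`J ⊆ S`, `J.card ≤ D`: `∑ T with J ⊆ T, w T = EV τ S (fun X => if J ⊆ X then 1 + σ X.card / ε else 0)
= τ ^ J.card` by `EV_incl` and `EV_exch`. `w ∅ = (1 - τ) ^ S.card * (1 + 1 / ε)`.
-/

namespace Pool.Agent.LibCJ

open Finset

open Classical in
theorem zone_law {S : Finset ℕ} {τ ε : ℝ} {D : ℕ} {σ : ℕ → ℝ} (hτ0 : 0 < τ) (hτ1 : τ < 1)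
    (hε : 0 < ε) (hσ : SigOK τ ε D S.card σ) :
    ∃ w : Finset ℕ → ℝ, LibCramer.BLaw S (fun _ => τ) D w ∧
      (1 - τ) ^ S.card / ε ≤ w ∅ := by
  have hpw : ∀ T, 0 ≤ pw τ S T := fun T =>
    mul_nonneg (pow_nonneg hτ0.le _) (pow_nonneg (by linarith) _)
  have hincl : ∀ J ⊆ S, J.card ≤ D →
      ∑ T ∈ S.powerset with J ⊆ T, pw τ S T * (1 + σ T.card / ε) = ∏ _n ∈ J, τ := by
    intro J hJ hJD
    have h1 : ∑ T ∈ S.powerset with J ⊆ T, pw τ S T * (1 + σ T.card / ε) =
        EV τ S (fun X => (if J ⊆ X then 1 else 0) + (1 / ε) * (if J ⊆ X then σ X.card else 0)) := by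
      unfold EV
      rw [Finset.sum_filter]
      refine Finset.sum_congr rfl fun T _ => ?_
      by_cases hT : J ⊆ T
      · simp only [if_pos hT]
        ring
      · simp only [if_neg hT]
        ring
    rw [h1, EV_add, EV_const_mul, EV_incl τ hJ, EV_exch hJ (h := σ) (hσ.orth _ hJD),
      Finset.prod_const]
    ring
  refine ⟨fun X => pw τ S X * (1 + σ X.card / ε), ⟨?_, ?_, ?_⟩, ?_⟩
  · intro T _
    refine mul_nonneg (hpw T) ?_
    by_cases h : T.card = 0
    · rw [h, hσ.zero]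
      positivity
    · have h1 := hσ.small _ h
      have h2 : -ε ≤ σ T.card := (abs_le.1 h1).1
      have h3 : -1 ≤ σ T.card / ε := by
        rw [le_div_iff₀ hε]
        linarith
      linarith
  · have := hincl ∅ (Finset.empty_subset _) (by simp)
    simpa using this
  · intro J hJ hJD
    exact hincl J hJ hJD
  · simp only [pw, Finset.card_empty, pow_zero, one_mul, Finset.sdiff_empty, hσ.zero]
    have h1 : 0 ≤ (1 - τ) ^ S.card := pow_nonneg (by linarith) _
    have h2 : (1 - τ) ^ S.card / ε = (1 - τ) ^ S.card * (1 / ε) := by ring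
    rw [h2]
    exact mul_le_mul_of_nonneg_left (by linarith) h1

end Pool.Agent.LibCJ
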