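import Pool.Agent.LibCJ7.Stretch
import Pool.Agent.LibCJ7.Transfer
import Pool.Agent.LibCJ7.AddPts
import Pool.Agent.LibCJ7.Kill
import Pool.Agent.LibCJ7.Zone
import Pool.Agent.LibCJ7.Num

/-!
The laws of the blocks, finite form.
-/

namespace Pool.Agent.LibCJ

open Finset

lemma SigOK.mono {τ ε ε' : ℝ} {D g : ℕ} {s : ℕ → ℝ} (h : SigOK τ ε D g s) (hε : ε ≤ ε') :
    SigOK τ ε' D g s := ⟨h.zero, fun j hj => (h.small j hj).trans hε, h.orth⟩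

lemma PsiOK.mono {τ ε ε' : ℝ} {D g₀ a b : ℕ} {ψ : Finset ℕ → ℝ} (h : PsiOK τ ε D g₀ a b ψ)
    (hε : ε ≤ ε') : PsiOK τ ε' D g₀ a b ψ :=
  ⟨h.empty, fun X hX => (h.small X hX).trans hε, h.orth, h.kill⟩

lemma blaw_mono {S : Finset ℕ} {θ : ℕ → ℝ} {k k' : ℕ} {w : Finset ℕ → ℝ}
    (h : LibCramer.BLaw S θ k w) (hk : k' ≤ k) : LibCramer.BLaw S θ k' w :=
  ⟨h.nonneg, h.sum, fun J hJ hJc => h.incl J hJ (hJc.trans hk)⟩

lemma Miss.anti {S : Finset ℕ} {g : ℕ} {X Y : Finset ℕ} (hXY : X ⊆ Y) (h : Miss S g Y) :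
    Miss S g X := by
  obtain ⟨x, y, h1, h2⟩ := h
  exact ⟨x, y, h1, Finset.disjoint_of_subset_left hXY h2⟩

open Classical in
/-- the law which rarely misses `g₀` consecutive points -/
theorem killed_finite {S : Finset ℕ} {p : ℕ → ℝ} {τ ε₀ η : ℝ} {g₀ g₁ D r : ℕ} (hg : 1 ≤ g₀)
    (hgg : g₀ ≤ g₁) (hτ0 : 0 < τ) (hτ1 : τ < 1) (hp : ∀ n ∈ S, τ ≤ p n) (hp1 : ∀ n ∈ S, p n ≤ 1)
    (hε : 0 < ε₀) (hσ : ∀ g, g₀ ≤ g → g ≤ g₁ → ∃ s, SigOK τ ε₀ D g s)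
    (hsmall : 100 * ε₀ * ((g₁ : ℝ) + 1) ^ 4 ≤ 1)
    (hr : r ≤ D) (hη : 0 ≤ η) (hη1 : 1 ≤ η * ((g₁.choose r : ℝ) * (τ / (1 - τ)) ^ r)) :
    ∃ w : Finset ℕ → ℝ, LibCramer.BLaw S p (2 * D + 1) w ∧
      ∑ T ∈ S.powerset with Miss S g₀ T, w T ≤ 2 * Real.sqrt ε₀ + (S.card + 1) * η := by
  -- the weights
  choose! σ hσ' using hσ
  have hG1 : (1 : ℝ) ≤ (g₁ : ℝ) + 1 := by
    have : (0 : ℝ) ≤ g₁ := Nat.cast_nonneg _
    linarith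
  have hG2 : ((g₁ : ℝ) + 1) ^ 2 ≤ ((g₁ : ℝ) + 1) ^ 4 := pow_le_pow_right₀ hG1 (by norm_num)
  have hεG : ε₀ * ((g₁ : ℝ) + 1) ^ 2 ≤ 1 := by
    have h1 : ε₀ * ((g₁ : ℝ) + 1) ^ 2 ≤ ε₀ * ((g₁ : ℝ) + 1) ^ 4 := by gcongr
    have h2 : 0 ≤ ε₀ * ((g₁ : ℝ) + 1) ^ 4 := by positivity
    nlinarith
  have hpsi : ∀ u v, u + g₀ < v → v ≤ u + g₁ + 1 → ∃ ψ, PsiOK τ (3 * ε₀) D g₀ u v ψ := by
    intro u v huv huv'
    obtain ⟨ψ, hψ⟩ := exists_psi (σ := σ) hg huv hε.le (fun g h1 h2 => hσ' g h1 (by omega))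
    refine ⟨ψ, hψ.mono ?_⟩
    have h1 : (1 + ε₀) ^ ((v - u) ^ 2) ≤ 3 := by
      have h2 : 1 + ε₀ ≤ Real.exp ε₀ := by
        have := Real.add_one_le_exp ε₀
        linarith
      calc (1 + ε₀) ^ ((v - u) ^ 2) ≤ Real.exp ε₀ ^ ((v - u) ^ 2) :=
            pow_le_pow_left₀ (by linarith) h2 _
        _ = Real.exp (((v - u) ^ 2 : ℕ) * ε₀) := by rw [← Real.exp_nat_mul]
        _ ≤ Real.exp 1 := by
            apply Real.exp_le_exp.2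
            have h3 : ((v - u : ℕ) : ℝ) ≤ (g₁ : ℝ) + 1 := by
              have : v - u ≤ g₁ + 1 := by omega
              exact_mod_cast this
            have h4 : ((v - u : ℕ) : ℝ) ^ 2 ≤ ((g₁ : ℝ) + 1) ^ 2 :=
              pow_le_pow_left₀ (Nat.cast_nonneg _) h3 2
            calc (((v - u) ^ 2 : ℕ) : ℝ) * ε₀ = ε₀ * ((v - u : ℕ) : ℝ) ^ 2 := by push_cast; ring
              _ ≤ ε₀ * ((g₁ : ℝ) + 1) ^ 2 := by gcongr
              _ ≤ 1 := hεG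
        _ ≤ 3 := by
            have := Real.exp_one_lt_d9
            linarith
    nlinarith
  choose! ψ hψ using hpsi
  have h3ε : Real.sqrt (3 * ε₀) ≤ 2 * Real.sqrt ε₀ := by
    rw [show 2 * Real.sqrt ε₀ = Real.sqrt (4 * ε₀) by
      rw [Real.sqrt_mul (by norm_num), show Real.sqrt 4 = 2 by
        rw [show (4 : ℝ) = 2 ^ 2 by norm_num, Real.sqrt_sq (by norm_num)]]]
    exact Real.sqrt_le_sqrt (by linarith)
  have hsm : 4 * Real.sqrt (3 * ε₀) * ((g₁ : ℝ) + 1) ^ 2 ≤ 1 := by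
    have h1 : 8 * Real.sqrt ε₀ * ((g₁ : ℝ) + 1) ^ 2 ≤ 1 := by
      have h2 : (8 * Real.sqrt ε₀ * ((g₁ : ℝ) + 1) ^ 2) ^ 2 ≤ 1 ^ 2 := by
        have h3 : (8 * Real.sqrt ε₀ * ((g₁ : ℝ) + 1) ^ 2) ^ 2 =
            64 * (Real.sqrt ε₀ ^ 2) * ((g₁ : ℝ) + 1) ^ 4 := by ring
        rw [h3, Real.sq_sqrt hε.le]
        have h4 : 0 ≤ ε₀ * ((g₁ : ℝ) + 1) ^ 4 := by positivity
        nlinarith
      exact (pow_le_pow_iff_left₀ (by positivity) zero_le_one two_ne_zero).1 h2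
    have h2 : 4 * Real.sqrt (3 * ε₀) * ((g₁ : ℝ) + 1) ^ 2 ≤
        4 * (2 * Real.sqrt ε₀) * ((g₁ : ℝ) + 1) ^ 2 := by gcongr
    linarith
  obtain ⟨w0, hw0, hs0⟩ := exists_stretch_law (M := S.card) (ψ := ψ) hg hgg hτ0 hτ1
    (by positivity : 0 < 3 * ε₀) hsm (fun u v h1 h2 _ => hψ u v h1 h2) hr hη hη1
  obtain ⟨w1, hw1, hs1⟩ := transfer hg hw0 hs0
  obtain ⟨w, hw, _, hA⟩ := add_points hτ0.le hτ1 hw1 hp hp1
  refine ⟨w, hw, (hA (Miss S g₀) fun X Y hXY hY => hY.anti hXY).trans (hs1.trans ?_)⟩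
  linarith

open Classical in
/-- the law which is often empty -/
theorem zone_finite {S : Finset ℕ} {p : ℕ → ℝ} {τ b δ : ℝ} {D : ℕ} (hD : D ≤ S.card)
    (hS : 0 < S.card) (hτ0 : 0 < τ) (hτδ : τ ≤ δ) (hδ : δ ≤ 1 / 8)
    (hp : ∀ n ∈ S, τ ≤ p n ∧ p n ≤ (1 + δ) * τ) (hb : 1 < b)
    (hC : 2 * C₀ S.card D (τ / (1 - τ)) b * (1 - τ) ^ S.card ≤ 1) :
    ∃ w : Finset ℕ → ℝ, LibCramer.BLaw S p D w ∧
      Real.exp (-(4 * δ * (S.card * τ))) / (2 * C₀ S.card D (τ / (1 - τ)) b) ≤ w ∅ := by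
  have hτ1 : τ < 1 := by linarith
  have h1τ : 0 < 1 - τ := by linarith
  have hδ0 : 0 < δ := hτ0.trans_le hτδ
  obtain ⟨o1, o2, o3⟩ := odds_bound hτ0 hτδ hδ
  obtain ⟨s, hs⟩ := exists_sigma hD hS hτ0 rfl (o2.trans (by linarith)) hτ1 hb hC
  have hC0 := C₀_pos (g := S.card) (D := D) (ρ := τ / (1 - τ)) hb
  set c0 := C₀ S.card D (τ / (1 - τ)) b with hc0
  have hq : 0 < (1 - τ) ^ S.card := pow_pos h1τ _
  obtain ⟨w0, hw0, he0⟩ := zone_law hτ0 hτ1 (by positivity) hs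
  have hp1 : ∀ n ∈ S, p n ≤ 1 := fun n hn => (hp n hn).2.trans (by nlinarith)
  obtain ⟨w, hw, he, _⟩ := add_points hτ0.le hτ1 hw0 (fun n hn => (hp n hn).1) hp1
  refine ⟨w, hw, le_trans ?_ he⟩
  have h1 : (1 - τ) ^ S.card / (2 * c0 * (1 - τ) ^ S.card) = 1 / (2 * c0) := by
    field_simp
  rw [h1] at he0
  have h2 : Real.exp (-(4 * δ * (S.card * τ))) ≤ ∏ n ∈ S, (1 - (p n - τ) / (1 - τ)) := by
    have h3 : ∀ n ∈ S, Real.exp (-(4 * δ * τ)) ≤ 1 - (p n - τ) / (1 - τ) := by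
      intro n hn
      have h4 : (p n - τ) / (1 - τ) ≤ 2 * δ * τ := by
        rw [div_le_iff₀ h1τ]
        have := (hp n hn).2
        nlinarith [mul_pos hδ0 hτ0]
      have h5 : 0 < 2 * δ * τ := by positivity
      have h6 : 2 * δ * τ ≤ 1 / 2 := by nlinarith
      have h7 : Real.exp (-(4 * δ * τ)) ≤ 1 - 2 * δ * τ := by
        have h8 : 0 < 1 - 2 * δ * τ := by linarith
        rw [← Real.log_le_log_iff (Real.exp_pos _) h8, Real.log_exp]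
        have h9 := Real.log_le_sub_one_of_pos (inv_pos.2 h8)
        rw [Real.log_inv] at h9
        have h10 : (1 - 2 * δ * τ)⁻¹ - 1 ≤ 4 * δ * τ := by
          rw [inv_eq_one_div, div_sub_one h8.ne', div_le_iff₀ h8]
          nlinarith
        linarith
      linarith
    calc Real.exp (-(4 * δ * (S.card * τ))) = ∏ _n ∈ S, Real.exp (-(4 * δ * τ)) := by
          rw [Finset.prod_const, ← Real.exp_nat_mul]
          ring_nf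
      _ ≤ _ := Finset.prod_le_prod (fun _ _ => (Real.exp_pos _).le) h3
  calc Real.exp (-(4 * δ * (S.card * τ))) / (2 * c0)
      = 1 / (2 * c0) * Real.exp (-(4 * δ * (S.card * τ))) := by ring
    _ ≤ w0 ∅ * ∏ n ∈ S, (1 - (p n - τ) / (1 - τ)) :=
        mul_le_mul he0 h2 (Real.exp_pos _).le (le_trans (by positivity) he0)

end Pool.Agent.LibCJ
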