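import Pool.Agent.LibCJ7.ExistsPlan
import Pool.Agent.LibCJ7.Dyad
import Pool.Agent.LibCI7.Main

/-!
Every value between `min 1 (t / 4)` and `raoBound t` occurs.
-/

namespace Pool.Agent.LibCJ

open Finset Filter Topology MeasureTheory ProbabilityTheory Pool.Agent.LibCramer
open scoped ENNReal

attribute [local instance 2000] msFinset

lemma rr_le_one {t l : ℝ} (ht : 0 < t) (hl0 : 0 < l) (hl : l ≤ raoBound t) : rr t l ≤ 1 := by
  unfold raoBound at hl
  rcases le_or_gt l (t / 2) with h1 | h1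
  · rw [rr_of_le hl0 h1]
    split_ifs at hl with h2
    · exact hl
    · linarith
  · rw [rr_of_ge h1.le]
    split_ifs at hl with h2
    · linarith
    · have ht2 : 0 < t / 2 := by positivity
      have h3 : l / (t / 2) ≤ Real.exp (2 / t - 1) := by
        rw [div_le_iff₀ ht2]
        linarith
      have h4 : Real.log (l / (t / 2)) ≤ 2 / t - 1 := by
        rw [Real.log_le_iff_le_exp (by positivity)]
        exact h3
      have h5 : t / 2 * (1 + Real.log (l / (t / 2))) ≤ t / 2 * (2 / t) := by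
        apply mul_le_mul_of_nonneg_left _ ht2.le
        linarith
      have h6 : t / 2 * (2 / t) = 1 := by field_simp
      linarith

/-- the orders of the product rule in the ranges -/
noncomputable def Kk (t : ℝ) (k : ℕ → ℕ) (j : ℕ) : ℕ :=
  max (Kj t j) ((Ioc (aj j) (aj (j + 1))).sup k)

lemma Kk_pos (t : ℝ) (k : ℕ → ℕ) (j : ℕ) : 1 ≤ Kk t k j :=
  le_max_of_le_left (Nat.le_add_left 1 _)

lemma le_Kk_k (t : ℝ) (k : ℕ → ℕ) {n : ℕ} (hn : n ≠ 0) : k n ≤ Kk t k (Nat.log 2 n) :=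
  le_max_of_le_right (Finset.le_sup ((mem_range_iff hn).2 rfl))

/-- the product rule of order `t log n` in the construction -/
lemma le_Kk {t : ℝ} (ht : 0 < t) (k : ℕ → ℕ) {n : ℕ} (hn : n ≠ 0) :
    t * Real.log (n : ℝ) ≤ Kk t k (Nat.log 2 n) := by
  have h1 : n ∈ Ioc (aj (Nat.log 2 n)) (aj (Nat.log 2 n + 1)) := (mem_range_iff hn).2 rfl
  obtain ⟨_, h2⟩ := mem_Ioc.1 h1
  have h3 : Real.log (n : ℝ) ≤ Real.log (aj (Nat.log 2 n + 1) : ℝ) :=
    Real.log_le_log (by exact_mod_cast (by omega : 0 < n)) (by exact_mod_cast h2)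
  have h4 : t * Real.log (n : ℝ) ≤ Kj t (Nat.log 2 n) := by
    unfold Kj
    push_cast
    have h4 := Nat.lt_floor_add_one (t * Real.log (aj (Nat.log 2 n + 1) : ℝ))
    have h5 : t * Real.log (n : ℝ) ≤ t * Real.log (aj (Nat.log 2 n + 1) : ℝ) := by gcongr
    linarith
  refine h4.trans ?_
  exact_mod_cast le_max_left _ _

lemma Kk_ok {t : ℝ} (ht : 0 < t) {k : ℕ → ℕ}
    (hk : ∀ δ : ℝ, 0 < δ → ∀ᶠ n : ℕ in atTop, (k n : ℝ) ≤ (t + δ) * Real.log n) :
    KOK t (Kk t k) := by
  intro δ hδ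
  have hδ' : 0 < δ / (2 * (t + δ)) := by positivity
  filter_upwards [Kj_bounds ht hδ, tendsto_aj.eventually (eventually_forall_ge' (hk _ (half_pos hδ))),
    log_upper hδ', tendsto_Lj.eventually_ge_atTop 0] with j h1 h2 h3 hL0
  constructor
  · refine h1.1.trans ?_
    exact_mod_cast le_max_left _ _
  · have h4 : (((Ioc (aj j) (aj (j + 1))).sup k : ℕ) : ℝ) ≤ (t + δ) * Lj j := by
      have h5 : (Ioc (aj j) (aj (j + 1))).sup k ≤ ⌊(t + δ) * Lj j⌋₊ := by
        refine Finset.sup_le fun n hn => Nat.le_floor ?_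
        obtain ⟨hn1, hn2⟩ := mem_Ioc.1 hn
        have h6 := h2 n hn1.le
        obtain ⟨h7, h8⟩ := h3 n hn1.le hn2
        have h9 : (t + δ / 2) * Real.log (n : ℝ) ≤
            (t + δ / 2) * ((1 + δ / (2 * (t + δ))) * Lj j) := by gcongr
        have h10 : (t + δ / 2) * (δ / (2 * (t + δ))) ≤ δ / 2 := by
          calc (t + δ / 2) * (δ / (2 * (t + δ))) ≤ (t + δ) * (δ / (2 * (t + δ))) := by
                gcongr
                linarith
            _ = δ / 2 := by field_simp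
        have h11 : (t + δ / 2) * ((1 + δ / (2 * (t + δ))) * Lj j) ≤ (t + δ) * Lj j := by
          have h12 := mul_le_mul_of_nonneg_right h10 hL0
          linarith
        linarith
      exact (Nat.cast_le.2 h5).trans (Nat.floor_le (by positivity))
    unfold Kk
    rw [Nat.cast_max]
    exact max_le h1.2 h4

lemma locDens_congr {p q : ℕ → ℝ} (h : ∀ᶠ n in atTop, q n = p n) (hp : LocDens p) : LocDens q := by
  refine ⟨hp.1.congr' (h.mono fun n hn => hn.symm), fun l hl => ?_⟩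
  refine (hp.2 l hl).congr' ?_
  filter_upwards [eventually_forall_ge' h] with m hm
  congr 1
  refine Finset.sum_congr rfl fun n hn => ?_
  exact (hm n (mem_Ioc.1 hn).1.le).symm

lemma log_sq_small {l c : ℝ} (hl : 0 < l) (hc : 0 < c) :
    ∀ᶠ j : ℕ in atTop, (len l (aj (j + 1)) : ℝ) ≤ Real.exp (c * Lj j) := by
  filter_upwards [tendsto_Lj.eventually (sq_le_exp (l := 4 * l) hc), eventually_ge_atTop 1,
    tendsto_Lj.eventually_ge_atTop 2] with j h1 hj hL
  have h2 := len_le hl.le (aj (j + 1))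
  have h3 := log_aj_succ hj
  have h4 : 0 ≤ Real.log (aj (j + 1) : ℝ) := Real.log_natCast_nonneg _
  have h5 : Real.log (aj (j + 1) : ℝ) ^ 2 ≤ (2 * Lj j) ^ 2 := pow_le_pow_left₀ h4 (by linarith) 2
  calc (len l (aj (j + 1)) : ℝ) ≤ l * Real.log (aj (j + 1) : ℝ) ^ 2 := h2
    _ ≤ l * (2 * Lj j) ^ 2 := by gcongr
    _ = 4 * l * Lj j ^ 2 := by ring
    _ ≤ _ := h1

/-- the constructed random set has Cramer constant `l` -/
theorem exists_exact {p : ℕ → ℝ} (hp : GoodDyad p) {t l : ℝ} (ht : 0 < t) (hlt : t / 4 ≤ l)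
    (hl : l ≤ raoBound t) {k : ℕ → ℕ}
    (hk : ∀ δ : ℝ, 0 < δ → ∀ᶠ n : ℕ in atTop, (k n : ℝ) ≤ (t + δ) * Real.log n) :
    ∃ (Ω : Type) (_ : MeasurableSpace Ω) (μ : Measure Ω) (_ : IsProbabilityMeasure μ)
      (E : ℕ → Set Ω), (∀ n, MeasurableSet (E n)) ∧ IndepUpTo E μ k ∧
      (∀ᶠ n in atTop, μ.real (E n) = p n) ∧
      ∀ᵐ ω ∂μ, {n | ω ∈ E n}.Infinite ∧ cramer {n | ω ∈ E n} = ENNReal.ofReal l := by
  have hl0 : 0 < l := lt_of_lt_of_le (by positivity) hlt
  obtain ⟨P, hA, hB, hC⟩ := exists_plan hp (Kk_pos t k) (Kk_ok ht hk) ht hlt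
    (rr_le_one ht hl0 hl)
  have hP := P.prob
  have hreal : ∀ᶠ n in atTop, P.μ.real (P.E n) = p n := by
    filter_upwards [eventually_ge_atTop (2 ^ P.J)] with n hn
    exact P.real_E hn
  have hloc : LocDens (fun n => P.μ.real (P.E n)) := locDens_congr hreal hp.loc
  have hind := P.indep
  have hk' : ∀ᶠ n : ℕ in atTop, t * Real.log (n : ℝ) ≤ (fun n => Kk t k (Nat.log 2 n)) n := by
    filter_upwards [eventually_ge_atTop 1] with n hn
    exact le_Kk ht k (by omega)
  -- the product rule of order `k`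
  have hindk : IndepUpTo P.E P.μ k := by
    intro S hS
    by_cases hsm : 0 ∈ S
    · have h0 := P.real_E_zero (n := 0) (by positivity)
      rw [Finset.prod_eq_zero hsm h0]
      refine le_antisymm ?_ measureReal_nonneg
      rw [← h0]
      exact measureReal_mono (Set.biInter_subset_of_mem hsm)
    · refine hind S fun j hj => (hS j hj).trans (le_Kk_k t k ?_)
      rintro rfl
      exact hsm hj
  refine ⟨ℕ → Finset ℕ, inferInstance, P.μ, hP, P.E, P.measE, hindk, hreal, ?_⟩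
  -- all windows are hit
  have hhit : ∀ l', l < l' → ∀ᵐ ω ∂P.μ, ∀ᶠ m : ℕ in atTop,
      ∃ b ∈ {n | ω ∈ P.E n}, m < b ∧ b ≤ m + len l' m := by
    intro l' hl'
    have hl'0 : 0 < l' := hl0.trans hl'
    set κ := min (t / 2) l with hκ
    have hκ0 : 0 < κ := lt_min (by positivity) hl0
    have hκl : κ ≤ l := min_le_right _ _
    have hrr : rr t l < κ * (1 + Real.log (l' / κ)) := by
      unfold rr
      rw [← hκ]
      apply mul_lt_mul_of_pos_left _ hκ0
      have := Real.log_lt_log (x := l / κ) (y := l' / κ) (by positivity) (by gcongr)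
      linarith
    obtain ⟨a, ha1, ha2⟩ := exists_between hrr
    have ha0 : 0 < a := (rr_pos ht hl0).trans ha1
    set c := (a - rr t l) / 2 with hc
    have hc0 : 0 < c := by rw [hc]; linarith
    have hav := avoid_le_rpow P.measE hind hloc hk' hκ0 (by
      have := min_le_left (t / 2) l
      linarith) (hκl.trans_lt hl') ha2
    refine P.ae_hit hl'0.le hc0 ha0.le hav ?_ (hB l' hl')
    have hcc : 0 < c / 2 := by positivity
    have hrr0 := rr_pos ht hl0
    have hexp : Tendsto (fun j => Real.exp (c / 2 * Lj j)) atTop atTop :=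
      Real.tendsto_exp_atTop.comp (tendsto_Lj.const_mul_atTop hcc)
    filter_upwards [hC (c / 2) hcc, log_sq_small hl'0 hrr0, hexp.eventually_ge_atTop 2,
      tendsto_Lj.eventually_ge_atTop 0] with j h1 h2 h3 hL0
    have h4 : Real.exp (rr t l * Lj j) ≤ Real.exp ((rr t l + c / 2) * Lj j) := by
      apply Real.exp_le_exp.2
      apply mul_le_mul_of_nonneg_right _ hL0
      linarith
    have h5 : Real.exp ((a - c) * Lj j) =
        Real.exp ((rr t l + c / 2) * Lj j) * Real.exp (c / 2 * Lj j) := by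
      rw [← Real.exp_add]
      congr 1
      rw [hc]
      ring
    rw [h5]
    push_cast at h1 ⊢
    have h6 := Real.exp_pos ((rr t l + c / 2) * Lj j)
    nlinarith
  have hcount : ∀ᵐ ω ∂P.μ, ∀ n : ℕ, ∀ᶠ m : ℕ in atTop,
      ∃ b ∈ {n | ω ∈ P.E n}, m < b ∧ b ≤ m + len (l + 1 / ((n : ℝ) + 1)) m :=
    ae_all_iff.2 fun n => hhit _ (by
      have : (0 : ℝ) < 1 / ((n : ℝ) + 1) := by positivity
      linarith)
  filter_upwards [hcount, P.ae_empty] with ω hω1 hω2
  have hinf : {n | ω ∈ P.E n}.Infinite := infinite_of_hit (hω1 0)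
  refine ⟨hinf, le_antisymm ?_ ?_⟩
  · have h2 : ∀ n : ℕ, cramer {n | ω ∈ P.E n} ≤ ENNReal.ofReal (l + 1 / ((n : ℝ) + 1)) :=
      fun n => cramer_le hinf (add_nonneg hl0.le (by positivity)) (hω1 n)
    have h3 : Tendsto (fun n : ℕ => ENNReal.ofReal (l + 1 / ((n : ℝ) + 1))) atTop
        (𝓝 (ENNReal.ofReal l)) := by
      apply ENNReal.tendsto_ofReal
      have := (tendsto_one_div_add_atTop_nhds_zero_nat (𝕜 := ℝ)).const_add l
      simpa using this
    exact ge_of_tendsto' h3 h2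
  · refine le_of_forall_lt_imp_le_of_dense fun b hb => ?_
    have hbt : b ≠ ∞ := (hb.trans_le le_top).ne
    rcases eq_or_ne b 0 with hb0 | hb0
    · rw [hb0]
      exact bot_le
    · have h1 : 0 < b.toReal := ENNReal.toReal_pos hb0 hbt
      have h2 : b.toReal < l := (ENNReal.lt_ofReal_iff_toReal_lt hbt).1 hb
      have h3 := P.le_cramer_of h1.le (hA _ h1 h2) hinf hω2
      rwa [ENNReal.ofReal_toReal hbt] at h3

/-- independent events with given probabilities -/
theorem exists_independent {p : ℕ → ℝ} (hp0 : ∀ n, 0 ≤ p n) (hp1 : ∀ᶠ n in atTop, p n ≤ 1) :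
    ∃ (Ω : Type) (_ : MeasurableSpace Ω) (μ : Measure Ω) (_ : IsProbabilityMeasure μ)
      (E : ℕ → Set Ω), (∀ n, MeasurableSet (E n)) ∧ (∀ k, IndepUpTo E μ k) ∧
      (∀ᶠ n in atTop, μ.real (E n) = p n) := by
  classical
  obtain ⟨N, hN⟩ := eventually_atTop.1 hp1
  set S : ℕ → Finset ℕ := fun i => if N ≤ i then {i} else ∅ with hS
  have hS1 : ∀ i n, n ∈ S i → N ≤ n := by
    intro i n hn
    simp only [hS] at hn
    split_ifs at hn with h
    · rw [Finset.mem_singleton] at hn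
      omega
    · simp at hn
  have hB : ∀ (K : ℕ → ℕ) i, BLaw (S i) p (K i) (LibBar93.pw (S i) p) := fun K i =>
    blaw_prod _ _ _ (fun n _ => hp0 n) (fun n hn => hN n (hS1 i n hn))
  have hP := bspace_prob (hB fun _ => 1)
  refine ⟨ℕ → Finset ℕ, inferInstance, bspace S (fun i => LibBar93.pw (S i) p), hP, bev id,
    fun n => measurableSet_bev id n, fun k => ?_, ?_⟩
  · exact bev_indep (hB fun i => k i + 1) (fun i => Nat.le_add_left 1 _) fun n _ => Nat.le_succ _
  · filter_upwards [eventually_ge_atTop N] with n hn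
    rw [bev_real (hB fun _ => 1) (fun _ => le_rfl), if_pos]
    simp only [hS, id, if_pos hn, Finset.mem_singleton]

/-- **Every value between the bounds occurs.** -/
theorem exists_value {p : ℕ → ℝ} (hp : GoodDyad p) {t l : ℝ} (ht : 0 < t)
    (hl1 : min 1 (t / 4) ≤ l) (hl2 : l ≤ raoBound t) {k : ℕ → ℕ}
    (hk : ∀ δ : ℝ, 0 < δ → ∀ᶠ n : ℕ in atTop, (k n : ℝ) ≤ (t + δ) * Real.log n) :
    ∃ (Ω : Type) (_ : MeasurableSpace Ω) (μ : Measure Ω) (_ : IsProbabilityMeasure μ)
      (E : ℕ → Set Ω), (∀ n, MeasurableSet (E n)) ∧ IndepUpTo E μ k ∧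
      (∀ᶠ n in atTop, μ.real (E n) = p n) ∧
      ∀ᵐ ω ∂μ, {n | ω ∈ E n}.Infinite ∧ cramer {n | ω ∈ E n} = ENNReal.ofReal l := by
  rcases le_or_gt (t / 4) l with h | h
  · exact exists_exact hp ht h hl2 hk
  · -- then `l = 1`, `t > 4`: independent events
    have h1 : 1 ≤ l := by
      rcases min_le_iff.1 hl1 with h1 | h1
      · exact h1
      · linarith
    have ht4 : 4 < t := by linarith
    have hR : raoBound t = 1 := by
      unfold raoBound
      rw [if_pos (by linarith)]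
    have hl : l = 1 := le_antisymm (hR ▸ hl2) h1
    have hp1 : ∀ᶠ n in atTop, p n ≤ 1 :=
      (hp.loc.1.eventually (gt_mem_nhds one_pos)).mono fun n hn => hn.le
    obtain ⟨Ω, m, μ, hμ, E, hE, hind, hreal⟩ := exists_independent hp.nonneg hp1
    refine ⟨Ω, m, μ, hμ, E, hE, hind k, hreal, ?_⟩
    have hloc : LocDens (fun n => μ.real (E n)) := locDens_congr hreal hp.loc
    have h2 := cramer_bounds hE (hind fun n => ⌈t * Real.log n⌉₊) hloc ht
      (Eventually.of_forall fun n => Nat.le_ceil _)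
    filter_upwards [h2] with ω hω
    refine ⟨hω.1, le_antisymm ?_ ?_⟩
    · rw [hl, ← hR]
      exact hω.2.2
    · have h3 : min 1 (t / 4) = 1 := min_eq_left (by linarith)
      rw [hl, ← h3]
      exact hω.2.1

end Pool.Agent.LibCJ
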