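import Pool.Agent.LibCJ7.Defs

/-!
ROW [CJ ZK]. With `w = -1` the chain recursion vanishes if a gap `(u, v)` occurs.

Let `Φ = Phi M ψ X`. Facts, for `g₀ ≥ 1`:
(1) `Φ u' v' = 0` for `u < u' < v` (then `u' ∈ Ioo u v`, so `u' ∉ X`, `u' ≠ 0`), for all `v'`;
(2) `Φ u' v' = 0` for `u < v' < v` (then `v' ≠ M + 1`, `v' ∉ X`);
(3) `Φ u' v' = 0` if `u' ≤ u`, `v ≤ v' ≤ M + 1`, `(u', v') ≠ (u, v)`, `v' ≤ u' + g₁ + 1`: `kill` of
    `PsiOK` for the weight `ψ u' v'`, the set `X ∩ Ioo u' v'` and the gap `(u, v)`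
    (`u = u' ∨ u ∈ X ∩ Ioo u' v'`: if `u ≠ u'` then `u ≠ 0`, so `u ∈ X`; similarly for `v`);
(4) `Φ u v = ψ u v ∅ = 1`.
So `Z n = Z u` for `u ≤ n < v` by (2) and `Z_succ` (induction on `n`), `Z v = Z (v - 1) - 1 * Z u = 0`
(in the sum for `v` only `u' = u` contributes, by (1) and (3)), and `Z n = 0` for `v ≤ n ≤ M + 1` by
induction: in the sum for `n + 1` the terms `u' ≤ u` vanish by (3), `u < u' < v` by (1), and for
`v ≤ u'` we have `Z u' = 0`.
-/

namespace Pool.Agent.LibCJ

open Finset

theorem Z_kill {τ ε : ℝ} {M g₀ g₁ D : ℕ} {ψ : ℕ → ℕ → Finset ℕ → ℝ} (hg : 1 ≤ g₀)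
    (hψ : ∀ u v, u + g₀ < v → v ≤ u + g₁ + 1 → v ≤ M + 1 → PsiOK τ ε D g₀ u v (ψ u v))
    {X : Finset ℕ} (hX : X ⊆ Ioo 0 (M + 1)) {u v : ℕ} (huv : u + g₀ < v) (huv' : v ≤ u + g₁ + 1)
    (hgap : IsGap M X u v) :
    ∀ n, v ≤ n → n ≤ M + 1 → Z (-1) (Phi M ψ X) g₀ g₁ n = 0 := by
  obtain ⟨hu, hv, hvM, hdis⟩ := hgap
  have hnot : ∀ x, u < x → x < v → x ∉ X := fun x h1 h2 hx =>
    Finset.disjoint_left.1 hdis hx (mem_Ioo.2 ⟨h1, h2⟩)
  have h1 : ∀ u' v', u < u' → u' < v → Phi M ψ X u' v' = 0 := by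
    intro u' v' ha hb
    unfold Phi
    rw [if_neg]
    rintro ⟨h0 | h0, -⟩
    · omega
    · exact hnot u' ha hb h0
  have h2 : ∀ u' v', u < v' → v' < v → Phi M ψ X u' v' = 0 := by
    intro u' v' ha hb
    unfold Phi
    rw [if_neg]
    rintro ⟨-, h0 | h0⟩
    · omega
    · exact hnot v' ha hb h0
  have h3 : ∀ u' v', u' ≤ u → v ≤ v' → v' ≤ M + 1 → (u', v') ≠ (u, v) → v' ≤ u' + g₁ + 1 →
      Phi M ψ X u' v' = 0 := by
    intro u' v' ha hb hc hne hd
    unfold Phi
    split_ifs with h0
    · refine (hψ u' v' (by omega) hd hc).kill u v ha hb huv (fun h => hne h.symm)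
        (X ∩ Ioo u' v') inter_subset_right ?_ ?_ ?_
      · rcases Nat.eq_or_lt_of_le ha with h | h
        · exact Or.inl h.symm
        · right
          have : u ∈ X := by
            rcases hu with h' | h'
            · omega
            · exact h'
          exact mem_inter.2 ⟨this, mem_Ioo.2 ⟨h, by omega⟩⟩
      · rcases Nat.eq_or_lt_of_le hb with h | h
        · exact Or.inl h
        · right
          have : v ∈ X := by
            rcases hv with h' | h'
            · omega
            · exact h'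
          exact mem_inter.2 ⟨this, mem_Ioo.2 ⟨by omega, h⟩⟩
      · exact hdis.mono_left inter_subset_left
    · rfl
  have h4 : Phi M ψ X u v = 1 := by
    unfold Phi
    rw [if_pos ⟨hu, hv⟩, (disjoint_iff_inter_eq_empty.1 hdis)]
    exact (hψ u v huv huv' hvM).empty
  have hA : ∀ n, u ≤ n → n < v → Z (-1) (Phi M ψ X) g₀ g₁ n = Z (-1) (Phi M ψ X) g₀ g₁ u := by
    intro n
    induction n with
    | zero =>
      intro h _
      rw [Nat.le_zero.1 h]
    | succ n ih =>
      intro ha hb
      rcases Nat.eq_or_lt_of_le ha with h | h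
      · rw [← h]
      · rw [Z_succ, ih (by omega) (by omega), sum_eq_zero, mul_zero, add_zero]
        intro x _
        split_ifs
        · rw [h2 x (n + 1) h hb, zero_mul]
        · rfl
  intro n
  induction n using Nat.strong_induction_on with
  | _ n ih =>
    intro hn hM
    obtain ⟨m, rfl⟩ : ∃ m, n = m + 1 := ⟨n - 1, by omega⟩
    rcases Nat.eq_or_lt_of_le hn with hnv | hnv
    · rw [Z_succ, hA m (by omega) (by omega), sum_eq_single u]
      · rw [if_pos ⟨by omega, by omega⟩, ← hnv, h4]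
        ring
      · intro x hx hne
        have hx' := mem_range.1 hx
        split_ifs with hc
        · rcases Nat.lt_or_ge u x with h | h
          · rw [h1 x (m + 1) h (by omega), zero_mul]
          · rw [h3 x (m + 1) h (by omega) hM (fun h' => hne (congrArg Prod.fst h')) (by omega),
              zero_mul]
        · rfl
      · intro h
        exact absurd (mem_range.2 (by omega)) h
    · rw [Z_succ, ih m (by omega) (by omega) (by omega), sum_eq_zero, mul_zero, add_zero]
      intro x hx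
      have hx' := mem_range.1 hx
      split_ifs with hc
      · rcases Nat.lt_or_ge u x with h | h
        · rcases Nat.lt_or_ge x v with h' | h'
          · rw [h1 x (m + 1) h h', zero_mul]
          · rw [ih x (by omega) h' (by omega), mul_zero]
        · rw [h3 x (m + 1) h (by omega) hM (fun h' => by
            have := congrArg Prod.snd h'
            simp only at this
            omega) (by omega), zero_mul]
      · rfl

end Pool.Agent.LibCJ
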