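import Pool.Agent.LibCJ7.ZTerm

/-!
ROW [CJ ZM]. Means of the chain recursion, from `EV_term` (row ZT).
-/

namespace Pool.Agent.LibCJ

open Finset

/-- one step of the recursion, for the means -/
lemma EV_Z_succ (τ : ℝ) {M g₀ g₁ : ℕ} (ψ : ℕ → ℕ → Finset ℕ → ℝ) (w : ℝ) (S : Finset ℕ) (n : ℕ) :
    EV τ (Ioo 0 (M + 1)) (fun X => if S ⊆ X then Z w (Phi M ψ X) g₀ g₁ (n + 1) else 0) =
      EV τ (Ioo 0 (M + 1)) (fun X => if S ⊆ X then Z w (Phi M ψ X) g₀ g₁ n else 0) +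
      w * ∑ u ∈ range (n + 1), if g₀ ≤ n - u ∧ n - u ≤ g₁ then
        EV τ (Ioo 0 (M + 1)) (fun X => if S ⊆ X then
          Phi M ψ X u (n + 1) * Z w (Phi M ψ X) g₀ g₁ u else 0) else 0 := by
  have e1 : ∀ u ∈ range (n + 1), (if g₀ ≤ n - u ∧ n - u ≤ g₁ then
        EV τ (Ioo 0 (M + 1)) (fun X => if S ⊆ X then
          Phi M ψ X u (n + 1) * Z w (Phi M ψ X) g₀ g₁ u else 0) else 0) =
      EV τ (Ioo 0 (M + 1)) (fun X => if g₀ ≤ n - u ∧ n - u ≤ g₁ then (if S ⊆ X then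
          Phi M ψ X u (n + 1) * Z w (Phi M ψ X) g₀ g₁ u else 0) else 0) := by
    intro u _
    by_cases h : g₀ ≤ n - u ∧ n - u ≤ g₁
    · simp only [h, and_self, if_true]
    · simp only [h, if_false]
      simp [EV]
  rw [sum_congr rfl e1, ← EV_sum, ← EV_const_mul, ← EV_add]
  refine EV_congr fun X _ => ?_
  by_cases hS : S ⊆ X
  · simp only [hS, if_true]
    rw [Z_succ]
  · simp only [hS, if_false]
    simp

/-- claim (C) -/
theorem EV_Z_small {τ ε : ℝ} {M g₀ g₁ D : ℕ} {ψ : ℕ → ℕ → Finset ℕ → ℝ} (hg : 1 ≤ g₀)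
    (hψ : ∀ u v, u + g₀ < v → v ≤ u + g₁ + 1 → v ≤ M + 1 → PsiOK τ ε D g₀ u v (ψ u v))
    (w : ℝ) : ∀ n, n ≤ M + 1 → ∀ S ⊆ Ioo 0 (M + 1),
      (∀ u v, u + g₀ < v → v ≤ u + g₁ + 1 → v ≤ n → (S ∩ Ioo u v).card ≤ D) →
      EV τ (Ioo 0 (M + 1)) (fun X => if S ⊆ X then Z w (Phi M ψ X) g₀ g₁ n else 0) =
        τ ^ S.card := by
  intro n
  induction n with
  | zero =>
    intro _ S hS _
    simp only [Z_zero]
    exact EV_incl τ hS
  | succ n ih =>
    intro hn S hS hc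
    rw [EV_Z_succ, ih (by omega) S hS (fun u v h1 h2 h3 => hc u v h1 h2 (by omega))]
    have h0 : ∑ u ∈ range (n + 1), (if g₀ ≤ n - u ∧ n - u ≤ g₁ then
        EV τ (Ioo 0 (M + 1)) (fun X => if S ⊆ X then
          Phi M ψ X u (n + 1) * Z w (Phi M ψ X) g₀ g₁ u else 0) else 0) = 0 := by
      refine sum_eq_zero fun u hu => ?_
      have hu' : u ≤ n := Nat.lt_succ_iff.1 (mem_range.1 hu)
      split_ifs with h
      · have a1 : u + g₀ < n + 1 := by omega
        have a2 : n + 1 ≤ u + g₁ + 1 := by omega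
        rw [EV_term w hS (by omega) hn,
          (hψ u (n + 1) a1 a2 hn).orth (S ∩ Ioo u (n + 1)) inter_subset_right (hc u (n + 1) a1 a2 le_rfl),
          zero_mul]
      · rfl
    rw [h0, mul_zero, add_zero]

lemma bdS_subset {M : ℕ} {S : Finset ℕ} (hS : S ⊆ Ioo 0 (M + 1)) {u v : ℕ} (huv : u < v) (hv : v ≤ M + 1) :
    bdS M S u v ⊆ Ioo 0 (M + 1) := by
  intro x hx
  unfold bdS at hx
  rcases mem_union.1 hx with h | h
  · exact hS (mem_sdiff.1 h).1
  · rcases mem_union.1 h with h | h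
    · split_ifs at h with h1
      · simp at h
      · rw [mem_singleton] at h
        rw [mem_Ioo]
        omega
    · split_ifs at h with h1
      · simp at h
      · rw [mem_singleton] at h
        rw [mem_Ioo]
        omega

lemma bdS_inter {M : ℕ} {S : Finset ℕ} {u v u' v' : ℕ} (huv : u < v) (h : v' ≤ u) :
    bdS M S u v ∩ Ioo u' v' ⊆ S \ Ioo u v := by
  intro x hx
  obtain ⟨h1, h2⟩ := mem_inter.1 hx
  rw [mem_Ioo] at h2
  unfold bdS at h1
  rcases mem_union.1 h1 with h3 | h3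
  · exact h3
  · exfalso
    rcases mem_union.1 h3 with h4 | h4
    · split_ifs at h4 with h5
      · simp at h4
      · rw [mem_singleton] at h4
        omega
    · split_ifs at h4 with h5
      · simp at h4
      · rw [mem_singleton] at h4
        omega

theorem EV_Z_mean {τ ε : ℝ} {M g₀ g₁ D : ℕ} {ψ : ℕ → ℕ → Finset ℕ → ℝ} (hg : 1 ≤ g₀)
    (hψ : ∀ u v, u + g₀ < v → v ≤ u + g₁ + 1 → v ≤ M + 1 → PsiOK τ ε D g₀ u v (ψ u v))
    {S : Finset ℕ} (hS : S ⊆ Ioo 0 (M + 1)) (hSc : S.card ≤ 2 * D + 1) (w : ℝ) :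
    ∀ n, n ≤ M + 1 →
      EV τ (Ioo 0 (M + 1)) (fun X => if S ⊆ X then Z w (Phi M ψ X) g₀ g₁ n else 0) -
        τ ^ S.card =
      w * (EV τ (Ioo 0 (M + 1)) (fun X => if S ⊆ X then Z 1 (Phi M ψ X) g₀ g₁ n else 0) -
        τ ^ S.card) := by
  intro n
  induction n with
  | zero =>
    intro _
    simp only [Z_zero]
    rw [EV_incl τ hS]
    ring
  | succ n ih =>
    intro hn
    have ih' := ih (by omega)
    rw [EV_Z_succ, EV_Z_succ (w := 1)]
    have h0 : ∑ u ∈ range (n + 1), (if g₀ ≤ n - u ∧ n - u ≤ g₁ then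
        EV τ (Ioo 0 (M + 1)) (fun X => if S ⊆ X then
          Phi M ψ X u (n + 1) * Z w (Phi M ψ X) g₀ g₁ u else 0) else 0) =
        ∑ u ∈ range (n + 1), (if g₀ ≤ n - u ∧ n - u ≤ g₁ then
        EV τ (Ioo 0 (M + 1)) (fun X => if S ⊆ X then
          Phi M ψ X u (n + 1) * Z 1 (Phi M ψ X) g₀ g₁ u else 0) else 0) := by
      refine sum_congr rfl fun u hu => ?_
      have hu' : u ≤ n := Nat.lt_succ_iff.1 (mem_range.1 hu)
      split_ifs with h
      · have a1 : u + g₀ < n + 1 := by omega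
        have a2 : n + 1 ≤ u + g₁ + 1 := by omega
        rw [EV_term w hS (by omega) hn, EV_term 1 hS (by omega) hn]
        rcases Nat.lt_or_ge D (S ∩ Ioo u (n + 1)).card with h1 | h1
        · have h2 : (S \ Ioo u (n + 1)).card ≤ D := by
            have := card_inter_add_card_sdiff S (Ioo u (n + 1))
            omega
          have h3 : ∀ w' : ℝ, EV τ (Ioo 0 (M + 1)) (fun X => if bdS M S u (n + 1) ⊆ X then
              Z w' (Phi M ψ X) g₀ g₁ u else 0) = τ ^ (bdS M S u (n + 1)).card := by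
            intro w'
            refine EV_Z_small hg hψ w' u (by omega) _ (bdS_subset hS (by omega) hn) ?_
            intro u' v' _ _ h6
            exact (card_le_card (bdS_inter (by omega) h6)).trans h2
          rw [h3 w, h3 1]
        · rw [(hψ u (n + 1) a1 a2 hn).orth (S ∩ Ioo u (n + 1)) inter_subset_right h1,
            zero_mul, zero_mul]
      · rfl
    rw [h0]
    linear_combination ih'

end Pool.Agent.LibCJ
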