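import Pool.Agent.LibCJ7.ZPos
import Pool.Agent.LibCJ7.ZKill
import Pool.Agent.LibCJ7.ZMean

/-!
ROW [CJ GL]. The law without gaps of length in `[g₀, g₁]` off an event of small probability.

Let `V = Ioo 0 (M + 1)`, `α = 1 / √ε`, `f w X = Z w (Phi M ψ X) g₀ g₁ (M + 1)`,
`wt X = pw τ V X * (α / (1 + α) * f (-1) X + 1 / (1 + α) * f α X)`.
* `f α X > 0` for `X ⊆ V`: `Z_pos` with `κ = √ε`: `Phi ≥ -ε` (it is `0`, or `ψ u v ∅ = 1`, or
  `ψ u v A` with `A ≠ ∅`), and `α ε = √ε`.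
* `f (-1) X ≥ 0`: if a gap with `u + g₀ < v ≤ u + g₁ + 1` occurs (`IsGap`), it is `0` by `Z_kill`;
  otherwise `Phi ≤ ε` for all such `u, v` (if `X ∩ Ioo u v = ∅` the borders are not occupied), and
  `Z_pos` with `κ = ε ≤ √ε`.
* `incl` and `sum`: `EV_Z_mean` for `w = -1` and `w = α`: `-α/(1+α) + α/(1+α) = 0`.
* On `HasGap` only the second part contributes, and its total mass is `1 / (1 + α) ≤ √ε`, as
  `EV (f α) = 1` by `EV_Z_small` with `S = ∅`.
-/

namespace Pool.Agent.LibCJ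

open Finset

lemma Phi_lower {τ ε : ℝ} {M g₀ D : ℕ} {ψ : ℕ → ℕ → Finset ℕ → ℝ} (hε : 0 < ε) (X : Finset ℕ)
    {u v : ℕ} (h : PsiOK τ ε D g₀ u v (ψ u v)) : -ε ≤ Phi M ψ X u v := by
  unfold Phi
  split_ifs with hc
  · rcases (X ∩ Ioo u v).eq_empty_or_nonempty with he | hne
    · rw [he, h.empty]
      linarith
    · exact (abs_le.1 (h.small _ hne)).1
  · linarith

lemma Phi_upper {τ ε : ℝ} {M g₀ D : ℕ} {ψ : ℕ → ℕ → Finset ℕ → ℝ} (hε : 0 < ε) (X : Finset ℕ)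
    {u v : ℕ} (h : PsiOK τ ε D g₀ u v (ψ u v)) (hv : v ≤ M + 1) (hgap : ¬ IsGap M X u v) :
    Phi M ψ X u v ≤ ε := by
  unfold Phi
  split_ifs with hc
  · rcases (X ∩ Ioo u v).eq_empty_or_nonempty with he | hne
    · exact absurd ⟨hc.1, hc.2, hv, disjoint_iff_inter_eq_empty.2 he⟩ hgap
    · exact (abs_le.1 (h.small _ hne)).2
  · exact hε.le

lemma pw_nonneg {τ : ℝ} (hτ0 : 0 < τ) (hτ1 : τ < 1) (V X : Finset ℕ) : 0 ≤ pw τ V X := by
  unfold pw
  have h1 : 0 ≤ 1 - τ := by linarith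
  positivity

open Classical in
theorem exists_gap_law {τ ε : ℝ} {M g₀ g₁ D : ℕ} {ψ : ℕ → ℕ → Finset ℕ → ℝ} (hg : 1 ≤ g₀)
    (hτ0 : 0 < τ) (hτ1 : τ < 1) (hε : 0 < ε)
    (hsmall : 4 * Real.sqrt ε * ((g₁ : ℝ) + 1) ^ 2 ≤ 1)
    (hψ : ∀ u v, u + g₀ < v → v ≤ u + g₁ + 1 → v ≤ M + 1 → PsiOK τ ε D g₀ u v (ψ u v)) :
    ∃ w : Finset ℕ → ℝ, LibCramer.BLaw (Ioo 0 (M + 1)) (fun _ => τ) (2 * D + 1) w ∧
      ∑ X ∈ (Ioo 0 (M + 1)).powerset with HasGap M g₀ g₁ X, w X ≤ Real.sqrt ε := by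
  set V := Ioo 0 (M + 1) with hV
  set s := Real.sqrt ε with hs
  have hs0 : 0 < s := Real.sqrt_pos.2 hε
  have hss : s * s = ε := Real.mul_self_sqrt hε.le
  have hg1 : (1 : ℝ) ≤ ((g₁ : ℝ) + 1) ^ 2 := by
    have : (0 : ℝ) ≤ (g₁ : ℝ) := Nat.cast_nonneg _
    nlinarith
  have hs1 : s ≤ 1 := by
    have : 4 * s * 1 ≤ 4 * s * ((g₁ : ℝ) + 1) ^ 2 := mul_le_mul_of_nonneg_left hg1 (by positivity)
    linarith
  have hεs : ε ≤ s := by
    rw [← hss]
    nlinarith
  set α := 1 / s with hα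
  have hα0 : 0 < α := by positivity
  have hαs : α * s = 1 := by rw [hα]; field_simp
  have hαε : α * ε = s := by rw [← hss, ← mul_assoc, hαs, one_mul]
  have h1α : 0 < 1 + α := by linarith
  set f : ℝ → Finset ℕ → ℝ := fun w X => Z w (Phi M ψ X) g₀ g₁ (M + 1) with hf
  -- positivity for `α`
  have hfα : ∀ X, 0 < f α X := by
    intro X
    refine Z_pos (κ := s) (N := M + 1) hs0.le hsmall ?_ (M + 1) le_rfl
    intro u v h1 h2 h3
    have := Phi_lower (M := M) hε X (hψ u v h1 h2 h3)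
    have h4 : α * (-ε) ≤ α * Phi M ψ X u v := mul_le_mul_of_nonneg_left this hα0.le
    linarith [hαε, h4, mul_neg α ε]
  have hfz : ∀ X ⊆ V, HasGap M g₀ g₁ X → f (-1) X = 0 := by
    intro X hX ⟨u, v, h1, h2, h3⟩
    exact Z_kill hg hψ hX h1 h2 h3 (M + 1) h3.2.2.1 le_rfl
  have hf1 : ∀ X ⊆ V, 0 ≤ f (-1) X := by
    intro X hX
    by_cases hgap : HasGap M g₀ g₁ X
    · exact (hfz X hX hgap).ge
    · refine (Z_pos (κ := s) (N := M + 1) hs0.le hsmall ?_ (M + 1) le_rfl).le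
      intro u v h1 h2 h3
      have h4 : ¬ IsGap M X u v := fun h => hgap ⟨u, v, h1, h2, h⟩
      have := Phi_upper hε X (hψ u v h1 h2 h3) h3 h4
      linarith
  set wt : Finset ℕ → ℝ := fun X => pw τ V X * (α / (1 + α) * f (-1) X + 1 / (1 + α) * f α X)
    with hwt
  have hincl : ∀ J ⊆ V, J.card ≤ 2 * D + 1 →
      ∑ T ∈ V.powerset with J ⊆ T, wt T = τ ^ J.card := by
    intro J hJ hJc
    have hA := EV_Z_mean (τ := τ) hg hψ hJ hJc (-1) (M + 1) le_rfl
    have hB := EV_Z_mean (τ := τ) hg hψ hJ hJc α (M + 1) le_rfl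
    rw [← hV] at hA hB
    set A := EV τ V (fun X => if J ⊆ X then Z (-1) (Phi M ψ X) g₀ g₁ (M + 1) else 0) with hAd
    set B := EV τ V (fun X => if J ⊆ X then Z α (Phi M ψ X) g₀ g₁ (M + 1) else 0) with hBd
    set E := EV τ V (fun X => if J ⊆ X then Z 1 (Phi M ψ X) g₀ g₁ (M + 1) else 0) with hEd
    have h1 : ∑ T ∈ V.powerset with J ⊆ T, wt T = α / (1 + α) * A + 1 / (1 + α) * B := by
      rw [hAd, hBd, ← EV_const_mul, ← EV_const_mul, ← EV_add, Finset.sum_filter]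
      unfold EV
      refine Finset.sum_congr rfl fun X _ => ?_
      by_cases hJX : J ⊆ X
      · simp only [hJX, if_true, hwt, hf]
      · simp only [hJX, if_false, mul_zero, add_zero]
    have h2 : α / (1 + α) * A + 1 / (1 + α) * B - τ ^ J.card =
        1 / (1 + α) * (α * (A - τ ^ J.card) + (B - τ ^ J.card)) := by
      field_simp
      ring
    have h3 : α / (1 + α) * A + 1 / (1 + α) * B - τ ^ J.card = 0 := by
      rw [h2, hA, hB]
      ring
    rw [h1]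
    linarith
  refine ⟨wt, ⟨?_, ?_, ?_⟩, ?_⟩
  · intro T hT
    have hT' : T ⊆ V := Finset.mem_powerset.1 hT
    have h1 := pw_nonneg hτ0 hτ1 V T
    have h2 := hf1 T hT'
    have h3 := (hfα T).le
    simp only [hwt]
    positivity
  · have := hincl ∅ (Finset.empty_subset _) (by simp)
    simpa using this
  · intro J hJ hJc
    rw [hincl J hJ hJc, Finset.prod_const]
  · have h1 : ∑ X ∈ V.powerset with HasGap M g₀ g₁ X, wt X ≤
        1 / (1 + α) * EV τ V (fun X => f α X) := by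
      unfold EV
      rw [Finset.mul_sum, Finset.sum_filter]
      refine Finset.sum_le_sum fun X hX => ?_
      have hX' : X ⊆ V := Finset.mem_powerset.1 hX
      have h2 := pw_nonneg hτ0 hτ1 V X
      have h3 := (hfα X).le
      split_ifs with hgap
      · simp only [hwt]
        rw [hfz X hX' hgap]
        refine le_of_eq ?_
        ring
      · positivity
    have h2 : EV τ V (fun X => f α X) = 1 := by
      have := EV_Z_small (τ := τ) hg hψ α (M + 1) le_rfl ∅ (Finset.empty_subset _)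
        (fun u v _ _ _ => by simp)
      rw [← hV] at this
      simpa using this
    rw [h2, mul_one] at h1
    refine h1.trans ?_
    have h3 : 1 / (1 + α) ≤ 1 / α := one_div_le_one_div_of_le hα0 (by linarith)
    refine h3.trans (le_of_eq ?_)
    rw [hα, one_div_one_div]

end Pool.Agent.LibCJ
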