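import Mathlib

/-!
The value at `0` of a polynomial which is bounded by `exp (lam - Re u)` on the circle `|u| = lam`.
-/

namespace Pool.Agent.LibCJ

open Polynomial

/-- **Extrapolation to the centre.** If `|P(u)| ≤ M exp(lam - Re u)` on `|u| = lam` and
`deg P ≤ D`, then `|P(0)| ≤ M b^D exp(lam / b^2)` for all `b > 1`. -/
theorem extrapolate {P : ℂ[X]} {D : ℕ} (hD : P.natDegree ≤ D) {lam M b : ℝ} (hlam : 0 < lam)
    (hb : 1 < b)
    (h : ∀ u : ℂ, ‖u‖ = lam → ‖P.eval u‖ ≤ M * Real.exp (lam - u.re)) :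
    ‖P.eval 0‖ ≤ M * (b ^ D * Real.exp (lam / b ^ 2)) := by
  have hb0 : (0 : ℝ) < b := by linarith
  have hbC : (b : ℂ) ≠ 0 := by exact_mod_cast hb0.ne'
  -- the two functions
  set v : ℂ → ℂ := fun z => z / b + (1 - 1 / (b : ℂ) ^ 2) * (b / (z + b)) with hv
  set F : ℂ → ℂ := fun z => (∑ k ∈ Finset.range (D + 1), P.coeff k * (lam : ℂ) ^ k *
    (1 + b * z) ^ k * z ^ (D - k) * ((z + b)⁻¹) ^ k) * Complex.exp (-(lam * (1 - v z))) with hF
  have hne : ∀ z : ℂ, ‖z‖ ≤ 1 → z + b ≠ 0 := by
    intro z hz h0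
    have h1 : z = -(b : ℂ) := by linear_combination h0
    rw [h1, norm_neg, Complex.norm_real, Real.norm_eq_abs, abs_of_pos hb0] at hz
    linarith
  have hdiff : ∀ z : ℂ, ‖z‖ ≤ 1 → DifferentiableAt ℂ F z := by
    intro z hz
    have h0 := hne z hz
    have hinv : DifferentiableAt ℂ (fun z : ℂ => (z + b)⁻¹) z :=
      (differentiableAt_id.add_const _).inv h0
    have hvd : DifferentiableAt ℂ v z := by
      have : v = fun z : ℂ => z / b + (1 - 1 / (b : ℂ) ^ 2) * (b * (z + b)⁻¹) := by
        funext z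
        rw [hv]
        simp only [div_eq_mul_inv]
      rw [this]
      exact (differentiableAt_id.div_const _).add ((hinv.const_mul _).const_mul _)
    refine DifferentiableAt.mul ?_ ?_
    · refine DifferentiableAt.fun_sum fun k _ => ?_
      refine DifferentiableAt.mul (DifferentiableAt.mul (DifferentiableAt.mul ?_ ?_) ?_) ?_
      · exact differentiableAt_const _
      · exact ((differentiableAt_id.const_mul _).const_add _).pow _
      · exact differentiableAt_id.pow _
      · exact hinv.pow _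
    · exact ((hvd.const_sub _).const_mul _).neg.cexp
  -- boundary
  have hbd : ∀ z : ℂ, ‖z‖ = 1 → ‖F z‖ ≤ M := by
    intro z hz
    have hz0 : z ≠ 0 := by
      intro h0
      rw [h0, norm_zero] at hz
      exact zero_ne_one hz
    have h0 := hne z hz.le
    set u : ℂ := lam * ((1 + b * z) / (z * (z + b))) with hu
    have hconj : (starRingEnd ℂ) z * z = 1 := by
      rw [mul_comm, Complex.mul_conj, Complex.normSq_eq_norm_sq, hz]
      norm_num
    have hnum : ‖1 + b * z‖ = ‖z + b‖ := by
      have h1 : 1 + b * z = z * (starRingEnd ℂ) (z + b) := by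
        rw [map_add, Complex.conj_ofReal, mul_add, mul_comm z, hconj]
        ring
      rw [h1, norm_mul, hz, one_mul, Complex.norm_conj]
    have hun : ‖u‖ = lam := by
      rw [hu, norm_mul, norm_div, norm_mul, hz, one_mul, hnum, div_self (norm_ne_zero_iff.2 h0),
        mul_one, Complex.norm_real, Real.norm_eq_abs, abs_of_pos hlam]
    have hsum : (∑ k ∈ Finset.range (D + 1), P.coeff k * (lam : ℂ) ^ k *
        (1 + b * z) ^ k * z ^ (D - k) * ((z + b)⁻¹) ^ k) = z ^ D * P.eval u := by
      rw [Polynomial.eval_eq_sum_range' (Nat.lt_succ_of_le hD), Finset.mul_sum]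
      refine Finset.sum_congr rfl fun k hk => ?_
      have hk' : k ≤ D := Nat.lt_succ_iff.1 (Finset.mem_range.1 hk)
      have h1 : z ^ D = z ^ (D - k) * z ^ k := by
        rw [← pow_add]
        congr 1
        omega
      rw [h1, hu, mul_pow, div_pow, mul_pow, inv_pow]
      have h2 : (z + b) ^ k ≠ 0 := pow_ne_zero _ h0
      have h3 : z ^ k ≠ 0 := pow_ne_zero _ hz0
      field_simp
    have hre : u.re = lam * (v z).re := by
      have h1 : u - lam * v z = (lam / b : ℝ) * (z⁻¹ - z) := by
        rw [hu, hv]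
        simp only
        push_cast
        field_simp
        ring
      have h2 : (u - lam * v z).re = 0 := by
        have h3 : z⁻¹ = (starRingEnd ℂ) z := by
          rw [← one_div, eq_comm, eq_div_iff hz0, hconj]
        rw [h1, h3, Complex.re_ofReal_mul, Complex.sub_re, Complex.conj_re, sub_self, mul_zero]
      have h4 : ((lam : ℂ) * v z).re = lam * (v z).re := Complex.re_ofReal_mul _ _
      rw [Complex.sub_re, h4] at h2
      linarith
    rw [hF]
    simp only
    rw [hsum, norm_mul, norm_mul, norm_pow, hz, one_pow, one_mul, Complex.norm_exp]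
    have h3 : (-(↑lam * (1 - v z)) : ℂ).re = -(lam - u.re) := by
      rw [Complex.neg_re, Complex.re_ofReal_mul, Complex.sub_re, Complex.one_re, hre]
      ring
    rw [h3]
    calc ‖P.eval u‖ * Real.exp (-(lam - u.re))
        ≤ M * Real.exp (lam - u.re) * Real.exp (-(lam - u.re)) :=
          mul_le_mul_of_nonneg_right (h u hun) (Real.exp_pos _).le
      _ = M := by rw [mul_assoc, ← Real.exp_add]; simp
  -- the maximum principle
  have hmax : ‖F (-(1 / b : ℝ))‖ ≤ M := by
    have hcl : DiffContOnCl ℂ F (Metric.ball 0 1) := by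
      refine DifferentiableOn.diffContOnCl ?_
      intro z hz
      rw [closure_ball (0 : ℂ) one_ne_zero, mem_closedBall_zero_iff] at hz
      exact (hdiff z hz).differentiableWithinAt
    refine Complex.norm_le_of_forall_mem_frontier_norm_le Metric.isBounded_ball hcl ?_ ?_
    · intro z hz
      rw [frontier_ball (0 : ℂ) one_ne_zero, mem_sphere_zero_iff_norm] at hz
      exact hbd z hz
    · refine subset_closure ?_
      rw [mem_ball_zero_iff, norm_neg, Complex.norm_real, Real.norm_eq_abs,
        abs_of_pos (by positivity), div_lt_one hb0]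
      exact hb
  -- the value at `-1/b`
  have hval : ‖F (-(1 / b : ℝ))‖ = (1 / b) ^ D * ‖P.eval 0‖ * Real.exp (-(lam / b ^ 2)) := by
    have h1 : (1 : ℂ) + b * (-((1 / b : ℝ) : ℂ)) = 0 := by
      push_cast
      field_simp
      ring
    have hb1 : (b : ℂ) ^ 2 - 1 ≠ 0 := by
      have : (b : ℝ) ^ 2 - 1 ≠ 0 := by nlinarith
      exact_mod_cast this
    have hb2 : (-((1 / b : ℝ) : ℂ)) + b ≠ 0 := by
      intro h0
      apply hb1
      push_cast at h0
      field_simp at h0
      linear_combination h0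
    have h2 : (∑ k ∈ Finset.range (D + 1), P.coeff k * (lam : ℂ) ^ k *
        (1 + b * (-((1 / b : ℝ) : ℂ))) ^ k * (-((1 / b : ℝ) : ℂ)) ^ (D - k) *
          (((-((1 / b : ℝ) : ℂ)) + b)⁻¹) ^ k) =
        P.eval 0 * (-((1 / b : ℝ) : ℂ)) ^ D := by
      rw [Finset.sum_eq_single 0]
      · rw [← Polynomial.coeff_zero_eq_eval_zero]
        simp
      · intro k _ hk
        rw [h1, zero_pow hk]
        ring
      · intro h3
        simp at h3
    have h3 : v (-((1 / b : ℝ) : ℂ)) = ((1 - 1 / b ^ 2 : ℝ) : ℂ) := by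
      rw [hv]
      simp only
      have hb3 : (-1 : ℂ) + b ^ 2 ≠ 0 := by
        intro h0
        apply hb1
        linear_combination h0
      push_cast at hb2 ⊢
      field_simp
      ring
    rw [hF]
    simp only
    rw [h2, h3, norm_mul, norm_mul, norm_pow, norm_neg, Complex.norm_real, Real.norm_eq_abs,
      abs_of_pos (by positivity : (0 : ℝ) < 1 / b), Complex.norm_exp]
    have h4 : (-((lam : ℂ) * (1 - ((1 - 1 / b ^ 2 : ℝ) : ℂ)))).re = -(lam / b ^ 2) := by
      have : (-((lam : ℂ) * (1 - ((1 - 1 / b ^ 2 : ℝ) : ℂ)))) = ((-(lam / b ^ 2) : ℝ) : ℂ) := by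
        push_cast
        ring
      rw [this, Complex.ofReal_re]
    rw [h4]
    ring
  rw [hval] at hmax
  have hpos : 0 < b ^ D * Real.exp (lam / b ^ 2) := by positivity
  calc ‖P.eval 0‖ = (1 / b) ^ D * ‖P.eval 0‖ * Real.exp (-(lam / b ^ 2)) *
        (b ^ D * Real.exp (lam / b ^ 2)) := by
        have h5 : Real.exp (-(lam / b ^ 2)) * Real.exp (lam / b ^ 2) = 1 := by
          rw [← Real.exp_add]
          simp
        have h6 : (1 / b) ^ D * b ^ D = 1 := by
          rw [← mul_pow, one_div, inv_mul_cancel₀ hb0.ne', one_pow]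
        calc ‖P.eval 0‖ = ((1 / b) ^ D * b ^ D) * ‖P.eval 0‖ *
              (Real.exp (-(lam / b ^ 2)) * Real.exp (lam / b ^ 2)) := by rw [h5, h6]; ring
          _ = _ := by ring
    _ ≤ M * (b ^ D * Real.exp (lam / b ^ 2)) := mul_le_mul_of_nonneg_right hmax hpos.le

end Pool.Agent.LibCJ
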