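import Pool.Agent.LibCJ7.Final
import Pool.Agent.LibCI7.Model

/-!
The exact set of the possible values of the Cramer constant.
-/

namespace Pool.Agent.LibCJ

open Finset Filter Topology MeasureTheory ProbabilityTheory Pool.Agent.LibCramer
open scoped ENNReal

/-- the smallest possible value -/
noncomputable def lo (t : ℝ≥0∞) : ℝ≥0∞ := min 1 (t / 4)

/-- the largest possible value -/
noncomputable def hi (t : ℝ≥0∞) : ℝ≥0∞ :=
  if t = 0 then ∞ else if 2 ≤ t then 1 else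
    ENNReal.ofReal (t.toReal / 2 * Real.exp (2 / t.toReal - 1))

/-- `k n` is asymptotic to `t log n` -/
def OrderLim (k : ℕ → ℕ) (t : ℝ≥0∞) : Prop :=
  Tendsto (fun n : ℕ => ENNReal.ofReal ((k n : ℝ) / Real.log n)) atTop (𝓝 t)

lemma raoBound_eq (t : ℝ) : raoBound t = min t 2 / 2 * Real.exp (2 / min t 2 - 1) := by
  unfold raoBound
  split_ifs with h
  · rw [min_eq_right h]
    norm_num
  · rw [min_eq_left (not_le.1 h).le]

lemma raoBound_continuousAt {t : ℝ} (ht : 0 < t) : ContinuousAt raoBound t := by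
  have e : raoBound = fun t => min t 2 / 2 * Real.exp (2 / min t 2 - 1) := funext raoBound_eq
  rw [e]
  have h1 : ContinuousAt (fun t : ℝ => min t 2) t := by fun_prop
  have h2 : min t 2 ≠ 0 := (lt_min ht (by norm_num)).ne'
  have h3 : ContinuousAt (fun t : ℝ => 2 / min t 2) t := continuousAt_const.div h1 h2
  exact (h1.div_const 2).mul ((h3.sub continuousAt_const).rexp)

lemma lo_ofReal {t : ℝ} : lo (ENNReal.ofReal t) = ENNReal.ofReal (min 1 (t / 4)) := by
  unfold lo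
  rw [ENNReal.ofReal_min, ENNReal.ofReal_one, ENNReal.ofReal_div_of_pos (by norm_num)]
  norm_num

lemma lo_top : lo ∞ = 1 := by
  unfold lo
  rw [ENNReal.top_div_of_ne_top (by norm_num)]
  exact min_eq_left le_top

lemma hi_top : hi ∞ = 1 := by
  unfold hi
  rw [if_neg (by simp), if_pos le_top]

lemma hi_ofReal {t : ℝ} (ht : 0 < t) : hi (ENNReal.ofReal t) = ENNReal.ofReal (raoBound t) := by
  unfold hi raoBound
  have h1 : ENNReal.ofReal t ≠ 0 := (ENNReal.ofReal_pos.2 ht).ne'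
  rw [if_neg h1, ENNReal.toReal_ofReal ht.le]
  have h2 : (2 : ℝ≥0∞) ≤ ENNReal.ofReal t ↔ 2 ≤ t := by
    rw [show (2 : ℝ≥0∞) = ENNReal.ofReal 2 by norm_num, ENNReal.ofReal_le_ofReal_iff ht.le]
  by_cases h : 2 ≤ t
  · rw [if_pos (h2.2 h), if_pos h, ENNReal.ofReal_one]
  · rw [if_neg (fun h' => h (h2.1 h')), if_neg h]

lemma ratio_nonneg (k : ℕ → ℕ) (n : ℕ) : 0 ≤ (k n : ℝ) / Real.log n :=
  div_nonneg (Nat.cast_nonneg _) (Real.log_natCast_nonneg n)

lemma eventually_ge_of_lim {k : ℕ → ℕ} {t : ℝ≥0∞} (h : OrderLim k t) {t' : ℝ} (ht' : 0 ≤ t')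
    (htt : ENNReal.ofReal t' < t) : ∀ᶠ n : ℕ in atTop, t' * Real.log n ≤ k n := by
  filter_upwards [h.eventually (lt_mem_nhds htt), eventually_ge_atTop 3] with n hn hn3
  have h1 : t' < (k n : ℝ) / Real.log n := by
    rwa [ENNReal.ofReal_lt_ofReal_iff_of_nonneg ht'] at hn
  have hL : 0 < Real.log (n : ℝ) := Real.log_pos (by exact_mod_cast (by omega : 1 < n))
  rw [lt_div_iff₀ hL] at h1
  exact h1.le

lemma eventually_le_of_lim {k : ℕ → ℕ} {t : ℝ} (ht : 0 < t) (h : OrderLim k (ENNReal.ofReal t))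
    (δ : ℝ) (hδ : 0 < δ) : ∀ᶠ n : ℕ in atTop, (k n : ℝ) ≤ (t + δ) * Real.log n := by
  have h1 : ENNReal.ofReal t < ENNReal.ofReal (t + δ) :=
    (ENNReal.ofReal_lt_ofReal_iff (by positivity)).2 (by linarith)
  filter_upwards [h.eventually (gt_mem_nhds h1), eventually_ge_atTop 3] with n hn hn3
  have h2 : (k n : ℝ) / Real.log n < t + δ := by
    rwa [ENNReal.ofReal_lt_ofReal_iff (by positivity)] at hn
  have hL : 0 < Real.log (n : ℝ) := Real.log_pos (by exact_mod_cast (by omega : 1 < n))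
  rw [div_lt_iff₀ hL] at h2
  exact h2.le

variable {Ω : Type*} [MeasurableSpace Ω] {μ : Measure Ω}

/-- **the bounds** -/
theorem bounds [IsProbabilityMeasure μ] {E : ℕ → Set Ω} (hE : ∀ n, MeasurableSet (E n))
    {k : ℕ → ℕ} (hind : IndepUpTo E μ k) (hloc : LocDens (fun n => μ.real (E n)))
    {t : ℝ≥0∞} (hk : OrderLim k t) :
    ∀ᵐ ω ∂μ, (t ≠ 0 → {n | ω ∈ E n}.Infinite) ∧ lo t ≤ cramer {n | ω ∈ E n} ∧
      cramer {n | ω ∈ E n} ≤ hi t := by
  rcases eq_or_ne t 0 with h0 | h0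
  · subst h0
    refine Eventually.of_forall fun ω => ⟨fun h => absurd rfl h, ?_, ?_⟩
    · simp [lo]
    · simp [hi]
  rcases eq_or_ne t ∞ with hT | hT
  · subst hT
    have h1 := cramer_bounds hE hind hloc (t := 4) (by norm_num)
      (eventually_ge_of_lim hk (by norm_num) ENNReal.ofReal_lt_top)
    filter_upwards [h1] with ω hω
    rw [lo_top, hi_top]
    refine ⟨fun _ => hω.1, ?_, ?_⟩
    · refine le_trans ?_ hω.2.1
      norm_num
    · refine hω.2.2.trans ?_
      unfold raoBound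
      norm_num
  · -- finite positive `t`
    obtain ⟨t₀, ht₀, rfl⟩ : ∃ t₀ : ℝ, 0 < t₀ ∧ t = ENNReal.ofReal t₀ :=
      ⟨t.toReal, ENNReal.toReal_pos h0 hT, (ENNReal.ofReal_toReal hT).symm⟩
    set ts : ℕ → ℝ := fun m => t₀ * (1 - 1 / ((m : ℝ) + 2)) with hts
    have hts0 : ∀ m, 0 < ts m := fun m => by
      have h1 : 1 / ((m : ℝ) + 2) < 1 := by
        rw [div_lt_one (by positivity)]
        have : (0 : ℝ) ≤ m := Nat.cast_nonneg m
        linarith
      have h2 : 0 < 1 - 1 / ((m : ℝ) + 2) := by linarith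
      exact mul_pos ht₀ h2
    have htsl : ∀ m, ts m < t₀ := fun m => by
      have h1 : 0 < 1 / ((m : ℝ) + 2) := by positivity
      simp only [hts]
      nlinarith
    have htslim : Tendsto ts atTop (𝓝 t₀) := by
      have h4 : Tendsto (fun n : ℕ => 1 / ((n : ℝ) + 2)) atTop (𝓝 0) := by
        have h5 : Tendsto (fun n : ℕ => (n : ℝ) + 2) atTop atTop :=
          tendsto_atTop_add_const_right _ _ tendsto_natCast_atTop_atTop
        have h6 := h5.inv_tendsto_atTop
        refine h6.congr fun n => ?_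
        simp
      have h5 := (h4.const_sub 1).const_mul t₀
      rw [sub_zero, mul_one] at h5
      exact h5
    have key : ∀ᵐ ω ∂μ, ∀ m : ℕ, {n | ω ∈ E n}.Infinite ∧
        ENNReal.ofReal (min 1 (ts m / 4)) ≤ cramer {n | ω ∈ E n} ∧
        cramer {n | ω ∈ E n} ≤ ENNReal.ofReal (raoBound (ts m)) := by
      refine ae_all_iff.2 fun m => cramer_bounds hE hind hloc (hts0 m)
        (eventually_ge_of_lim hk (hts0 m).le ?_)
      exact (ENNReal.ofReal_lt_ofReal_iff ht₀).2 (htsl m)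
    filter_upwards [key] with ω hω
    refine ⟨fun _ => (hω 0).1, ?_, ?_⟩
    · rw [lo_ofReal]
      have h1 : Tendsto (fun m => ENNReal.ofReal (min 1 (ts m / 4))) atTop
          (𝓝 (ENNReal.ofReal (min 1 (t₀ / 4)))) :=
        ENNReal.tendsto_ofReal (tendsto_const_nhds.min (htslim.div_const 4))
      exact le_of_tendsto' h1 fun m => (hω m).2.1
    · rw [hi_ofReal ht₀]
      have h1 : Tendsto (fun m => ENNReal.ofReal (raoBound (ts m))) atTop
          (𝓝 (ENNReal.ofReal (raoBound t₀))) :=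
        ENNReal.tendsto_ofReal ((raoBound_continuousAt ht₀).tendsto.comp htslim)
      exact ge_of_tendsto' h1 fun m => (hω m).2.2

/-- **all values between the bounds occur** -/
theorem values {p : ℕ → ℝ} (hp : GoodDyad p) {k : ℕ → ℕ} {t : ℝ≥0∞} (hk : OrderLim k t)
    {l : ℝ≥0∞} (hl1 : lo t ≤ l) (hl2 : l ≤ hi t) :
    ∃ (Ω : Type) (_ : MeasurableSpace Ω) (μ : Measure Ω) (_ : IsProbabilityMeasure μ)
      (E : ℕ → Set Ω), (∀ n, MeasurableSet (E n)) ∧ IndepUpTo E μ k ∧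
      (∀ᶠ n in atTop, μ.real (E n) = p n) ∧
      ∀ᵐ ω ∂μ, {n | ω ∈ E n}.Infinite ∧ cramer {n | ω ∈ E n} = l := by
  rcases eq_or_ne t 0 with h0 | h0
  · subst h0
    have h1 : Tendsto (fun n : ℕ => (k n : ℝ) / Real.log (n : ℝ)) atTop (𝓝 0) := by
      have h2 := (ENNReal.tendsto_toReal (a := 0) (by simp)).comp hk
      refine (h2.congr fun n => ?_)
      simp only [Function.comp]
      rw [ENNReal.toReal_ofReal (ratio_nonneg k n)]
    exact exists_model hp.toGoodWeight h1 l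
  rcases eq_or_ne t ∞ with hT | hT
  · subst hT
    rw [lo_top] at hl1
    rw [hi_top] at hl2
    have hl : l = 1 := le_antisymm hl2 hl1
    have hp1 : ∀ᶠ n in atTop, p n ≤ 1 :=
      (hp.loc.1.eventually (gt_mem_nhds one_pos)).mono fun n hn => hn.le
    obtain ⟨Ω, m, μ, hμ, E, hE, hind, hreal⟩ := exists_independent hp.nonneg hp1
    refine ⟨Ω, m, μ, hμ, E, hE, hind k, hreal, ?_⟩
    have hloc : LocDens (fun n => μ.real (E n)) := locDens_congr hreal hp.loc
    have h2 := bounds hE (hind k) hloc hk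
    filter_upwards [h2] with ω hω
    refine ⟨hω.1 (by simp), ?_⟩
    rw [lo_top, hi_top] at hω
    rw [hl]
    exact le_antisymm hω.2.2 hω.2.1
  · obtain ⟨t₀, ht₀, rfl⟩ : ∃ t₀ : ℝ, 0 < t₀ ∧ t = ENNReal.ofReal t₀ :=
      ⟨t.toReal, ENNReal.toReal_pos h0 hT, (ENNReal.ofReal_toReal hT).symm⟩
    rw [lo_ofReal] at hl1
    rw [hi_ofReal ht₀] at hl2
    have hlt : l ≠ ∞ := (hl2.trans_lt ENNReal.ofReal_lt_top).ne
    have e : l = ENNReal.ofReal l.toReal := (ENNReal.ofReal_toReal hlt).symm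
    have hR : 0 ≤ raoBound t₀ := by
      unfold raoBound
      split_ifs
      · exact zero_le_one
      · positivity
    rw [e] at hl1 hl2 ⊢
    have h1 : min 1 (t₀ / 4) ≤ l.toReal := (ENNReal.ofReal_le_ofReal_iff ENNReal.toReal_nonneg).1 hl1
    have h2 : l.toReal ≤ raoBound t₀ := (ENNReal.ofReal_le_ofReal_iff hR).1 hl2
    exact exists_value hp ht₀ h1 h2 (eventually_le_of_lim ht₀ hk)

end Pool.Agent.LibCJ
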