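import Pool.Agent.LibCJ7.Order
import Pool.Agent.LibCJ7.Defs

/-!
The random set: independent blocks in dyadic ranges.
-/

namespace Pool.Agent.LibCJ

open Finset Filter Topology MeasureTheory ProbabilityTheory Pool.Agent.LibCramer
open scoped ENNReal

/-- the end of the block `q` of the range `j` -/
def bEnd (s n : ℕ → ℕ) (j q : ℕ) : ℕ := if q < n j then aj j + (q + 1) * s j else aj (j + 1)

/-- the support of the block `q` of the range `j` -/
noncomputable def blkS (p : ℕ → ℝ) (s n : ℕ → ℕ) (j q : ℕ) : Finset ℕ :=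
  sp p (aj j + q * s j) (bEnd s n j q)

open Classical in
/-- the data of the construction -/
structure Plan (p : ℕ → ℝ) (K : ℕ → ℕ) where
  Kpos : ∀ j, 1 ≤ K j
  J : ℕ
  s : ℕ → ℕ
  n : ℕ → ℕ
  g : ℕ → ℕ
  δ : ℕ → ℝ
  w : ℕ → ℕ → Finset ℕ → ℝ
  fit : ∀ j, J ≤ j → 1 ≤ s j ∧ aj j + n j * s j ≤ aj (j + 1)
  law : ∀ j, J ≤ j → ∀ q, q ≤ n j → BLaw (blkS p s n j q) p (K j) (w j q)
  miss : ∀ j, J ≤ j → ∑ T ∈ (blkS p s n j (n j)).powerset with Miss (blkS p s n j (n j)) (g j) T,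
    w j (n j) T ≤ 1 / ((j : ℝ) + 1) ^ 2
  empty : ∀ j, J ≤ j → ∀ q, q < n j → δ j ≤ w j q ∅
  many : Tendsto (fun j => (n j : ℝ) * δ j) atTop atTop

attribute [local instance 2000] msFinset

namespace Plan

variable {p : ℕ → ℝ} {K : ℕ → ℕ} (P : Plan p K)

open Classical in
/-- support of a block -/
noncomputable def S (i : ℕ) : Finset ℕ :=
  if P.J ≤ i.unpair.1 ∧ i.unpair.2 ≤ P.n i.unpair.1 then blkS p P.s P.n i.unpair.1 i.unpair.2 else ∅

open Classical in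
/-- law of a block -/
noncomputable def W (i : ℕ) : Finset ℕ → ℝ :=
  if P.J ≤ i.unpair.1 ∧ i.unpair.2 ≤ P.n i.unpair.1 then P.w i.unpair.1 i.unpair.2 else fun _ => 1

/-- block index -/
def bi (n : ℕ) : ℕ :=
  Nat.pair (Nat.log 2 n) (min ((n - 1 - aj (Nat.log 2 n)) / P.s (Nat.log 2 n)) (P.n (Nat.log 2 n)))

lemma S_pair {j q : ℕ} (hj : P.J ≤ j) (hq : q ≤ P.n j) : P.S (Nat.pair j q) = blkS p P.s P.n j q := by
  unfold S
  rw [Nat.unpair_pair, if_pos ⟨hj, hq⟩]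

lemma W_pair {j q : ℕ} (hj : P.J ≤ j) (hq : q ≤ P.n j) : P.W (Nat.pair j q) = P.w j q := by
  unfold W
  rw [Nat.unpair_pair, if_pos ⟨hj, hq⟩]

lemma blaw (i : ℕ) : BLaw (P.S i) p (K i.unpair.1) (P.W i) := by
  unfold S W
  split_ifs with h
  · exact P.law _ h.1 _ h.2
  · refine ⟨fun T _ => zero_le_one, by simp, fun J hJ _ => ?_⟩
    rw [Finset.subset_empty] at hJ
    subst hJ
    simp

/-- the blocks are in the range -/
lemma blk_sub {j q n : ℕ} (hj : P.J ≤ j) (hq : q ≤ P.n j)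
    (hn : n ∈ Ioc (aj j + q * P.s j) (bEnd P.s P.n j q)) : n ∈ Ioc (aj j) (aj (j + 1)) := by
  obtain ⟨h1, h2⟩ := mem_Ioc.1 hn
  obtain ⟨f1, f2⟩ := P.fit j hj
  refine mem_Ioc.2 ⟨by omega, h2.trans ?_⟩
  unfold bEnd
  split_ifs with h
  · have h3 : (q + 1) * P.s j ≤ P.n j * P.s j := Nat.mul_le_mul_right _ h
    omega
  · exact le_rfl

lemma bi_eq {j q n : ℕ} (hj : P.J ≤ j) (hq : q ≤ P.n j)
    (hn : n ∈ Ioc (aj j + q * P.s j) (bEnd P.s P.n j q)) : P.bi n = Nat.pair j q := by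
  have h0 := P.blk_sub hj hq hn
  obtain ⟨f1, f2⟩ := P.fit j hj
  obtain ⟨h1, h2⟩ := mem_Ioc.1 hn
  have hlog : Nat.log 2 n = j := (mem_range_iff (by omega)).1 h0
  unfold bi
  rw [hlog]
  congr 1
  unfold bEnd at h2
  split_ifs at h2 with h
  · have h3 : (n - 1 - aj j) / P.s j = q := by
      rw [Nat.div_eq_iff (by omega)]
      rw [add_mul, one_mul] at h2
      constructor
      · rw [mul_comm] 
        have := mul_comm (P.s j) q
        omega
      · have := mul_comm (P.s j) q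
        omega
    rw [h3]
    exact min_eq_left hq
  · have hqn : q = P.n j := le_antisymm hq (not_lt.1 h)
    have h3 : P.n j ≤ (n - 1 - aj j) / P.s j := by
      rw [Nat.le_div_iff_mul_le (by omega), ← hqn]
      omega
    rw [min_eq_right h3, hqn]

/-- every `n` is in its block -/
lemma mem_blk {n : ℕ} (hn : 2 ^ P.J ≤ n) : ∃ j q, P.J ≤ j ∧ q ≤ P.n j ∧ Nat.log 2 n = j ∧
    n ∈ Ioc (aj j + q * P.s j) (bEnd P.s P.n j q) := by
  have hn0 : n ≠ 0 := by
    have : 0 < 2 ^ P.J := by positivity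
    omega
  have hJ : P.J ≤ Nat.log 2 n := Nat.le_log_of_pow_le (by norm_num) hn
  set j := Nat.log 2 n with hj
  obtain ⟨f1, f2⟩ := P.fit j hJ
  have h1 : n ∈ Ioc (aj j) (aj (j + 1)) := (mem_range_iff hn0).2 hj.symm
  obtain ⟨h2, h3⟩ := mem_Ioc.1 h1
  by_cases hq : (n - 1 - aj j) / P.s j < P.n j
  · refine ⟨j, (n - 1 - aj j) / P.s j, hJ, hq.le, hj.symm, ?_⟩
    unfold bEnd
    rw [if_pos hq, mem_Ioc]
    have h4 := Nat.div_mul_le_self (n - 1 - aj j) (P.s j)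
    have h5 := Nat.lt_div_mul_add (a := n - 1 - aj j) (b := P.s j) (by omega)
    constructor
    · omega
    · rw [add_mul, one_mul]
      omega
  · refine ⟨j, P.n j, hJ, le_rfl, hj.symm, ?_⟩
    unfold bEnd
    rw [if_neg (lt_irrefl _), mem_Ioc]
    push Not at hq
    have h4 : P.n j * P.s j ≤ n - 1 - aj j := (Nat.le_div_iff_mul_le (by omega)).1 hq
    exact ⟨by omega, h3⟩

lemma mem_S_bi {n : ℕ} (hn : 2 ^ P.J ≤ n) (hp : p n ≠ 0) : n ∈ P.S (P.bi n) := by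
  obtain ⟨j, q, h1, h2, h3, h4⟩ := P.mem_blk hn
  rw [P.bi_eq h1 h2 h4, P.S_pair h1 h2]
  exact mem_sp.2 ⟨h4, hp⟩

lemma S_bi_ne {i n : ℕ} (h : n ∈ P.S i) : p n ≠ 0 ∧ n ∈ P.S (P.bi n) ∧ P.bi n = i := by
  have h' := h
  unfold S at h'
  split_ifs at h' with hc
  · have h2 : n ∈ Ioc (aj i.unpair.1 + i.unpair.2 * P.s i.unpair.1)
        (bEnd P.s P.n i.unpair.1 i.unpair.2) ∧ p n ≠ 0 := mem_sp.1 h'
    have h3 := P.bi_eq hc.1 hc.2 h2.1
    rw [Nat.pair_unpair] at h3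
    rw [h3]
    exact ⟨h2.2, h, rfl⟩
  · simp at h'

/-- the measure -/
noncomputable def μ : Measure (ℕ → Finset ℕ) := bspace P.S P.W

/-- the events -/
def E (n : ℕ) : Set (ℕ → Finset ℕ) := bev P.bi n

lemma prob : IsProbabilityMeasure P.μ := bspace_prob P.blaw

lemma measE (n : ℕ) : MeasurableSet (P.E n) := measurableSet_bev P.bi n

lemma indep : IndepUpTo P.E P.μ (fun n => K (Nat.log 2 n)) := by
  refine bev_indep P.blaw (fun i => P.Kpos _) fun n _ => ?_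
  unfold bi
  rw [Nat.unpair_pair]

lemma real_E {n : ℕ} (h : 2 ^ P.J ≤ n) : P.μ.real (P.E n) = p n := by
  classical
  have h1 := bev_real P.blaw (fun i => P.Kpos _) P.bi n
  rw [show P.μ.real (P.E n) = (bspace P.S P.W).real (bev P.bi n) from rfl, h1]
  split_ifs with h3
  · rfl
  · by_contra h4
    exact h3 (P.mem_S_bi h fun h5 => h4 h5.symm)

lemma real_E_zero {n : ℕ} (h : n < 2 ^ P.J) : P.μ.real (P.E n) = 0 := by
  classical
  have h1 := bev_real P.blaw (fun i => P.Kpos _) P.bi n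
  rw [show P.μ.real (P.E n) = (bspace P.S P.W).real (bev P.bi n) from rfl, h1, if_neg]
  intro h2
  unfold S bi at h2
  rw [Nat.unpair_pair] at h2
  split_ifs at h2 with h3
  · rcases Nat.eq_zero_or_pos n with rfl | hn
    · simp [blkS, mem_sp] at h2
    · have := Nat.log_lt_of_lt_pow hn.ne' h
      omega
  · simp at h2

/-- one block -/
lemma coord_real (i : ℕ) (X : Set (Finset ℕ)) :
    P.μ.real {ω | ω i ∈ X} = (flaw (P.S i) (P.W i)).real X := by
  have := bspace_cyl P.blaw {i} (fun _ => X)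
  rw [Finset.prod_singleton] at this
  rw [← this]
  congr 1
  ext ω
  simp

end Plan

end Pool.Agent.LibCJ
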