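import Pool.Agent.LibCJ7.Plan

/-!
Almost sure properties of the random set.
-/

namespace Pool.Agent.LibCJ

open Finset Filter Topology MeasureTheory ProbabilityTheory Pool.Agent.LibCramer
open scoped ENNReal

attribute [local instance 2000] msFinset

namespace Plan

variable {p : ℕ → ℝ} {K : ℕ → ℕ} (P : Plan p K)

lemma zone_cyl {j : ℕ} (hj : P.J ≤ j) :
    P.μ.real {ω | ∀ q < P.n j, ω (Nat.pair j q) ≠ ∅} ≤ Real.exp (-((P.n j : ℝ) * P.δ j)) := by
  classical
  have e : {ω : ℕ → Finset ℕ | ∀ q < P.n j, ω (Nat.pair j q) ≠ ∅} =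
      {ω | ∀ i ∈ (range (P.n j)).image (Nat.pair j), ω i ∈ (fun _ => {T : Finset ℕ | T ≠ ∅}) i} := by
    ext ω
    simp
  have h1 := bspace_cyl P.blaw ((range (P.n j)).image (Nat.pair j)) (fun _ => {T : Finset ℕ | T ≠ ∅})
  rw [e, show P.μ = bspace P.S P.W from rfl, h1,
    Finset.prod_image (fun a _ b _ h => (Nat.pair_eq_pair.1 h).2)]
  have h2 : ∀ q ∈ range (P.n j), (flaw (P.S (Nat.pair j q)) (P.W (Nat.pair j q))).real
      {T : Finset ℕ | T ≠ ∅} ≤ Real.exp (-(P.δ j)) := by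
    intro q hq
    have hq' := mem_range.1 hq
    have hb := P.blaw (Nat.pair j q)
    have hpr := flaw_prob hb
    have h3 : {T : Finset ℕ | T ≠ ∅} = ({T : Finset ℕ | T = ∅})ᶜ := rfl
    rw [h3, probReal_compl_eq_one_sub (measAll _), flaw_real' hb _ {∅} (fun T => by
      rw [Finset.mem_singleton]
      constructor
      · rintro rfl
        exact ⟨Finset.empty_subset _, rfl⟩
      · exact fun h => h.2), Finset.sum_singleton, P.W_pair hj hq'.le]
    have h6 := P.empty j hj q hq'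
    have h7 := Real.add_one_le_exp (-(P.δ j))
    linarith
  calc ∏ q ∈ range (P.n j), (flaw (P.S (Nat.pair j q)) (P.W (Nat.pair j q))).real
        {T : Finset ℕ | T ≠ ∅} ≤ ∏ _q ∈ range (P.n j), Real.exp (-(P.δ j)) :=
        Finset.prod_le_prod (fun _ _ => measureReal_nonneg) h2
    _ = Real.exp (-((P.n j : ℝ) * P.δ j)) := by
        rw [Finset.prod_const, card_range, ← Real.exp_nat_mul]
        ring_nf

/-- almost surely infinitely many zone blocks are empty -/
lemma ae_empty : ∀ᵐ ω ∂P.μ, ∃ᶠ j in atTop, P.J ≤ j ∧ ∃ q < P.n j, ω (Nat.pair j q) = ∅ := by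
  have hP := P.prob
  have key : ∀ k : ℕ, ∀ᵐ ω ∂P.μ, ∃ j, k ≤ j ∧ P.J ≤ j ∧ ∃ q < P.n j, ω (Nat.pair j q) = ∅ := by
    intro K
    rw [ae_iff]
    set bad := {ω : ℕ → Finset ℕ | ¬ ∃ j, K ≤ j ∧ P.J ≤ j ∧ ∃ q < P.n j, ω (Nat.pair j q) = ∅}
      with hbad
    have h1 : ∀ j, max K P.J ≤ j → P.μ bad ≤ ENNReal.ofReal (Real.exp (-((P.n j : ℝ) * P.δ j))) := by
      intro j hj
      have hK : K ≤ j := (le_max_left _ _).trans hj
      have hJ : P.J ≤ j := (le_max_right _ _).trans hj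
      refine le_trans (measure_mono (t := {ω | ∀ q < P.n j, ω (Nat.pair j q) ≠ ∅}) ?_) ?_
      · intro ω hω q hq h0
        exact hω ⟨j, hK, hJ, q, hq, h0⟩
      · rw [← ENNReal.ofReal_toReal (measure_ne_top P.μ _)]
        exact ENNReal.ofReal_le_ofReal (P.zone_cyl hJ)
    have h2 : Tendsto (fun j => ENNReal.ofReal (Real.exp (-((P.n j : ℝ) * P.δ j)))) atTop (𝓝 0) := by
      have h3 : Tendsto (fun j => Real.exp (-((P.n j : ℝ) * P.δ j))) atTop (𝓝 0) :=
        Real.tendsto_exp_neg_atTop_nhds_zero.comp P.many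
      have := ENNReal.tendsto_ofReal h3
      rwa [ENNReal.ofReal_zero] at this
    have h3 : P.μ bad ≤ 0 := ge_of_tendsto h2 (by
      filter_upwards [eventually_ge_atTop (max K P.J)] with j hj
      exact h1 j hj)
    exact le_antisymm h3 bot_le
  filter_upwards [ae_all_iff.2 key] with ω hω
  rw [frequently_atTop]
  intro K
  obtain ⟨j, hj, h⟩ := hω K
  exact ⟨j, hj, h⟩

/-- almost surely the last block of almost every range is never missed for long -/
lemma ae_miss : ∀ᵐ ω ∂P.μ, ∀ᶠ j in atTop, P.J ≤ j →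
    ¬ Miss (blkS p P.s P.n j (P.n j)) (P.g j) (ω (Nat.pair j (P.n j))) := by
  classical
  have hP := P.prob
  set F : ℕ → Set (ℕ → Finset ℕ) := fun j =>
    {ω | P.J ≤ j ∧ Miss (blkS p P.s P.n j (P.n j)) (P.g j) (ω (Nat.pair j (P.n j)))} with hF
  have h1 : ∀ j, P.μ (F j) ≤ ENNReal.ofReal (1 / ((j : ℝ) + 1) ^ 2) := by
    intro j
    by_cases hj : P.J ≤ j
    · have e : F j = {ω | ω (Nat.pair j (P.n j)) ∈
          {T : Finset ℕ | Miss (blkS p P.s P.n j (P.n j)) (P.g j) T}} := by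
        ext ω
        simp [hF, hj]
      rw [← ENNReal.ofReal_toReal (measure_ne_top P.μ _)]
      apply ENNReal.ofReal_le_ofReal
      change P.μ.real (F j) ≤ _
      rw [e, P.coord_real, flaw_real (P.blaw _), P.S_pair hj le_rfl, P.W_pair hj le_rfl]
      exact P.miss j hj
    · have e : F j = ∅ := by
        ext ω
        simp [hF, hj]
      rw [e, measure_empty]
      exact bot_le
  have h2 : Summable fun j : ℕ => 1 / ((j : ℝ) + 1) ^ 2 := by
    have h3 : Summable fun j : ℕ => 1 / ((j : ℝ)) ^ 2 := Real.summable_one_div_nat_pow.2 (by norm_num)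
    have h4 := (summable_nat_add_iff 1).2 h3
    refine h4.congr fun j => ?_
    push_cast
    rfl
  have h3 : ∑' j, P.μ (F j) ≠ ∞ :=
    ne_top_of_le_ne_top h2.tsum_ofReal_ne_top (ENNReal.tsum_le_tsum h1)
  filter_upwards [ae_eventually_notMem h3] with ω hω
  filter_upwards [hω] with j hj hJ hm
  exact hj ⟨hJ, hm⟩

/-- the starting points of the windows which are not inside the last block of a range -/
noncomputable def rest (l : ℝ) (j : ℕ) : Finset ℕ :=
  Ico (aj j) (aj j + P.n j * P.s j) ∪ Ico (aj (j + 1) - len l (aj (j + 1))) (aj (j + 1))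

lemma card_rest (l : ℝ) (j : ℕ) : (P.rest l j).card ≤ P.n j * P.s j + len l (aj (j + 1)) := by
  unfold rest
  refine (Finset.card_union_le _ _).trans ?_
  rw [Nat.card_Ico, Nat.card_Ico]
  omega

/-- almost surely the windows which are not inside a last block are hit -/
lemma ae_rest {l a c : ℝ} (hc : 0 < c) (ha : 0 ≤ a)
    (hav : ∀ᶠ m : ℕ in atTop, P.μ.real (Avoid P.E (win l m)) ≤ (m : ℝ) ^ (-a))
    (hcard : ∀ᶠ j : ℕ in atTop, ((P.n j * P.s j + len l (aj (j + 1)) : ℕ) : ℝ) ≤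
      Real.exp ((a - c) * Lj j)) :
    ∀ᵐ ω ∂P.μ, ∀ᶠ j in atTop, ∀ m ∈ P.rest l j, aj j ≤ m → m < aj (j + 1) →
      ∃ b ∈ {n | ω ∈ P.E n}, m < b ∧ b ≤ m + len l m := by
  classical
  have hP := P.prob
  set R : ℕ → Finset ℕ := fun j => (P.rest l j).filter (fun m => aj j ≤ m ∧ m < aj (j + 1)) with hR
  set F : ℕ → Set (ℕ → Finset ℕ) := fun j => ⋃ m ∈ R j, Avoid P.E (win l m) with hF
  have h1 : ∀ᶠ j in atTop, P.μ.real (F j) ≤ 1 / ((j : ℝ) + 1) ^ 2 := by
    filter_upwards [tendsto_aj.eventually (eventually_forall_ge' hav), hcard,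
      exp_small hc (c := 1) one_pos, eventually_ge_atTop 1] with j h2 h3 h4 hj1
    have haj : (1 : ℝ) ≤ aj j := by exact_mod_cast hj1.trans (le_aj j)
    have h5 : P.μ.real (F j) ≤ ∑ m ∈ R j, P.μ.real (Avoid P.E (win l m)) :=
      measureReal_biUnion_finset_le _ _
    have h6 : ∀ m ∈ R j, P.μ.real (Avoid P.E (win l m)) ≤ Real.exp (-(a * Lj j)) := by
      intro m hm
      obtain ⟨_, hm1, _⟩ := Finset.mem_filter.1 hm
      refine (h2 m hm1).trans ?_
      have hm0 : (1 : ℝ) ≤ m := haj.trans (by exact_mod_cast hm1)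
      rw [Real.rpow_def_of_pos (by linarith)]
      apply Real.exp_le_exp.2
      have h7 : Lj j ≤ Real.log (m : ℝ) := Real.log_le_log (by linarith) (by exact_mod_cast hm1)
      nlinarith
    have h7 : ((R j).card : ℝ) ≤ Real.exp ((a - c) * Lj j) := by
      refine le_trans ?_ h3
      exact_mod_cast (Finset.card_filter_le _ _).trans (P.card_rest l j)
    calc P.μ.real (F j) ≤ ∑ m ∈ R j, P.μ.real (Avoid P.E (win l m)) := h5
      _ ≤ ∑ _m ∈ R j, Real.exp (-(a * Lj j)) := Finset.sum_le_sum h6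
      _ = (R j).card * Real.exp (-(a * Lj j)) := by rw [Finset.sum_const, nsmul_eq_mul]
      _ ≤ Real.exp ((a - c) * Lj j) * Real.exp (-(a * Lj j)) := by gcongr
      _ = Real.exp (-(c * Lj j)) := by
          rw [← Real.exp_add]
          ring_nf
      _ ≤ 1 / ((j : ℝ) + 1) ^ 2 := h4
  have h2 : Summable fun j : ℕ => 1 / ((j : ℝ) + 1) ^ 2 := by
    have h3 : Summable fun j : ℕ => 1 / ((j : ℝ)) ^ 2 := Real.summable_one_div_nat_pow.2 (by norm_num)
    have h4 := (summable_nat_add_iff 1).2 h3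
    refine h4.congr fun j => ?_
    push_cast
    rfl
  have h3 : Summable fun j : ℕ => P.μ.real (F j) := by
    refine h2.of_norm_bounded_eventually_nat ?_
    filter_upwards [h1] with j hj
    rwa [Real.norm_of_nonneg measureReal_nonneg]
  have h4 : ∑' j, P.μ (F j) ≠ ∞ := by
    have h5 : ∀ j, P.μ (F j) = ENNReal.ofReal (P.μ.real (F j)) :=
      fun j => (ENNReal.ofReal_toReal (measure_ne_top _ _)).symm
    simp_rw [h5]
    exact h3.tsum_ofReal_ne_top
  filter_upwards [ae_eventually_notMem h4] with ω hω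
  filter_upwards [hω] with j hj m hm hm1 hm2
  by_contra hcon
  apply hj
  simp only [hF, Set.mem_iUnion]
  refine ⟨m, Finset.mem_filter.2 ⟨hm, hm1, hm2⟩, ?_⟩
  rw [mem_Avoid]
  intro b hb hbE
  obtain ⟨hb1, hb2⟩ := Finset.mem_Ioc.1 hb
  exact hcon ⟨b, hbE, hb1, hb2⟩

/-- almost surely all windows are hit -/
lemma ae_hit {l a c : ℝ} (hl : 0 ≤ l) (hc : 0 < c) (ha : 0 ≤ a)
    (hav : ∀ᶠ m : ℕ in atTop, P.μ.real (Avoid P.E (win l m)) ≤ (m : ℝ) ^ (-a))
    (hcard : ∀ᶠ j : ℕ in atTop, ((P.n j * P.s j + len l (aj (j + 1)) : ℕ) : ℝ) ≤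
      Real.exp ((a - c) * Lj j))
    (hg : ∀ᶠ j : ℕ in atTop, ∀ x, aj j ≤ x → x + len l x ≤ aj (j + 1) →
      P.g j ≤ (sp p x (x + len l x)).card) :
    ∀ᵐ ω ∂P.μ, ∀ᶠ m : ℕ in atTop, ∃ b ∈ {n | ω ∈ P.E n}, m < b ∧ b ≤ m + len l m := by
  filter_upwards [P.ae_rest hc ha hav hcard, P.ae_miss] with ω h1 h2
  have h3 : Tendsto (fun m : ℕ => Nat.log 2 (m + 1)) atTop atTop :=
    tendsto_log2.comp (tendsto_add_atTop_nat 1)
  filter_upwards [h3.eventually h1, h3.eventually h2, h3.eventually hg,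
    h3.eventually_ge_atTop P.J, eventually_ge_atTop 1] with m h1 h2 h4 h5 hm1
  set j := Nat.log 2 (m + 1) with hj
  have hr : m + 1 ∈ Ioc (aj j) (aj (j + 1)) := (mem_range_iff (by omega)).2 hj.symm
  obtain ⟨hr1, hr2⟩ := mem_Ioc.1 hr
  by_cases hm : m ∈ P.rest l j
  · exact h1 m hm (by omega) (by omega)
  · -- inside the last block
    unfold rest at hm
    rw [Finset.mem_union, not_or, mem_Ico, mem_Ico] at hm
    obtain ⟨ha1, ha2⟩ := hm
    have hlen : len l m ≤ len l (aj (j + 1)) := by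
      unfold len
      apply Nat.floor_mono
      have h6 : Real.log (m : ℝ) ≤ Real.log (aj (j + 1) : ℝ) := by
        apply Real.log_le_log (by exact_mod_cast hm1)
        exact_mod_cast (by omega : m ≤ aj (j + 1))
      have h7 : 0 ≤ Real.log (m : ℝ) := Real.log_natCast_nonneg m
      exact mul_le_mul_of_nonneg_left (pow_le_pow_left₀ h7 h6 2) hl
    have hm2 : m + len l m ≤ aj (j + 1) := by omega
    have hm3 : aj j + P.n j * P.s j ≤ m := by omega
    have h6 := h4 m (by omega) hm2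
    have h7 := h2 h5
    by_contra hcon
    apply h7
    refine ⟨m + 1, m + len l m + 1, ?_, ?_⟩
    · refine h6.trans (Finset.card_le_card fun x hx => ?_)
      rw [mem_sp, mem_Ioc] at hx
      rw [Finset.mem_inter, mem_Ico]
      refine ⟨?_, by omega, by omega⟩
      unfold blkS bEnd
      rw [if_neg (lt_irrefl _), mem_sp, mem_Ioc]
      exact ⟨⟨by omega, by omega⟩, hx.2⟩
    · rw [Finset.disjoint_left]
      intro b hb hb2
      rw [Finset.mem_inter, mem_Ico] at hb2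
      apply hcon
      refine ⟨b, ?_, by omega, by omega⟩
      have h8 : P.bi b = Nat.pair j (P.n j) := P.bi_eq h5 le_rfl (mem_sp.1 hb2.1).1
      change b ∈ ω (P.bi b)
      rw [h8]
      exact hb

/-- lower bound for the Cramer constant -/
lemma le_cramer_of {l : ℝ} (hl : 0 ≤ l)
    (hs : ∀ᶠ j in atTop, ∀ m, aj j ≤ m → m ≤ aj (j + 1) → len l m ≤ P.s j)
    {ω : ℕ → Finset ℕ} (hinf : {n | ω ∈ P.E n}.Infinite)
    (hω : ∃ᶠ j in atTop, P.J ≤ j ∧ ∃ q < P.n j, ω (Nat.pair j q) = ∅) :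
    ENNReal.ofReal l ≤ cramer {n | ω ∈ P.E n} := by
  refine le_cramer hinf hl ?_
  rw [frequently_atTop]
  intro K
  obtain ⟨j, ⟨hJ, q, hq, h0⟩, hs, hK⟩ := (hω.and_eventually (hs.and (eventually_ge_atTop K))).exists
  obtain ⟨f1, f2⟩ := P.fit j hJ
  have h3 : (q + 1) * P.s j ≤ P.n j * P.s j := Nat.mul_le_mul_right _ hq
  rw [add_mul, one_mul] at h3
  refine ⟨aj j + q * P.s j, hK.trans ((le_aj j).trans (Nat.le_add_right _ _)), ?_⟩
  intro b hb1 hb2 hbE
  have h4 := hs (aj j + q * P.s j) (Nat.le_add_right _ _) (by omega)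
  have h5 : b ∈ Ioc (aj j + q * P.s j) (bEnd P.s P.n j q) := by
    unfold bEnd
    rw [if_pos hq, mem_Ioc, add_mul, one_mul]
    omega
  have h6 := P.bi_eq hJ hq.le h5
  have h7 : b ∈ ω (P.bi b) := hbE
  rw [h6, h0] at h7
  simp at h7

end Plan

end Pool.Agent.LibCJ
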