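import Pool.Agent.LibCJ7.Dual
import Pool.Agent.LibCJ7.Defs

/-!
Existence of the exchangeable weights.
-/

namespace Pool.Agent.LibCJ

open Finset

/-- the constant of the duality -/
noncomputable def C₀ (g D : ℕ) (ρ b : ℝ) : ℝ :=
  Real.exp (5 * g * ρ ^ 2 + D * ρ) * (b ^ D * Real.exp (g * ρ / b ^ 2))

lemma C₀_pos {g D : ℕ} {ρ b : ℝ} (hb : 1 < b) : 0 < C₀ g D ρ b := by
  unfold C₀
  have : 0 < b := by linarith
  positivity

theorem exists_sigma {g D : ℕ} (hDg : D ≤ g) (hg : 0 < g) {τ b ρ : ℝ} (hτ0 : 0 < τ)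
    (hρ : ρ = τ / (1 - τ)) (hτ1 : ρ ≤ 1 / 4) (hτ2 : τ < 1) (hb : 1 < b)
    (hC : 2 * C₀ g D ρ b * (1 - τ) ^ g ≤ 1) :
    ∃ s : ℕ → ℝ, SigOK τ (2 * C₀ g D ρ b * (1 - τ) ^ g) D g s := by
  have h1τ : 0 < 1 - τ := by linarith
  have hC0 := C₀_pos (g := g) (D := D) (ρ := ρ) hb
  set c0 := C₀ g D ρ b with hc0
  have hq : 0 < (1 - τ) ^ g := pow_pos h1τ g
  obtain ⟨a, ha1, ha2⟩ := exists_weights (g := g) (D := D) (K := 2 * c0) (fun j => binW g τ j)
    (fun c => by
      have h1 := value_zero_le hDg hg c hτ0 hρ hτ1 hτ2 hb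
      rw [show Real.exp (5 * g * ρ ^ 2 + D * ρ) * (b ^ D * Real.exp (g * ρ / b ^ 2)) = c0 from rfl,
        Finset.sum_range_succ', qv_zero] at h1
      have h2 : binW g τ 0 = (1 - τ) ^ g := by
        unfold binW
        simp
      rw [h2] at h1
      set s := ∑ j ∈ range g, binW g τ (j + 1) * |qv c D (j + 1)| with hs
      have h3 : c0 * (1 - τ) ^ g ≤ 1 / 2 := by linarith
      have h4 : c0 * ((1 - τ) ^ g * |c 0|) ≤ 1 / 2 * |c 0| := by
        rw [← mul_assoc]
        exact mul_le_mul_of_nonneg_right h3 (abs_nonneg _)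
      rw [mul_add] at h1
      linarith)
    (fun j => binW_nonneg hτ0.le hτ2.le j) (by positivity)
  refine ⟨fun j => if j = 0 then 1 else -(a j) * (1 - τ) ^ g / binW g τ j, ?_, ?_, ?_⟩
  · simp
  · intro j hj
    simp only [hj, if_false]
    have hb0 := binW_nonneg (g := g) hτ0.le hτ2.le j
    rcases hb0.eq_or_lt with h | h
    · rw [← h, div_zero, abs_zero]
      positivity
    · rw [abs_div, abs_mul, abs_neg, abs_of_pos hq, abs_of_pos h, div_le_iff₀ h]
      have := ha1 j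
      nlinarith
  · intro i hi
    rw [Finset.sum_range_succ']
    have h2 : binW g τ 0 = (1 - τ) ^ g := by
      unfold binW
      simp
    have h3 : ∑ j ∈ range g, binW g τ (j + 1) * (if j + 1 = 0 then 1 else
        -(a (j + 1)) * (1 - τ) ^ g / binW g τ (j + 1)) * ((j + 1).choose i : ℝ) =
        -(1 - τ) ^ g * ∑ j ∈ range g, a (j + 1) * ((j + 1).choose i : ℝ) := by
      rw [mul_sum]
      refine sum_congr rfl fun j hj => ?_
      have hj' : j + 1 ≤ g := mem_range.1 hj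
      have hbp : binW g τ (j + 1) ≠ 0 := by
        unfold binW
        have : (0 : ℝ) < (g.choose (j + 1) : ℝ) := by exact_mod_cast Nat.choose_pos hj'
        positivity
      simp only [Nat.succ_ne_zero, if_false]
      field_simp
    rw [h3, ha2 i hi, h2]
    rcases Nat.eq_zero_or_pos i with rfl | hi0
    · simp
    · rw [Nat.choose_eq_zero_of_lt hi0]
      simp [hi0.ne']

end Pool.Agent.LibCJ
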