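import Pool.Agent.LibCJ7.GapLaw
import Pool.Agent.LibCI7.Rao

namespace Pool.Agent.LibCJ

open Finset

attribute [local instance 2000] LibCramer.msFinset in
open Classical in
theorem blaw_avoid {S : Finset ℕ} {τ : ℝ} {K : ℕ} {w : Finset ℕ → ℝ} (hτ0 : 0 < τ) (hτ1 : τ < 1)
    (h : LibCramer.BLaw S (fun _ => τ) K w) {W : Finset ℕ} (hW : W ⊆ S) {r : ℕ} (hr : 2 * r ≤ K) :
    (∑ T ∈ S.powerset with Disjoint T W, w T) *
      ((W.card.choose r : ℝ) * (τ / (1 - τ)) ^ r) ≤ 1 := by
  by_cases hK0 : K = 0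
  · have hr0 : r = 0 := by omega
    subst hr0
    simp only [Nat.choose_zero_right, Nat.cast_one, pow_zero, mul_one]
    rw [← h.sum]
    exact Finset.sum_le_sum_of_subset_of_nonneg (Finset.filter_subset _ _) fun T hT _ => h.nonneg T hT
  set μ := LibCramer.flaw S w with hμ
  have : MeasureTheory.IsProbabilityMeasure μ := LibCramer.flaw_prob h
  set E : ℕ → Set (Finset ℕ) := fun n => {T | n ∈ T} with hE
  have hEr : ∀ j ∈ W, μ.real (E j) = τ := by
    intro j hj
    have h1 : E j = {T | ({j} : Finset ℕ) ⊆ T} := by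
      ext T; simp [hE]
    rw [h1, hμ, LibCramer.flaw_real_incl h, h.incl {j} (by simpa using hW hj) (by
      rw [Finset.card_singleton]; omega)]
    simp
  have hK : LibCramer.KProd E μ W K := by
    intro J hJ hJc
    have h1 : (⋂ j ∈ J, E j) = {T | J ⊆ T} := by
      ext T; simp [hE, Finset.subset_iff]
    rw [h1, hμ, LibCramer.flaw_real_incl h, h.incl J (hJ.trans hW) hJc, ← hμ]
    exact Finset.prod_congr rfl fun j hj => (hEr j (hJ hj)).symm
  have hrao := LibCramer.rao (μ := μ) (E := E) (fun n => LibCramer.measAll _) hK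
    (fun j hj => by rw [hEr j hj]; exact hτ1) hr
  have hod : ∀ j ∈ W, LibCramer.odds E μ j = τ / (1 - τ) := by
    intro j hj
    unfold LibCramer.odds
    rw [hEr j hj]
  have hes : LibCramer.esum W (LibCramer.odds E μ) r = (W.card.choose r : ℝ) * (τ / (1 - τ)) ^ r := by
    unfold LibCramer.esum
    rw [Finset.sum_congr rfl (g := fun _ => (τ / (1 - τ)) ^ r) ?_, Finset.sum_const,
      Finset.card_powersetCard, nsmul_eq_mul]
    intro J hJ
    rw [Finset.mem_powersetCard] at hJ
    rw [Finset.prod_congr rfl (g := fun _ => τ / (1 - τ)) fun j hj => hod j (hJ.1 hj),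
      Finset.prod_const, hJ.2]
  have hav : μ.real (LibCramer.Avoid E W) = ∑ T ∈ S.powerset with Disjoint T W, w T := by
    rw [hμ, LibCramer.flaw_real h]
    refine Finset.sum_congr ?_ fun _ _ => rfl
    ext T
    simp only [Finset.mem_filter, LibCramer.mem_Avoid, hE]
    refine and_congr_right fun _ => ?_
    rw [Finset.disjoint_right]
    rfl
  have hodn : ∀ j ∈ W, 0 ≤ LibCramer.odds E μ j := fun j hj => by
    rw [hod j hj]
    exact div_nonneg hτ0.le (by linarith)
  have hle : LibCramer.esum W (LibCramer.odds E μ) r ≤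
      ∑ k ∈ Finset.range (r + 1), LibCramer.esum W (LibCramer.odds E μ) k :=
    Finset.single_le_sum (f := fun k => LibCramer.esum W (LibCramer.odds E μ) k)
      (fun k _ => LibCramer.esum_nonneg hodn k) (Finset.mem_range.2 (Nat.lt_succ_self r))
  rw [← hes, ← hav]
  refine le_trans (mul_le_mul_of_nonneg_left hle MeasureTheory.measureReal_nonneg) hrao

lemma stretch_cases {M g₀ g₁ : ℕ} {X : Finset ℕ} (hg : 1 ≤ g₀) (hgg : g₀ ≤ g₁)
    (hX : X ⊆ Ioo 0 (M + 1)) (h : Stretch M g₀ X) : HasGap M g₀ g₁ X ∨ Stretch M g₁ X := by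
  classical
  obtain ⟨a, ha, hd⟩ := h
  -- left border
  have hL : ((insert 0 X).filter (fun n => n ≤ a)).Nonempty := ⟨0, by simp⟩
  set u := ((insert 0 X).filter (fun n => n ≤ a)).max' hL with hu
  have huP := Finset.max'_mem _ hL
  rw [← hu] at huP
  have hua : u ≤ a := (Finset.mem_filter.1 huP).2
  have huX : u = 0 ∨ u ∈ X := by simpa using (Finset.mem_filter.1 huP).1
  have humax : ∀ n ∈ X, n ≤ a → n ≤ u := fun n hn hna =>
    Finset.le_max' _ n (Finset.mem_filter.2 ⟨Finset.mem_insert_of_mem hn, hna⟩)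
  -- right border
  have hR : ((insert (M + 1) X).filter (fun n => a < n)).Nonempty :=
    ⟨M + 1, by simp only [Finset.mem_filter, Finset.mem_insert, true_or, true_and]; omega⟩
  set v := ((insert (M + 1) X).filter (fun n => a < n)).min' hR with hv
  have hvP := Finset.min'_mem _ hR
  rw [← hv] at hvP
  have hav : a < v := (Finset.mem_filter.1 hvP).2
  have hvX : v = M + 1 ∨ v ∈ X := by simpa using (Finset.mem_filter.1 hvP).1
  have hvmin : ∀ n ∈ X, a < n → v ≤ n := fun n hn hna =>
    Finset.min'_le _ n (Finset.mem_filter.2 ⟨Finset.mem_insert_of_mem hn, hna⟩)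
  have hvM : v ≤ M + 1 := Finset.min'_le _ (M + 1) (Finset.mem_filter.2
    ⟨Finset.mem_insert_self _ _, by omega⟩)
  have hdisj : Disjoint X (Ioo u v) := by
    rw [Finset.disjoint_left]
    intro n hn hnI
    rw [Finset.mem_Ioo] at hnI
    rcases le_or_gt n a with h1 | h1
    · exact absurd (humax n hn h1) (by omega)
    · exact absurd (hvmin n hn h1) (by omega)
  have hvg : a + g₀ < v := by
    rcases hvX with h1 | h1
    · omega
    · by_contra hcon
      exact Finset.disjoint_left.1 hd h1 (Finset.mem_Ioc.2 ⟨hav, by omega⟩)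
  by_cases hc : v ≤ u + g₁ + 1
  · exact Or.inl ⟨u, v, by omega, hc, huX, hvX, hvM, hdisj⟩
  · refine Or.inr ⟨u, by omega, ?_⟩
    refine hdisj.mono_right ?_
    intro n hn
    rw [Finset.mem_Ioc] at hn
    rw [Finset.mem_Ioo]
    omega

open Classical in
theorem exists_stretch_law {τ ε η : ℝ} {M g₀ g₁ D r : ℕ} {ψ : ℕ → ℕ → Finset ℕ → ℝ} (hg : 1 ≤ g₀)
    (hgg : g₀ ≤ g₁) (hτ0 : 0 < τ) (hτ1 : τ < 1) (hε : 0 < ε)
    (hsmall : 4 * Real.sqrt ε * ((g₁ : ℝ) + 1) ^ 2 ≤ 1)
    (hψ : ∀ u v, u + g₀ < v → v ≤ u + g₁ + 1 → v ≤ M + 1 → PsiOK τ ε D g₀ u v (ψ u v))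
    (hr : r ≤ D) (hη : 0 ≤ η) (hη1 : 1 ≤ η * ((g₁.choose r : ℝ) * (τ / (1 - τ)) ^ r)) :
    ∃ w : Finset ℕ → ℝ, LibCramer.BLaw (Ioo 0 (M + 1)) (fun _ => τ) (2 * D + 1) w ∧
      ∑ X ∈ (Ioo 0 (M + 1)).powerset with Stretch M g₀ X, w X ≤ Real.sqrt ε + (M + 1) * η := by
  obtain ⟨w, hw, hgap⟩ := exists_gap_law hg hτ0 hτ1 hε hsmall hψ
  refine ⟨w, hw, ?_⟩
  set V := Ioo 0 (M + 1) with hV
  -- one stretch
  have h1 : ∀ u ∈ range (M + 1), u + g₁ ≤ M →
      ∑ X ∈ V.powerset with Disjoint X (Ioc u (u + g₁)), w X ≤ η := by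
    intro u _ hu
    have hW : Ioc u (u + g₁) ⊆ V := by
      intro n hn
      rw [Finset.mem_Ioc] at hn
      rw [hV, Finset.mem_Ioo]
      omega
    have h2 := blaw_avoid hτ0 hτ1 hw hW (r := r) (by omega)
    rw [Nat.card_Ioc, Nat.add_sub_cancel_left] at h2
    set c := (g₁.choose r : ℝ) * (τ / (1 - τ)) ^ r with hc
    have hc0 : 0 ≤ c := by
      have : 0 < 1 - τ := by linarith
      positivity
    have hcpos : 0 < c := by
      rcases hc0.lt_or_eq with h3 | h3
      · exact h3
      · rw [← h3, mul_zero] at hη1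
        linarith
    exact le_of_mul_le_mul_right (h2.trans hη1) hcpos
  have h2 : ∑ X ∈ V.powerset with Stretch M g₀ X, w X ≤
      ∑ X ∈ V.powerset with HasGap M g₀ g₁ X, w X +
      ∑ u ∈ range (M + 1), (if u + g₁ ≤ M then
        ∑ X ∈ V.powerset with Disjoint X (Ioc u (u + g₁)), w X else 0) := by
    have h3 : ∀ u, (if u + g₁ ≤ M then
        ∑ X ∈ V.powerset with Disjoint X (Ioc u (u + g₁)), w X else 0) =
        ∑ X ∈ V.powerset, (if u + g₁ ≤ M ∧ Disjoint X (Ioc u (u + g₁)) then w X else 0) := by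
      intro u
      by_cases hu : u + g₁ ≤ M
      · simp only [hu, if_true, true_and, Finset.sum_filter]
      · simp only [hu, if_false, false_and, Finset.sum_const_zero]
    simp only [h3]
    rw [Finset.sum_comm, Finset.sum_filter, Finset.sum_filter, ← Finset.sum_add_distrib]
    refine Finset.sum_le_sum fun X hX => ?_
    have hwX : 0 ≤ w X := hw.nonneg X hX
    have hX' : X ⊆ V := Finset.mem_powerset.1 hX
    have hsum : 0 ≤ ∑ u ∈ range (M + 1),
        (if u + g₁ ≤ M ∧ Disjoint X (Ioc u (u + g₁)) then w X else 0) :=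
      Finset.sum_nonneg fun u _ => by split_ifs <;> linarith
    by_cases hst : Stretch M g₀ X
    · rw [if_pos hst]
      rcases stretch_cases hg hgg hX' hst with h4 | ⟨u, hu, hd⟩
      · rw [if_pos h4]
        linarith
      · have h5 : w X ≤ ∑ u ∈ range (M + 1),
            (if u + g₁ ≤ M ∧ Disjoint X (Ioc u (u + g₁)) then w X else 0) := by
          have h6 : (if u + g₁ ≤ M ∧ Disjoint X (Ioc u (u + g₁)) then w X else 0) = w X :=
            if_pos ⟨hu, hd⟩
          calc w X = (if u + g₁ ≤ M ∧ Disjoint X (Ioc u (u + g₁)) then w X else 0) := h6.symm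
            _ ≤ _ := Finset.single_le_sum
              (f := fun u => if u + g₁ ≤ M ∧ Disjoint X (Ioc u (u + g₁)) then w X else 0)
              (fun u _ => by split_ifs <;> linarith)
              (Finset.mem_range.2 (by omega))
        have h7 : 0 ≤ if HasGap M g₀ g₁ X then w X else 0 := by split_ifs <;> linarith
        linarith
    · rw [if_neg hst]
      have h7 : 0 ≤ if HasGap M g₀ g₁ X then w X else 0 := by split_ifs <;> linarith
      linarith
  have h3 : ∑ u ∈ range (M + 1), (if u + g₁ ≤ M then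
        ∑ X ∈ V.powerset with Disjoint X (Ioc u (u + g₁)), w X else 0) ≤ (M + 1) * η := by
    have h4 : ∑ u ∈ range (M + 1), (if u + g₁ ≤ M then
        ∑ X ∈ V.powerset with Disjoint X (Ioc u (u + g₁)), w X else 0) ≤
        ∑ _u ∈ range (M + 1), η := by
      refine Finset.sum_le_sum fun u hu => ?_
      split_ifs with h5
      · exact h1 u hu h5
      · exact hη
    refine h4.trans (le_of_eq ?_)
    rw [Finset.sum_const, Finset.card_range, nsmul_eq_mul]
    push_cast
    ring
  linarith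

end Pool.Agent.LibCJ
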