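import Pool.Agent.LibCJ7.Defs

/-!
ROW [CJ ZP]. Positivity of the chain recursion.

Put `δ = 2 κ (g₁ + 1)`; `δ g₁ ≤ 1/2`. By strong induction on `n ≤ N`: `0 < Z n` and
`Z (m + 1) ≥ (1 - δ) Z m` for all `m < n`. Then for `u ≤ n`, `n - u ≤ g₁`:
`Z n ≥ (1 - δ) ^ (n - u) Z u ≥ (1 - g₁ δ) Z u ≥ Z u / 2` (Bernoulli `one_add_mul_le_pow`), so
`Z (n + 1) ≥ Z n - ∑_{u} κ * Z u ≥ Z n - κ (g₁ + 1) 2 Z n = (1 - δ) Z n > 0`
(at most `g₁ + 1` values of `u ∈ range (n + 1)` have `n - u ≤ g₁`). Use `Z_succ`.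
-/

namespace Pool.Agent.LibCJ

open Finset

lemma ZP_chain {δ : ℝ} {f : ℕ → ℝ} (hδ : 0 ≤ 1 - δ) {u : ℕ} : ∀ k : ℕ,
    (∀ m, u ≤ m → m < u + k → (1 - δ) * f m ≤ f (m + 1)) → (1 - δ) ^ k * f u ≤ f (u + k) := by
  intro k
  induction k with
  | zero =>
    intro _
    simp
  | succ k ih =>
    intro h
    have h1 := ih fun m hm hm' => h m hm (by omega)
    have h2 := h (u + k) (by omega) (by omega)
    calc (1 - δ) ^ (k + 1) * f u = (1 - δ) * ((1 - δ) ^ k * f u) := by ring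
      _ ≤ (1 - δ) * f (u + k) := mul_le_mul_of_nonneg_left h1 hδ
      _ ≤ f (u + k + 1) := h2

theorem Z_pos {w κ : ℝ} {Φ : ℕ → ℕ → ℝ} {g₀ g₁ N : ℕ} (hκ : 0 ≤ κ)
    (hκ1 : 4 * κ * ((g₁ : ℝ) + 1) ^ 2 ≤ 1)
    (h : ∀ u v, u + g₀ < v → v ≤ u + g₁ + 1 → v ≤ N → -κ ≤ w * Φ u v) :
    ∀ n, n ≤ N → 0 < Z w Φ g₀ g₁ n := by
  have hg : (0 : ℝ) ≤ (g₁ : ℝ) := Nat.cast_nonneg _
  set δ : ℝ := 2 * κ * ((g₁ : ℝ) + 1) with hδ
  have hδ0 : 0 ≤ δ := by positivity
  have hδg : δ * ((g₁ : ℝ) + 1) ≤ 1 / 2 := by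
    rw [hδ]
    nlinarith
  have hδ1 : 0 ≤ 1 - δ := by nlinarith
  have key : ∀ n, n ≤ N → (∀ m ≤ n, 0 < Z w Φ g₀ g₁ m) ∧
      ∀ m < n, (1 - δ) * Z w Φ g₀ g₁ m ≤ Z w Φ g₀ g₁ (m + 1) := by
    intro n
    induction n with
    | zero =>
      intro _
      refine ⟨fun m hm => ?_, fun m hm => absurd hm (Nat.not_lt_zero _)⟩
      rw [Nat.le_zero.1 hm, Z_zero]
      exact one_pos
    | succ n ih =>
      intro hn
      obtain ⟨hpos, hch⟩ := ih (by omega)
      have hn0 := hpos n le_rfl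
      have hhalf : ∀ u ≤ n, n - u ≤ g₁ → Z w Φ g₀ g₁ u ≤ 2 * Z w Φ g₀ g₁ n := by
        intro u hu hug
        have h1 := ZP_chain (f := Z w Φ g₀ g₁) hδ1 (u := u) (n - u)
          (fun m _ hm => hch m (by omega))
        rw [Nat.add_sub_cancel' hu] at h1
        have h2 : 1 + ((n - u : ℕ) : ℝ) * (-δ) ≤ (1 + -δ) ^ (n - u) :=
          one_add_mul_le_pow (by linarith) _
        have h3 : ((n - u : ℕ) : ℝ) ≤ g₁ := by exact_mod_cast hug
        have h4 : (1 : ℝ) / 2 ≤ (1 - δ) ^ (n - u) := by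
          have h5 : (1 + -δ) = 1 - δ := by ring
          rw [h5] at h2
          nlinarith
        have h6 := hpos u hu
        nlinarith
      have hstep : (1 - δ) * Z w Φ g₀ g₁ n ≤ Z w Φ g₀ g₁ (n + 1) := by
        rw [Z_succ, mul_sum]
        have h1 : ∀ u ∈ range (n + 1), (if n - u ≤ g₁ then -(κ * (2 * Z w Φ g₀ g₁ n)) else 0) ≤
            w * (if g₀ ≤ n - u ∧ n - u ≤ g₁ then Φ u (n + 1) * Z w Φ g₀ g₁ u else 0) := by
          intro u hu
          have hu' : u ≤ n := by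
            have := mem_range.1 hu
            omega
          have hup := hpos u hu'
          by_cases h2 : g₀ ≤ n - u ∧ n - u ≤ g₁
          · rw [if_pos h2, if_pos h2.2]
            have h3 := h u (n + 1) (by omega) (by omega) hn
            have h4 := hhalf u hu' h2.2
            have h5 : κ * Z w Φ g₀ g₁ u ≤ κ * (2 * Z w Φ g₀ g₁ n) :=
              mul_le_mul_of_nonneg_left h4 hκ
            have h6 : -κ * Z w Φ g₀ g₁ u ≤ (w * Φ u (n + 1)) * Z w Φ g₀ g₁ u :=
              mul_le_mul_of_nonneg_right h3 hup.le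
            calc -(κ * (2 * Z w Φ g₀ g₁ n)) ≤ -κ * Z w Φ g₀ g₁ u := by linarith
              _ ≤ (w * Φ u (n + 1)) * Z w Φ g₀ g₁ u := h6
              _ = w * (Φ u (n + 1) * Z w Φ g₀ g₁ u) := by ring
          · rw [if_neg h2, mul_zero]
            split_ifs
            · have : 0 ≤ κ * (2 * Z w Φ g₀ g₁ n) := by positivity
              linarith
            · exact le_rfl
        have h2 := Finset.sum_le_sum h1
        rw [← Finset.sum_filter, Finset.sum_const, nsmul_eq_mul] at h2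
        have h3 : ((range (n + 1)).filter fun u => n - u ≤ g₁) ⊆ Finset.Icc (n - g₁) n := by
          intro u hu
          rw [mem_filter, mem_range] at hu
          rw [Finset.mem_Icc]
          omega
        have h4 : ((range (n + 1)).filter fun u => n - u ≤ g₁).card ≤ g₁ + 1 := by
          refine (Finset.card_le_card h3).trans ?_
          rw [Nat.card_Icc]
          omega
        have h5 : ((((range (n + 1)).filter fun u => n - u ≤ g₁).card : ℕ) : ℝ) ≤ (g₁ : ℝ) + 1 := by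
          exact_mod_cast h4
        have h6 : 0 ≤ κ * (2 * Z w Φ g₀ g₁ n) := by positivity
        have h7 := mul_le_mul_of_nonneg_right h5 h6
        have h8 : ((g₁ : ℝ) + 1) * (κ * (2 * Z w Φ g₀ g₁ n)) = δ * Z w Φ g₀ g₁ n := by
          rw [hδ]
          ring
        nlinarith
      have hlt : δ < 1 := by nlinarith
      refine ⟨fun m hm => ?_, fun m hm => ?_⟩
      · rcases Nat.lt_or_ge m (n + 1) with h1 | h1
        · exact hpos m (by omega)
        · have h2 : m = n + 1 := by omega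
          rw [h2]
          exact lt_of_lt_of_le (mul_pos (by linarith) hn0) hstep
      · rcases Nat.lt_or_ge m n with h1 | h1
        · exact hch m h1
        · have h2 : m = n := by omega
          rw [h2]
          exact hstep
  exact fun n hn => (key n hn).1 n le_rfl

end Pool.Agent.LibCJ
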