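import Pool.Agent.LibCJ7.EVlem

/-!
ROW [CJ ZT]. Locality of the chain recursion, and factorisation of one term.

Let `V = Ioo 0 (M + 1)`.
(A) `Z_local`: strong induction on `n`, `Z_succ`; `Phi M ψ X u (n + 1)` with `u ≤ n`, `n + 1 ≤ M`
depends only on `X ∩ Ioc 0 (n + 1)`.
(B) `EV_term`: with `G = Ioo u v` the function is `f (X ∩ G) * h (X ∩ (V \ G))` for `X ⊆ V`, where
`f A = if S ∩ G ⊆ A then ψ u v A else 0`, `h B = if bdS M S u v ⊆ B then Z w (Phi M ψ B) g₀ g₁ u else 0`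
(for `X ⊆ V`, `X ∩ Ioc 0 u = (X ∩ (V \ G)) ∩ Ioc 0 u`, and `bdS M S u v ⊆ V \ G`; `v ≤ M + 1`,
`u < v`). So `EV_congr`, `V = G ∪ (V \ G)`, `EV_split` give `EV τ G f * EV τ (V \ G) h`, and
`EV τ (V \ G) h = EV τ V (fun X => h (X ∩ (V \ G)))` by `EV_part`, which is the second factor by
`EV_congr` and (A).
-/

namespace Pool.Agent.LibCJ

open Finset

/-- the part of `S` outside the gap `(u, v)`, and its borders -/
def bdS (M : ℕ) (S : Finset ℕ) (u v : ℕ) : Finset ℕ :=
  (S \ Ioo u v) ∪ ((if u = 0 then ∅ else {u}) ∪ (if v = M + 1 then ∅ else {v}))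

lemma Z_local {M g₀ g₁ : ℕ} {ψ : ℕ → ℕ → Finset ℕ → ℝ} (w : ℝ) {X X' : Finset ℕ} :
    ∀ n, n ≤ M → X ∩ Ioc 0 n = X' ∩ Ioc 0 n →
      Z w (Phi M ψ X) g₀ g₁ n = Z w (Phi M ψ X') g₀ g₁ n := by
  intro n
  induction n using Nat.strong_induction_on with
  | _ n ih =>
    intro hn h
    rcases Nat.eq_zero_or_pos n with h0 | h0
    · rw [h0, Z_zero, Z_zero]
    · obtain ⟨m, rfl⟩ : ∃ m, n = m + 1 := ⟨n - 1, by omega⟩
      have hmem : ∀ x, 0 < x → x ≤ m + 1 → (x ∈ X ↔ x ∈ X') := by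
        intro x hx1 hx2
        constructor
        · intro hx
          exact (mem_inter.1 (h ▸ mem_inter.2 ⟨hx, mem_Ioc.2 ⟨hx1, hx2⟩⟩ :
            x ∈ X' ∩ Ioc 0 (m + 1))).1
        · intro hx
          exact (mem_inter.1 (h.symm ▸ mem_inter.2 ⟨hx, mem_Ioc.2 ⟨hx1, hx2⟩⟩ :
            x ∈ X ∩ Ioc 0 (m + 1))).1
      have hZ : ∀ k, k ≤ m → Z w (Phi M ψ X) g₀ g₁ k = Z w (Phi M ψ X') g₀ g₁ k := by
        intro k hk
        refine ih k (by omega) (by omega) ?_
        ext x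
        simp only [mem_inter, mem_Ioc]
        constructor
        · rintro ⟨h1, h2, h3⟩
          exact ⟨(hmem x h2 (by omega)).1 h1, h2, h3⟩
        · rintro ⟨h1, h2, h3⟩
          exact ⟨(hmem x h2 (by omega)).2 h1, h2, h3⟩
      rw [Z_succ, Z_succ, hZ m le_rfl]
      congr 2
      refine sum_congr rfl fun u hu => ?_
      have hu' := mem_range.1 hu
      rw [hZ u (by omega)]
      have hPhi : Phi M ψ X u (m + 1) = Phi M ψ X' u (m + 1) := by
        have e1 : X ∩ Ioo u (m + 1) = X' ∩ Ioo u (m + 1) := by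
          ext x
          simp only [mem_inter, mem_Ioo]
          constructor
          · rintro ⟨h1, h2, h3⟩
            exact ⟨(hmem x (by omega) (by omega)).1 h1, h2, h3⟩
          · rintro ⟨h1, h2, h3⟩
            exact ⟨(hmem x (by omega) (by omega)).2 h1, h2, h3⟩
        have e2 : (u = 0 ∨ u ∈ X) ↔ (u = 0 ∨ u ∈ X') := by
          rcases Nat.eq_zero_or_pos u with h1 | h1
          · simp [h1]
          · rw [hmem u h1 (by omega)]
        have e3 : (m + 1 = M + 1 ∨ m + 1 ∈ X) ↔ (m + 1 = M + 1 ∨ m + 1 ∈ X') := by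
          rw [hmem (m + 1) (by omega) le_rfl]
        unfold Phi
        rw [e1]
        simp only [e2, e3]
      rw [hPhi]

private lemma ZT_bd {M : ℕ} {S X : Finset ℕ} (hS : S ⊆ Ioo 0 (M + 1)) {u v : ℕ} (huv : u < v)
    (hv : v ≤ M + 1) :
    bdS M S u v ⊆ X ∩ (Ioo 0 (M + 1) \ Ioo u v) ↔
      S \ Ioo u v ⊆ X ∧ (u = 0 ∨ u ∈ X) ∧ (v = M + 1 ∨ v ∈ X) := by
  constructor
  · intro h
    refine ⟨fun x hx => (mem_inter.1 (h (mem_union_left _ hx))).1, ?_, ?_⟩
    · by_cases hu : u = 0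
      · exact Or.inl hu
      · right
        refine (mem_inter.1 (h (mem_union_right _ (mem_union_left _ ?_)))).1
        rw [if_neg hu]
        exact mem_singleton_self u
    · by_cases hv' : v = M + 1
      · exact Or.inl hv'
      · right
        refine (mem_inter.1 (h (mem_union_right _ (mem_union_right _ ?_)))).1
        rw [if_neg hv']
        exact mem_singleton_self v
  · rintro ⟨h1, h2, h3⟩ x hx
    rcases mem_union.1 hx with hx | hx
    · have hx' := mem_sdiff.1 hx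
      exact mem_inter.2 ⟨h1 hx, mem_sdiff.2 ⟨hS hx'.1, hx'.2⟩⟩
    · rcases mem_union.1 hx with hx | hx
      · by_cases hu : u = 0
        · rw [if_pos hu] at hx
          exact absurd hx (notMem_empty x)
        · rw [if_neg hu, mem_singleton] at hx
          subst hx
          refine mem_inter.2 ⟨h2.resolve_left hu, mem_sdiff.2 ⟨mem_Ioo.2 ⟨by omega, by omega⟩, ?_⟩⟩
          intro h
          have := (mem_Ioo.1 h).1
          omega
      · by_cases hv' : v = M + 1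
        · rw [if_pos hv'] at hx
          exact absurd hx (notMem_empty x)
        · rw [if_neg hv', mem_singleton] at hx
          subst hx
          refine mem_inter.2 ⟨h3.resolve_left hv', mem_sdiff.2 ⟨mem_Ioo.2 ⟨by omega, by omega⟩, ?_⟩⟩
          intro h
          have := (mem_Ioo.1 h).2
          omega

lemma EV_term {τ : ℝ} {M g₀ g₁ : ℕ} {ψ : ℕ → ℕ → Finset ℕ → ℝ} (w : ℝ) {S : Finset ℕ}
    (hS : S ⊆ Ioo 0 (M + 1)) {u v : ℕ} (huv : u < v) (hv : v ≤ M + 1) :
    EV τ (Ioo 0 (M + 1)) (fun X => if S ⊆ X then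
        Phi M ψ X u v * Z w (Phi M ψ X) g₀ g₁ u else 0) =
      EV τ (Ioo u v) (fun A => if S ∩ Ioo u v ⊆ A then ψ u v A else 0) *
      EV τ (Ioo 0 (M + 1)) (fun X => if bdS M S u v ⊆ X then Z w (Phi M ψ X) g₀ g₁ u else 0) := by
  classical
  have hGV : Ioo u v ⊆ Ioo 0 (M + 1) := by
    intro x hx
    have := mem_Ioo.1 hx
    exact mem_Ioo.2 ⟨by omega, by omega⟩
  have hloc : ∀ X : Finset ℕ, Z w (Phi M ψ X) g₀ g₁ u =
      Z w (Phi M ψ (X ∩ (Ioo 0 (M + 1) \ Ioo u v))) g₀ g₁ u := by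
    intro X
    refine Z_local w u (by omega) ?_
    ext x
    simp only [mem_inter, mem_Ioc, mem_sdiff, mem_Ioo]
    constructor
    · rintro ⟨h1, h2, h3⟩
      exact ⟨⟨h1, ⟨h2, by omega⟩, by omega⟩, h2, h3⟩
    · rintro ⟨⟨h1, _⟩, h2, h3⟩
      exact ⟨h1, h2, h3⟩
  set f : Finset ℕ → ℝ := fun A => if S ∩ Ioo u v ⊆ A then ψ u v A else 0 with hf
  set h : Finset ℕ → ℝ := fun B => if bdS M S u v ⊆ B then Z w (Phi M ψ B) g₀ g₁ u else 0 with hh
  have hpt : ∀ X ⊆ Ioo 0 (M + 1), (if S ⊆ X then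
      Phi M ψ X u v * Z w (Phi M ψ X) g₀ g₁ u else 0) =
      f (X ∩ Ioo u v) * h (X ∩ (Ioo 0 (M + 1) \ Ioo u v)) := by
    intro X _
    simp only [hf, hh]
    have e1 : S ∩ Ioo u v ⊆ X ∩ Ioo u v ↔ S ∩ Ioo u v ⊆ X :=
      ⟨fun h' => h'.trans inter_subset_left, fun h' => subset_inter h' inter_subset_right⟩
    have e2 : S ⊆ X ↔ S ∩ Ioo u v ⊆ X ∧ S \ Ioo u v ⊆ X := by
      constructor
      · intro h'
        exact ⟨inter_subset_left.trans h', sdiff_subset.trans h'⟩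
      · rintro ⟨h1, h2⟩ x hx
        by_cases hxG : x ∈ Ioo u v
        · exact h1 (mem_inter.2 ⟨hx, hxG⟩)
        · exact h2 (mem_sdiff.2 ⟨hx, hxG⟩)
    by_cases a1 : S ∩ Ioo u v ⊆ X
    · by_cases a2 : S \ Ioo u v ⊆ X
      · rw [if_pos (e2.2 ⟨a1, a2⟩), if_pos (e1.2 a1)]
        by_cases a3 : (u = 0 ∨ u ∈ X) ∧ (v = M + 1 ∨ v ∈ X)
        · rw [if_pos ((ZT_bd hS huv hv).2 ⟨a2, a3⟩), ← hloc X]
          unfold Phi
          rw [if_pos a3]
        · rw [if_neg (fun h' => a3 ((ZT_bd hS huv hv).1 h').2), mul_zero]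
          have : Phi M ψ X u v = 0 := by
            unfold Phi
            rw [if_neg a3]
          rw [this, zero_mul]
      · rw [if_neg (fun h' => a2 (e2.1 h').2), if_neg (fun h' => a2 ((ZT_bd hS huv hv).1 h').1),
          mul_zero]
    · rw [if_neg (fun h' => a1 (e2.1 h').1), if_neg (fun h' => a1 (e1.1 h')), zero_mul]
  rw [EV_congr hpt]
  have hV : Ioo u v ∪ (Ioo 0 (M + 1) \ Ioo u v) = Ioo 0 (M + 1) := union_sdiff_of_subset hGV
  have hsplit := EV_split τ (disjoint_sdiff (s := Ioo u v) (t := Ioo 0 (M + 1))) f h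
  rw [hV] at hsplit
  rw [hsplit]
  congr 1
  rw [← EV_part τ (sdiff_subset (s := Ioo 0 (M + 1)) (t := Ioo u v)) h]
  refine EV_congr fun X _ => ?_
  simp only [hh]
  have e3 : bdS M S u v ⊆ X ∩ (Ioo 0 (M + 1) \ Ioo u v) ↔ bdS M S u v ⊆ X := by
    constructor
    · intro h'
      exact h'.trans inter_subset_left
    · intro h'
      refine (ZT_bd hS huv hv).2 ⟨fun x hx => h' (mem_union_left _ hx), ?_, ?_⟩
      · by_cases hu : u = 0
        · exact Or.inl hu
        · right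
          refine h' (mem_union_right _ (mem_union_left _ ?_))
          rw [if_neg hu]
          exact mem_singleton_self u
      · by_cases hv' : v = M + 1
        · exact Or.inl hv'
        · right
          refine h' (mem_union_right _ (mem_union_right _ ?_))
          rw [if_neg hv']
          exact mem_singleton_self v
  by_cases a : bdS M S u v ⊆ X
  · rw [if_pos (e3.2 a), if_pos a, ← hloc X]
  · rw [if_neg (fun h' => a (e3.1 h')), if_neg a]

end Pool.Agent.LibCJ
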